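import Mathlib
import Pool.Graph.R_seed8.W811.Stu.Stmts3

/-!
# Stable sets of trace maps: definitions

Points of trace space are `P3 = ⟨z, y, x⟩`, `orb d p m` is the orbit under the trace maps with
digits `d 0, d 1, ...`, `OnS δ p` is the invariant surface `x² + y² + z² - 2xyz = 1 + δ²`,
`(orb d p (m+1)).z = (orb d p m).y`, `tf d j k p` is `t_k` at stage `j`
(`t_0 = z_j = y_{j-1}`, `t_1 = x_j`, `t_{k+2} = 2 y_j t_{k+1} - t_k`, `t_{d_j} = y_{j+1}`).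

The part `|z| < 1` of the surface has the coordinates `(z, ϑ)`:
`y = B cos ϑ`, `x = B (z cos ϑ + √(1-z²) sin ϑ)`, `B² = (1+δ²-z²)/(1-z²)`.
-/

set_option autoImplicit false

open Real

namespace Pool.Agent.H812.Tm

open Pool.Agent.W811.Stu

/-- the strip `|z| < 1` -/
def U : Set (ℝ × ℝ) := {v | |v.1| < 1}

noncomputable def Bf (δ z : ℝ) : ℝ := √((1 + δ ^ 2 - z ^ 2) / (1 - z ^ 2))

/-- parametrisation of the part `|z| < 1` of the surface -/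
noncomputable def ze (δ : ℝ) (v : ℝ × ℝ) : P3 :=
  ⟨v.1, Bf δ v.1 * cos v.2, Bf δ v.1 * (v.1 * cos v.2 + √(1 - v.1 ^ 2) * sin v.2)⟩

/-- the level function `y_m` in the coordinates `(z, ϑ)` -/
noncomputable def Yf (δ : ℝ) (d : ℕ → ℕ) (m : ℕ) (v : ℝ × ℝ) : ℝ := (orb d (ze δ v) m).y

/-- the level function `t_{j,k}` in the coordinates `(z, ϑ)` -/
noncomputable def Tf (δ : ℝ) (d : ℕ → ℕ) (j k : ℕ) (v : ℝ × ℝ) : ℝ := tf d j k (ze δ v)

/-- first derivatives -/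
noncomputable def dz (f : ℝ × ℝ → ℝ) (v : ℝ × ℝ) : ℝ := fderiv ℝ f v (1, 0)
noncomputable def dt (f : ℝ × ℝ → ℝ) (v : ℝ × ℝ) : ℝ := fderiv ℝ f v (0, 1)

/-- slope `dϑ/dz` of the level lines -/
noncomputable def sl (f : ℝ × ℝ → ℝ) (v : ℝ × ℝ) : ℝ := -dz f v / dt f v

/-- the Jacobian -/
noncomputable def jac (f g : ℝ × ℝ → ℝ) (v : ℝ × ℝ) : ℝ := dz f v * dt g v - dt f v * dz g v

/-- `p` is in the stable set, for points with `|z| ≤ 1` -/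
def Alive (d : ℕ → ℕ) (p : P3) : Prop :=
  ∀ m, |(orb d p m).y| ≤ 1 ∨ |(orb d p (m + 1)).y| ≤ 1

/-- shifted digits -/
def shd (d : ℕ → ℕ) (n : ℕ) : ℕ → ℕ := fun k => d (n + k)

lemma Tf_eq (δ : ℝ) (d : ℕ → ℕ) (j k : ℕ) :
    Tf δ d j k = Yf δ (Function.update d j k) (j + 1) := by
  funext v; unfold Tf Yf; rw [tf_eq_orb]

lemma Tf_zero (δ : ℝ) (d : ℕ → ℕ) (j : ℕ) : Tf δ d (j + 1) 0 = Yf δ d j := by
  funext v; unfold Tf Yf; rw [tf_zero, orb_succ_z]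

lemma Tf_last (δ : ℝ) (d : ℕ → ℕ) (j : ℕ) : Tf δ d j (d j) = Yf δ d (j + 1) := by
  funext v; unfold Tf Yf; rw [orb_succ_y]

lemma update_ge {d : ℕ → ℕ} (hd : ∀ k, 1 ≤ d k) (j : ℕ) {k : ℕ} (hk : 1 ≤ k) :
    ∀ i, 1 ≤ Function.update d j k i := by
  intro i
  by_cases h : i = j
  · subst h; rw [Function.update_self]; exact hk
  · rw [Function.update_of_ne h]; exact hd i

end Pool.Agent.H812.Tm
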