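import Mathlib
import Pool.Agent.H812.Tm.Defs

/-!
# Spec 1: coordinates, bracket identities, growth estimates

Each `S... : Prop` is an independent part.  All of them are proved on paper (proofs in the
docstrings); the library modules `Pool.Graph.R_seed8.W811.Stu.*`, `W308.Stu.Bdd`, `W216.Stu.Hyp`,
`W571.Stu.Rev`, `W816.Stu.BddL` contain the tools which are quoted.
-/

set_option autoImplicit false

open Real Filter Topology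
open scoped ContDiff

namespace Pool.Agent.H812.Tm

open Pool.Agent.W811.Stu

/-- **Coordinates.**
`x - z y = B √(1-z²) sin ϑ`, `(x - zy)² = δ² + (1-y²)(1-z²)` on the surface, `B² = 1 + δ²/(1-z²)`.
(b): `(y/B)² + ((x-zy)/(B√(1-z²)))² = 1`. (e): `gX = x - yz = B√(1-z²) sin ϑ`,
`gB = y - xz = B√(1-z²)(√(1-z²) cos ϑ - z sin ϑ)`; i.e. `∂_ϑ ze = - fV(ze) / √(1-z²)`. -/
def SCoord : Prop := ∀ δ : ℝ,
  (∀ v ∈ U, OnS δ (ze δ v)) ∧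
  (∀ p : P3, OnS δ p → |p.z| < 1 → ∃ ϑ, ze δ (p.z, ϑ) = p) ∧
  ContDiffOn ℝ ∞ (fun v => toL (ze δ v)) U ∧
  (∀ z ϑ, ze δ (z, ϑ + 2 * π) = ze δ (z, ϑ)) ∧
  (∀ v ∈ U, HasDer (fun t => ze δ (v.1, t))
    ⟨0, -gX (ze δ v) / √(1 - v.1 ^ 2), gB (ze δ v) / √(1 - v.1 ^ 2)⟩ v.2)

/-- **Level functions are smooth**; `∂_ϑ y_m = - Vy/√(1-z²)` (chain rule `HasDer.orb`,
linearity `dorb_lc`). -/
def SDt : Prop := ∀ (δ : ℝ) (d : ℕ → ℕ) (m : ℕ),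
  ContDiffOn ℝ ∞ (Yf δ d m) U ∧ (∀ z ϑ, Yf δ d m (z, ϑ + 2 * π) = Yf δ d m (z, ϑ)) ∧
  ∀ v ∈ U, dt (Yf δ d m) v = -Vy d m (ze δ v) / √(1 - v.1 ^ 2)

/-- **Bounded slopes.** Proof: the fields `fH = ⟨gX, 0, -gA⟩` and `fK = ⟨-gB, gA, 0⟩` are tangent to
the surface, so in coordinates `fH = gX ∂_z + c ∂_ϑ` with `0 = gX ∂_z y + c ∂_ϑ y`,
`∂_ϑ y = -gX/√(1-z²)`, i.e. `c = √(1-z²) ∂_z y` (if `gX ≠ 0`, in general by the explicit formulas),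
so `fH f = gX f_z + c f_ϑ`, and similarly `fK f = -gB f_z + c' f_ϑ`, with `|c|, |c'| ≤ C` for
`|z| ≤ r`. By `cmpY` (with `κ := 1`) `|fH f|, |fK f| ≤ N0 |Vy|`, `|Vy| ≤ |f_ϑ|`.  Finally
`gX² + gB² = B²(1-z²)(sin²ϑ + (√(1-z²) cos ϑ - z sin ϑ)²) ≥ c > 0` for `|z| ≤ r`. -/
def SSlope : Prop := ∀ δ r : ℝ, δ ≠ 0 → r < 1 → ∃ C : ℝ, 0 < C ∧ ∀ d : ℕ → ℕ, (∀ k, 1 ≤ d k) →
  ∀ m, 2 ≤ m → ∀ v : ℝ × ℝ, |v.1| ≤ r → |Yf δ d m v| < cc δ →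
    |dz (Yf δ d m) v| ≤ C * |dt (Yf δ d m) v|

/-- **Bracket identities.** Proof: for a point `q = ⟨z,y,x⟩` of the surface depending smoothly on
`v ∈ U`, `(J(y,x), J(x,z), J(z,y))` is proportional to the gradient `(gA, gB, gX)` of the equation
of the surface.  Show by induction over the moves `stepR`, `stepS`: there is `s = ±1` (independent of
`v`) with `J(z,y) √(1-v.1²) = s gX(q)`, `J(y,x) √(1-v.1²) = s gA(q)`, `J(x,z) √(1-v.1²) = s gB(q)`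
(start: `q = ze δ v`, `J(z,y) = ∂_ϑ y = - gX/√(1-z²)`; the other two by differentiating the equation
of the surface, or by direct computation).  Then use `OnS.X2, OnS.A2, OnS.B2` at
`q = stepR^[k] (orb d (ze δ v) j) = ⟨t_k, y_j, t_{k+1}⟩`. -/
def SBr : Prop := ∀ (δ : ℝ) (d : ℕ → ℕ) (j k : ℕ), ∀ v ∈ U,
  (jac (Yf δ d j) (Tf δ d j k) v) ^ 2 * (1 - v.1 ^ 2) =
    δ ^ 2 + (1 - Yf δ d j v ^ 2) * (1 - Tf δ d j k v ^ 2) ∧
  (jac (Tf δ d j k) (Tf δ d j (k + 1)) v) ^ 2 * (1 - v.1 ^ 2) =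
    δ ^ 2 + (1 - Tf δ d j k v ^ 2) * (1 - Tf δ d j (k + 1) v ^ 2)

/-- **Lower bound**: `tLB` of the library, and `|∂_ϑ f| = |Vy|/√(1-z²) ≥ |Vy|`. -/
def SLow : Prop := ∀ δ κ : ℝ, δ ≠ 0 → 0 ≤ κ → κ < cc δ → ∃ c0 : ℝ, 0 < c0 ∧ ∀ d : ℕ → ℕ,
  (∀ k, 1 ≤ d k) → ∀ m, 2 ≤ m → ∀ v ∈ U, |Yf δ d m v| ≤ κ →
    c0 * 2 ^ (m / 2) ≤ |dt (Yf δ d m) v|

/-- **Exponential growth along hyperbolic runs.** Proof: modify `tLB` (module `Grow`): take the data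
`(a, b)` at stage `j` (`stage`), with norms `≥ n := |δ| 2^((j-1)/2)`.  Under one step `R`,
`b' = pr (s3R p s2 s3) b` and `ip b' b' = ip b b + (ip b (s3R ..))²`, `ip b (s3R ..) = - ip b s2`
(as `ip b s3 = 0`).  As `b ⊥ s3`, `ip b s2 = ip b τ`, `τ = s2 - y s3`, `ip τ τ = y² - 1 > 0`, so by
`rev_cs` `(ip b s2)² ≥ (y²-1) ip b b`, i.e. `ip b' b' ≥ y² ip b b`.  So after `l` steps
`ip b_l b_l ≥ |y|^{2l} n²`, and `a_l = a + Σ pr s1 b_i` has norm `≥ Σ_{i<l} |y|^i n ≥ |y|^{l-1} n`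
(`norm_add`).  Then `LBx` at `stepR^[k-1] (orb d p j)` as in `tLB` (for `k = 1` this is `tLB`'s
case).  `2^(j/2) ≤ 2 · 2^((j-1)/2)`. -/
def SRun : Prop := ∀ δ κ : ℝ, δ ≠ 0 → 1 < κ → κ < cc δ → ∃ c0 : ℝ, 0 < c0 ∧ ∀ d : ℕ → ℕ,
  (∀ k, 1 ≤ d k) → ∀ j k, 2 ≤ j → 1 ≤ k → ∀ v ∈ U, κ ≤ |Yf δ d j v| → |Tf δ d j k v| ≤ κ →
    c0 * κ ^ k * 2 ^ (j / 2) ≤ |dt (Tf δ d j k) v|

/-- **Older derivative is dominated by the newer one**: `TRev` (`W571.Stu.rev`) for the word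
`Wd d j ++ replicate k R`, which starts with `R` (`Wd_head`) and ends with `R`. -/
def SRev : Prop := ∀ δ κ : ℝ, δ ≠ 0 → 0 ≤ κ → κ < cc δ → ∃ C : ℝ, 0 < C ∧ ∀ d : ℕ → ℕ,
  (∀ k, 1 ≤ d k) → ∀ j k, 1 ≤ j → 1 ≤ k → ∀ v ∈ U, |Tf δ d j k v| ≤ κ →
    |dt (Yf δ d j) v| ≤ C * |dt (Tf δ d j k) v|

/-- **Growth inside a hyperbolic run, relative to an earlier member of the run.**
Proof: reversal (module `W571.Stu.Rev`).  Let `W = Wd d j ++ R^l`, `q_i = stepR^[i] (orb d p j)`.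
With `rt` the reversal, `run W.reverse (rt q_l) = rt p` and (see the proof of `rev`)
`V t_l = ± ℓ(D(R^(l-k))(rt q_l) fV(rt q_l))`, `V t_k = ± ℓ(fV(rt q_k))`, where
`ℓ u = (drun W₀.reverse (rt q_k) u).z`, `W₀ = Wd d j ++ R^k` (first remove the trivial case
`j = k = 0`; otherwise `W₀` starts with `R`, so the `z`-component at the end of the reversed word
is the `x`-component one step earlier).  At `rt q_l` (mirrors by `exists_mir`) the field `fV` has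
data `(0, b0)` (`b0_dat`), `ip b0 b0 = 1+δ²-t_l²`, `ip b0 s1 = δ x`, `ip b0 s2 = δ y`.
After `n = l-k` steps `R` (`Dat.R`: `b' = pr s3R b`, `a' = a + pr s1 b`): `ip b' s3 = y · ip b s2`,
so `|ip b_n s2| = |δ| |y|^{n+1}`, `ip b_n b_n = ip b_0 b_0 + Σ_{i<n} δ² y^{2i+2} ≥ δ² y^{2n}` and
`ip b' s1 = ip b s1 + x' ip b s2` (`x'` the new `x`-coordinate, a member of the run, so bounded by
`κ`: use `THyp` for the members in between), so `|ip b_n s1| ≤ C |y|^n`.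
The data of `fV(rt q_k)` are `(0, b0')` with the same mirrors,
`ip b_n b0' = (1/δ)(gX ip b_n s1 + gB ip b_n s2)`, `|..| ≤ C |y|^n` hence with `N := C'|y|^{-n}`:
`ip (N b_n ± b0') (N b_n ± b0') ≥ N² ip b_n b_n - 2N |ip b_n b0'| + (1+δ²-t_k²) ≥ 0`, and
`ip b_n (N b_n ± b0') ≥ 0`, so `N b_n ± b0' ∈ Cn` (up to orientation, `Cn_of_ip`), `N a_n ∈ Cn`.
By `dom` (for the word up to the last `R`) `|V t_k| ≤ N |V t_l|`.  (If `|y|` is large use that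
`|y| ≤ C` when `k+1 ≤ l`, since `|t_k|,|t_{k+1}| ≤ κ` and `(y - t_k t_{k+1})² ≤ ...` bounds `y`.) -/
def SRGT : Prop := ∀ δ κ κ2 : ℝ, δ ≠ 0 → 1 ≤ κ → κ < cc δ → 1 < κ2 → ∃ C : ℝ, 0 < C ∧
  ∀ d : ℕ → ℕ, (∀ k, 1 ≤ d k) → ∀ j k l, k ≤ l → ∀ v ∈ U, κ2 ≤ |Yf δ d j v| →
    |Tf δ d j k v| ≤ κ → |Tf δ d j l v| ≤ κ →
    |dt (Tf δ d j k) v| * κ2 ^ (l - k) ≤ C * |dt (Tf δ d j l) v|

/-- **Growth of later level functions relative to an earlier one** (far apart).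
Proof: let `(a, b)` be the data of the push forward of `fV` at stage `m` (`stage`),
`δ V y_m = ∓((1-y²) ip b s1 - gA ip b s2)` (field `uy` of `Dat`), and
`gA² = δ² + (1-x²)(1-y²)`, where `|z_m|, |x_m|` are bounded (see below), so
`|V y_m| ≤ C (|ip b s1| + |ip b s2|)`.  After one step `R` (`Dat.R`):
`ip a' a' ≥ ip (pr s1 b) (pr s1 b) ≥ (ip b s1)²`, `ip b' b' ≥ (ip b s2)²`.  Apply `growR` with
`k = d m - 1`, `(α, β) = (|ip b s1|, |ip b s2|)`, then `Mir.S`/`Dat.S`, then `grow` with the digits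
from `m+1` on: the norms at stage `m+1` are `≥ (β, α + (d m - 1) β)`; the recursion `gr` gives at
stage `m+3` both norms `≥ α+β` and then a factor `2` every two stages.  Conclude with `LBx` at level
`M` exactly as in `tLB` (`M ≥ m+4`, i.e. the last stage `M-1 ≥ m+3`).
Bound for `x_m, z_m`: `|z_m| = |y_{m-1}|`.  By the hypothesis at level `M` and the escape argument
(`SAl` below, with `κ`) `|y_{m-1}| ≤ κ` or (`|y_{m-2}|, |y_m| ≤ κ`, and then, the run being bounded by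
`κ`, `|y_{m-1}| ≤ κ² + √(1+δ²+…)`: `(y - t_0 t_1)² = δ² + (1-t_0²)(1-t_1²)` with
`|t_0|,|t_1| ≤ κ`); then `(x - yz)² = δ² + (1-y²)(1-z²)`. -/
def SRGY : Prop := ∀ δ κ : ℝ, δ ≠ 0 → 1 ≤ κ → κ < cc δ → ∃ C : ℝ, 0 < C ∧
  ∀ d : ℕ → ℕ, (∀ k, 1 ≤ d k) → ∀ m M, 1 ≤ m → m + 4 ≤ M → ∀ v ∈ U, |Yf δ d m v| ≤ κ →
    |Yf δ d M v| ≤ κ → |dt (Yf δ d m) v| * 2 ^ ((M - m) / 2) ≤ C * |dt (Yf δ d M) v|

/-- **Escape with threshold `κ`**: as `W816.Stu.bddL` / `W308.Stu.enter` with `1` replaced by `κ`: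
`Bad p := κ < |z| ∧ κ < |y| ∧ (2|z|-1)|y| ≤ |x|` is preserved by `stepT b`, `b ≥ 1`, and
`|z| ≤ κ < |y|`, `κ < |t_b|` implies `Bad (stepT b p)`. -/
def SAl : Prop := ∀ (κ : ℝ), 1 ≤ κ → ∀ d : ℕ → ℕ, (∀ k, 1 ≤ d k) → ∀ p : P3, |p.z| ≤ κ →
  ∀ M, |(orb d p M).y| ≤ κ → ∀ j < M, |(orb d p j).y| ≤ κ ∨ |(orb d p (j + 1)).y| ≤ κ

/-- **Members of a run** (from `THyp`, `W216.Stu.hyp`, applied to `stepR^[k1] p`): the members between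
two good ones are good, and if `|y| ≤ κ` the good ones form a window of bounded length (choose
`y0 ∈ (κ, cc δ)` in `THyp`). -/
def SWin : Prop := ∀ δ κ : ℝ, δ ≠ 0 → 1 ≤ κ → κ < cc δ → ∃ K : ℕ, ∀ (p : P3) (k1 k2 : ℕ),
  OnS δ p → 1 < |p.y| → k1 ≤ k2 → |(stepR^[k1] p).z| ≤ κ → |(stepR^[k2] p).z| ≤ κ →
    (∀ i, k1 ≤ i → i ≤ k2 → |(stepR^[i] p).z| ≤ κ) ∧ (|p.y| ≤ κ → k2 ≤ k1 + K)

/-- the point lies in the region from which orbits escape (an open condition) -/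
def Op (p : P3) : Prop := 1 < |p.z| ∧ 1 < |p.y| ∧ |p.z| < |p.x|

/-- **The stable set.**
(1) `Op` is preserved by `stepT b`, `b ≥ 1` and `|y_{m+1}| ≥ |x_m|`, `|x_{m+1}| ≥ (2|y_m|-1)|y_{m+1}|`
so `|y_m| → ∞` exponentially; an orbit which meets `Op` is unbounded.
(2) if `|z_n| ≤ 1` and no later point is in `Op` then the orbit is alive from `n` on
(`W308.Stu.enter` gives `Bad`, and `Bad` implies `Op`), and an alive orbit is bounded (`bddL`: for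
every `M` `|y_M| ≤ 1` or `|y_{M+1}| ≤ 1`).
(3) if no point of the orbit is in `Op` then `|z_n| < 1` for some `n`.  Proof: suppose all
`|z_n| ≥ 1`, i.e. `|z|, |y_0|, |y_1|, ... ≥ 1`.
 (i) Suppose `|x_n| ≥ |z_n|` for some `n` (property P).  By `grow'` (W308) `|t_1| ≤ |t_j|` and
 `(2|y|-1)|t_j| ≤ |t_{j+1}|` for `j ≥ 1`; hence `|y_{n+1}| ≥ |x_n|`,
 `|x_{n+1}| ≥ (2|y_n|-1)|y_{n+1}| ≥ max(|y_n|, |y_{n+1}|)`, so P holds at `n+1` too.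
 If `|x_n| > 1` then `|y_{n+1}| > 1`, `|x_{n+1}| > 1`, `|y_{n+2}| > 1` and the point at stage `n+2` is
 in `Op`.  If `|x_n| = 1` then `|z_n| = 1`; if `|y_n| > 1` then
 `|x_{n+1}| = |t_{d+1}| ≥ (2|y_n|-1)|t_d| > 1`; if `|y_n| = 1` then `δ² = 2 - 2xyz`, so `xyz = -1`,
 `t_2 = 2yx - z = -3z`, `|x_{n+1}| = |t_{d+1}| ≥ |t_2| = 3`.  So `|x_{n+1}| > 1` with P at `n+1`.
 (ii) Otherwise `|x_n| < |z_n|` for all `n`.  If `|t_k| ≤ |t_{k+1}|` for some `k < d_n` then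
 (`grow'`) `|x_{n+1}| = |t_{d+1}| ≥ (2|y|-1)|t_d| ≥ |y_n| = |z_{n+1}|`, impossible; so `|t_k|` is
 strictly decreasing for `k ≤ d_n` and `|t_k| ≥ |t_{d_n}| = |y_{n+1}| ≥ 1`.  In particular
 `1 ≤ |y_{n+1}| ≤ |x_n| < |z_n|`.  If `xyz ≤ 0` then `|t_2| = 2|y||t_1| + |t_0| > |t_1|`, and again
 `|t_{d+1}| ≥ |y_n|` (directly if `d = 1`), impossible; so `xyz > 0`.
 With `a = |z_n|, b = |y_n|, D = δ² + (a²-1)(b²-1)`: `|x| = ab ± √D`, and `|x| < a` excludes `+`.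
 `|x| = ab - √D ≥ 1` gives `(a - b)² ≥ δ²`.
 If `a ≥ b + |δ|`: `D - a²(b-1)² = δ² + (b-1)(2a² - b - 1) ≥ δ²`, so
 `a - |x| = √D - a(b-1) ≥ δ²/(√D + ab) ≥ c > 0`, `c` depending only on the bound
 `|z_n|, |y_n| ≤ max(|z_0|, |y_0|)`.  So `|y_{n+1}| ≤ |z_n| - c`.
 If `b ≥ a + |δ|`: `|y_{n+1}| ≤ |z_n|` and the next stage (`a' = b`, `b' = |y_{n+1}| ≤ a`) is in the
 first case.  So `|z_n| + |y_n|` is nonincreasing and decreases by `c` at least every second stage, a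
 contradiction.  (By (i), (ii): no `Op` implies some `|z_n| < 1`; the first point where
 `¬ (1 ≤ |z_n|)` is what is claimed.) -/
def SEsc : Prop := ∀ δ : ℝ, δ ≠ 0 → ∀ d : ℕ → ℕ, (∀ k, 1 ≤ d k) → ∀ p : P3, OnS δ p →
  ((∃ m, Op (orb d p m)) → ∀ C : ℝ, ∃ m, C < |(orb d p m).y|) ∧
  ((∀ m, ¬ Op (orb d p m)) →
    (∃ n, |(orb d p n).z| < 1) ∧
    (∀ n, |(orb d p n).z| ≤ 1 → Alive (shd d n) (orb d p n)) ∧
    (∃ C : ℝ, ∀ m, |(orb d p m).z| ≤ C ∧ |(orb d p m).y| ≤ C ∧ |(orb d p m).x| ≤ C))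

end Pool.Agent.H812.Tm
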