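import Mathlib
import Pool.Agent.H812.Tm.Spec1

/-!
# Spec 2: Laguerre inequality on the ellipses `z = const`, calculus of slopes, the `C¹` field
-/

set_option autoImplicit false

open Real Filter Topology
open scoped ContDiff

namespace Pool.Agent.H812.Tm

open Pool.Agent.W811.Stu

/-! ### Laguerre inequality -/

/-- complex trace maps -/
def cR (p : ℂ × ℂ × ℂ) : ℂ × ℂ × ℂ := (p.2.2, p.2.1, 2 * p.2.2 * p.2.1 - p.1)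
def cS (p : ℂ × ℂ × ℂ) : ℂ × ℂ × ℂ := (p.2.1, p.1, p.2.2)
def corb (d : ℕ → ℕ) (p : ℂ × ℂ × ℂ) : ℕ → ℂ × ℂ × ℂ
  | 0 => p
  | m + 1 => cS (cR^[d m] (corb d p m))

/-- the complexified ellipse over `z = cos φ`; for `u = exp (i ϑ)` this is `ze δ (cos φ, ϑ)` -/
noncomputable def cze (δ φ : ℝ) (u : ℂ) : ℂ × ℂ × ℂ :=
  ((cos φ : ℝ), (Bf δ (cos φ) : ℂ) * (u + u⁻¹) / 2,
    (Bf δ (cos φ) : ℂ) * (Complex.exp (-(φ * Complex.I)) * u + Complex.exp (φ * Complex.I) * u⁻¹) / 2)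

/-- **No zeros off the unit circle.** Proof: let `P = diag(e^{iφ}, e^{-iφ})`,
`Q = [[B/u, β], [β, B u]]` with `β² = B² - 1` (`β = |δ|/sin φ`), both of determinant one,
`½ tr P = cos φ`, `½ tr Q = B(u+u⁻¹)/2`, `½ tr (P Q) = B(e^{iφ}/u + e^{-iφ}u)/2`.  By the trace
identities (`tr(AB²) = tr(AB) tr B - tr A` for `det B = 1`), with `M_{-1} = P`, `M_0 = Q`,
`M_{m+1} = M_{m-1} M_m^{d m}`, the point `corb d (cze δ φ u) m` is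
`(½ tr M_{m-1}, ½ tr M_m, ½ tr (M_{m-1} M_m))`.
Let `H(v) = |v_2|² - |v_1|²`.  Then `H(Pv) = H(v)`, and for `‖u‖ > 1`, `v ≠ 0`: `H(Qv) > H(v)`:
`Q = diag(s, 1/s) [[B, β],[β, B]] diag(s, 1/s)`, `s² = 1/u`, the middle matrix preserves `H` and
`H(diag(s,1/s) v) - H(v) = (|s|⁻² - 1)|v_2|² + (1 - |s|²)|v_1|² > 0` (or a direct computation).  So
`H(M_m v) > H(v)` for all `v ≠ 0`, `m ≥ 0` (`M_m` is a product of `P`'s and at least one `Q`).  If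
`tr M_m = 0` then `M_m² = -1` (Cayley–Hamilton), so `H(M_m (M_m v)) = H(-v) = H(v)`, a contradiction.
For `0 < ‖u‖ < 1` the same with `-H`. -/
def SLagA1 : Prop := ∀ (δ φ : ℝ), 0 < sin φ → ∀ d : ℕ → ℕ, (∀ k, 1 ≤ d k) → ∀ (m : ℕ) (u : ℂ),
  u ≠ 0 → ‖u‖ ≠ 1 → (corb d (cze δ φ u) m).2.1 ≠ 0

/-- **Laurent polynomials.** Proof: by induction over the moves, for each of the three components of
`cR^[k] (corb d (cze δ φ u) m)` there are `n` (the number of `Q`'s in the word, `n ≥ 1` except for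
the first component at the very beginning) and `H` with component `= u^{-n} H(u)`,
`natDegree H = 2n`, leading coefficient `B^n e^{-ipφ}/2`, constant coefficient `B^n e^{ipφ}/2`
(`p` the number of `P`'s; for the pure power of `P` — the first component at the very beginning —
it is the constant `cos φ`).  The leading coefficient of the new component `2xy - z` is
`2·(B^{n}e^{-ipφ}/2)(B^{n'}e^{-ip'φ}/2)`, `z` has smaller degree (`n_z < n_x + n_y`).  It is enough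
to carry that the top and bottom coefficients are nonzero and that the degrees satisfy
`n_x = n_z + n_y`, `n_y ≥ 1`. -/
def SLagA2 : Prop := ∀ (δ φ : ℝ), 0 < sin φ → ∀ d : ℕ → ℕ, (∀ k, 1 ≤ d k) → ∀ m : ℕ,
  ∃ (n : ℕ) (H : Polynomial ℂ), 1 ≤ n ∧ H.natDegree = 2 * n ∧ H.coeff 0 ≠ 0 ∧
    ∀ u : ℂ, u ≠ 0 → (corb d (cze δ φ u) m).2.1 * u ^ n = H.eval u

/-- **Level sets have the maximal number of points on the circle.** Let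
`f ϑ = e^{-inϑ} H(e^{iϑ})` be real for real `ϑ`, `H` of degree `2n`, `H(0) ≠ 0`, all zeros of `H` on
the unit circle, and suppose `f' ≠ 0` where `|f| < c`.  Then all zeros of `H - s X^n`, `|s| < c`, are
on the unit circle.  Proof: zeros of `H` on the circle are simple (`f = 0` implies `f' ≠ 0`), so `f`
has exactly `2n` zeros in `[0, 2π)`.  Let `ϑ_0` be a zero, `J` the component of `{|f| < c}`
containing it: an open interval, bounded (otherwise `f` would be strictly monotone and periodic),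
`f` is strictly monotone on it and tends to `∓c`, `±c` at its ends, so there is a unique
`ϑ_s ∈ J` with `f ϑ_s = s`.  Zeros in different components are distinct and `J` has length `≤ 2π`
(else periodicity contradicts monotonicity), which gives an injection from the zeros of `H` into the
zeros of `H - s X^n` on the circle; as the degree is `2n` these are all zeros. -/
def SLagB1 : Prop := ∀ (n : ℕ) (H : Polynomial ℂ) (f : ℝ → ℝ) (c : ℝ), 1 ≤ n →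
  H.natDegree = 2 * n → H.coeff 0 ≠ 0 →
  (∀ ϑ : ℝ, (f ϑ : ℂ) * Complex.exp (ϑ * Complex.I) ^ n = H.eval (Complex.exp (ϑ * Complex.I))) →
  (∀ u : ℂ, H.eval u = 0 → ‖u‖ = 1) → 0 < c → (∀ ϑ, |f ϑ| < c → deriv f ϑ ≠ 0) →
  ∀ s : ℝ, |s| < c → ∀ u : ℂ, (H - Polynomial.C (s : ℂ) * Polynomial.X ^ n).eval u = 0 → ‖u‖ = 1

/-- **Laguerre inequality for trigonometric polynomials with real zeros.** Proof: with
`H = A ∏ (X - e^{iα_j})` (`2n` factors), `e^{-iϑ/2}(e^{iϑ} - e^{iα}) = 2i e^{iα/2} sin((ϑ-α)/2)`, so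
`f ϑ = A' ∏ sin((ϑ-α_j)/2)` with a constant `A'` which is real.  For a product,
`(gh)(gh)'' - ((gh)')² = g²(h h'' - h'²) + h²(g g'' - g'²)`, and for `g = sin((ϑ-α)/2)`
`g g'' - g'² = -1/4`. -/
def SLagB2 : Prop := ∀ (n : ℕ) (H : Polynomial ℂ) (f : ℝ → ℝ), 1 ≤ n →
  H.natDegree = 2 * n → H.coeff 0 ≠ 0 →
  (∀ ϑ : ℝ, (f ϑ : ℂ) * Complex.exp (ϑ * Complex.I) ^ n = H.eval (Complex.exp (ϑ * Complex.I))) →
  (∀ u : ℂ, H.eval u = 0 → ‖u‖ = 1) →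
  ContDiff ℝ ∞ f ∧ ∀ ϑ, f ϑ * deriv (deriv f) ϑ ≤ (deriv f ϑ) ^ 2

/-- **Laguerre inequality for level functions.**  Follows from `SLagA1, SLagA2, SLagB1, SLagB2`,
`SDt` and `cmpY` (`Vy ≠ 0` where `|y_m| < cc δ`): for `v = (cos φ, ·)`, `f ϑ = Yf δ d m (cos φ, ϑ)`;
for `|s| < cc δ` apply `SLagB2` to `H - s X^n`, `f - s`, and let `s → ± cc δ`. -/
def SLag : Prop := ∀ δ : ℝ, δ ≠ 0 → ∀ d : ℕ → ℕ, (∀ k, 1 ≤ d k) → ∀ m, 2 ≤ m → ∀ v ∈ U,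
  |Yf δ d m v| < cc δ →
  |dt (dt (Yf δ d m)) v| * (cc δ - |Yf δ d m v|) ≤ (dt (Yf δ d m) v) ^ 2

/-! ### calculus of slopes -/

/-- bounds for the derivatives of a level function at a point -/
structure PB (L : ℝ) (f : ℝ × ℝ → ℝ) (v : ℝ × ℝ) : Prop where
  ne : dt f v ≠ 0
  zz : |dz f v| ≤ L * |dt f v|
  tt : |dt (dt f) v| ≤ L * (dt f v) ^ 2

/-- **Difference of the slopes of an adjacent pair.** Put `J = jac f g`, so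
`h := sl g - sl f = J/(f_ϑ g_ϑ)`, `J²(1-z²) = δ² + (1-f²)(1-g²) ∈ [cc² - κ², C]` where
`|f|, |g| ≤ κ`.  Differentiating, `2 J J_ϑ (1-z²) = -2 f f_ϑ (1-g²) - 2 g g_ϑ (1-f²)`, so
`|J_ϑ| ≤ C(|f_ϑ| + |g_ϑ|)` and `h_ϑ = J_ϑ/(f_ϑ g_ϑ) - h (f_ϑϑ/f_ϑ + g_ϑϑ/g_ϑ)`.
For `h_z`: `|J_z| ≤ C(1 + |f_ϑ| + |g_ϑ|)` similarly, and from `f_z = -(sl f) f_ϑ` (near `v`)
`f_ϑz = -(sl f)_ϑ f_ϑ - (sl f) f_ϑϑ`, so `|f_ϑz| ≤ L|f_ϑ| + L²f_ϑ²`. -/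
def SPair : Prop := ∀ δ κ r L : ℝ, δ ≠ 0 → 1 ≤ κ → κ < cc δ → r < 1 → 0 ≤ L → ∃ C : ℝ, 0 < C ∧
  ∀ f g : ℝ × ℝ → ℝ, ContDiffOn ℝ ∞ f U → ContDiffOn ℝ ∞ g U →
  (∀ v ∈ U, (jac f g v) ^ 2 * (1 - v.1 ^ 2) = δ ^ 2 + (1 - f v ^ 2) * (1 - g v ^ 2)) →
  ∀ v : ℝ × ℝ, |v.1| ≤ r → |f v| ≤ κ → |g v| ≤ κ → PB L f v → PB L g v →
    |sl g v - sl f v| * (|dt f v| * |dt g v|) ≤ C ∧
    |dt (fun w => sl g w - sl f w) v| ≤ C * (1 / |dt f v| + 1 / |dt g v|) ∧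
    ∀ c0 : ℝ, 0 < c0 → c0 ≤ |dt f v| → c0 ≤ |dt g v| → |dt (sl f) v| ≤ L → |dt (sl g) v| ≤ L →
      |dz (fun w => sl g w - sl f w) v| ≤ C * (1 + 1 / c0) * (1 / |dt f v| + 1 / |dt g v|)

/-- **The slopes have bounded `ϑ`-derivative.**  From `SPair` (second conclusion), `SLag`, `SSlope`,
`SLow`, `SRun`, `SBr`, `SAl`, `SWin`, `SDt`, `SCoord`, by strong induction over the level, the digits `d` being
fixed: levels `2, 3` by compactness (periodicity in `ϑ`; `dt ≠ 0` on the compact set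
`{|z| ≤ r, 0 ≤ ϑ ≤ 2π, |Yf| ≤ κ}`).  Let `j ≥ 4`, `|Y_j v| ≤ κ`.  If `|Y_{j-1} v| ≤ κ`, then near `v`
`sl Y_j = sl Y_{j-1} + (sl Y_j - sl Y_{j-1})`, the second term has derivative
`≤ C(1/|∂Y_{j-1}| + 1/|∂Y_j|) ≤ C' 2^{-j/2}`.  If `|Y_{j-1} v| > κ`, then by `SAl`
`|Y_{j-2} v| ≤ κ`, by `SWin` all `|T_{j-1,k} v| ≤ κ`, `0 ≤ k ≤ d (j-1)`, and
`sl Y_j = sl Y_{j-2} + Σ_k (sl T_{j-1,k+1} - sl T_{j-1,k})`, with derivative of the sum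
`≤ Σ_k C/(κ^k 2^{j/2})` by `SRun`.  So the bounds `C_j` satisfy
`C_j ≤ max(C_{j-1}, C_{j-2}) + C' 2^{-j/2}` and stay bounded.
For `T_{j,k}`: if `|Y_j v| ≤ κ` use the adjacent pair `(Y_j, T_{j,k})`, otherwise the run from
`T_{j,0} = Y_{j-1}` as before.  (`PB` for the functions from `SLag, SSlope`;
`T_{j,k} = Yf (update d j k) (j+1)` for `k ≥ 1`: `Tf_eq`, `Tf_zero`, `update_ge`; note that for
`SAl` applied to `T_{j,k}` one uses the updated digits.) -/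
def SSlT : Prop := ∀ (δ κ r : ℝ) (d : ℕ → ℕ), δ ≠ 0 → 1 < κ → κ < cc δ → r < 1 →
  (∀ k, 1 ≤ d k) → ∃ C : ℝ, 0 < C ∧
    (∀ j, 2 ≤ j → ∀ v : ℝ × ℝ, |v.1| ≤ r → |Yf δ d j v| ≤ κ → |dt (sl (Yf δ d j)) v| ≤ C) ∧
    (∀ j k, 3 ≤ j → k ≤ d j → ∀ v : ℝ × ℝ, |v.1| ≤ r → |Tf δ d j k v| ≤ κ →
      |dt (sl (Tf δ d j k)) v| ≤ C)

/-- cutoff functions -/
structure Cut (κ : ℝ) (θ : ℝ → ℝ) : Prop where
  smooth : ContDiff ℝ ∞ θ
  one : ∀ x, |x| ≤ 1 → θ x = 1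
  zero : ∀ x, κ ≤ |x| → θ x = 0
  nonneg : ∀ x, 0 ≤ θ x
  le_one : ∀ x, θ x ≤ 1

/-- the terms of the telescoping sum -/
noncomputable def Hf (θ : ℝ → ℝ) (δ : ℝ) (d : ℕ → ℕ) (j : ℕ) (v : ℝ × ℝ) : ℝ :=
  θ (Yf δ d j v) * θ (Yf δ d (j + 1) v) * (sl (Yf δ d (j + 1)) v - sl (Yf δ d j) v) +
  (1 - θ (Yf δ d j v)) * ∑ k ∈ Finset.range (d j),
    θ (Tf δ d j k v) * θ (Tf δ d j (k + 1) v) * (sl (Tf δ d j (k + 1)) v - sl (Tf δ d j k) v)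

/-- the slope field -/
noncomputable def sg (θ : ℝ → ℝ) (δ : ℝ) (d : ℕ → ℕ) (v : ℝ × ℝ) : ℝ :=
  θ (Yf δ d 3 v) * sl (Yf δ d 3) v + (1 - θ (Yf δ d 3 v)) * (θ (Yf δ d 2 v) * sl (Yf δ d 2) v) +
  ∑' j, Hf θ δ d (j + 3) v

/-- **Bounds for the terms.**  `θ(f) · sl f` and `θ(f)θ(g)(sl g - sl f)` are `C¹` on `U`
(where `|f| < cc δ` one has `dt f ≠ 0`; where `|f| > κ` the function vanishes).
Let `|v.1| ≤ r`.  First summand: vanishes near `v` unless `|Y_j|, |Y_{j+1}| ≤ κ`; then its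
derivative is bounded by `|θ'| |DY_j| |h| + |θ'| |DY_{j+1}| |h| + |Dh|` with
`|DY| ≤ C |∂_ϑ Y|`, `|h| ≤ C/(|∂Y_j||∂Y_{j+1}|)`, `|Dh| ≤ C (1/|∂Y_j| + 1/|∂Y_{j+1}|)` (`SPair`, `SSlT`),
and `|∂Y_j| ≥ c 2^{j/2}` (`SLow`).  Second summand: vanishes near `v` unless `|Y_j v| ≥ 1` (and is a
limit of points with `|Y_j| > 1`; treat `|Y_j v| > 1` and extend the bounds by continuity).
If `1 < |Y_j v| < κ`: at most `K+1` values of `k` contribute (`SWin` with `p = orb d (ze δ v) j`), each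
`≤ C 2^{-j/2}`, where the derivative of `θ(Y_j)` is estimated by `|D Y_j| ≤ C|∂_ϑ Y_j|
≤ C' |∂_ϑ T_{j,k+1}|` (`SRev`; `|Y_j v| ≤ κ`, so `SSlope` applies to `Y_j`).
If `|Y_j v| ≥ κ` then `θ(Y_j) = 0` and its derivative vanishes, the `k`-th term and its derivative
are `≤ C (1/|∂T_k| + 1/|∂T_{k+1}|) ≤ C'/(κ^k 2^{j/2})` by `SRun` (`SLow` for `k = 0`). -/
def STerm : Prop := ∀ (δ κ r : ℝ) (d : ℕ → ℕ) (θ : ℝ → ℝ), δ ≠ 0 → 1 < κ → κ < cc δ → r < 1 →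
  (∀ k, 1 ≤ d k) → Cut κ θ → ∃ C : ℝ, 0 < C ∧ ∀ j, 3 ≤ j → ContDiffOn ℝ 1 (Hf θ δ d j) U ∧
    ∀ v : ℝ × ℝ, |v.1| ≤ r → |Hf θ δ d j v| * 2 ^ (j / 2) ≤ C ∧
      ‖fderiv ℝ (Hf θ δ d j) v‖ * 2 ^ (j / 2) ≤ C

/-- **The slope field is `C¹`** and is close to `sl (Y_M)` where `|Y_M| ≤ 1`.  Proof: the sum of the
terms and of their derivatives converges locally uniformly (`STerm`;
`hasFDerivAt_tsum_of_isPreconnected` on `{|z| < r}` and `continuousOn_tsum`).  Let `|Y_M v| ≤ 1`,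
`M ≥ 3`.  By `SAl` with `κ := 1`, `|Y_j| ≤ 1 ∨ |Y_{j+1}| ≤ 1` for `j < M`; if `|Y_j v| > 1`, `j < M`,
then `|Y_{j-1}|, |Y_{j+1}| ≤ 1` and by `THyp` (with `κ := 1`) `|T_{j,k}| ≤ 1` for `k ≤ d j`, so the second
summand of `Hf j` is `(1 - θ(Y_j)) (sl Y_{j+1} - sl Y_{j-1})`.  By induction for `3 ≤ J ≤ M`
`θ(Y_3) sl Y_3 + (1-θ(Y_3)) θ(Y_2) sl Y_2 + Σ_{3 ≤ j < J} Hf j
  = θ(Y_J) sl Y_J + (1 - θ(Y_J)) θ(Y_{J-1}) sl Y_{J-1}`; for `J = M` this is `sl Y_M`, and the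
remainder is `≤ Σ_{j ≥ M} C 2^{-j/2}`. -/
def SField : Prop := ∀ (δ κ : ℝ) (d : ℕ → ℕ) (θ : ℝ → ℝ), δ ≠ 0 → 1 < κ → κ < cc δ →
  (∀ k, 1 ≤ d k) → Cut κ θ →
  ContDiffOn ℝ 1 (sg θ δ d) U ∧ (∀ z ϑ, sg θ δ d (z, ϑ + 2 * π) = sg θ δ d (z, ϑ)) ∧
  ∀ r : ℝ, r < 1 → ∃ C : ℝ, 0 < C ∧ ∀ v : ℝ × ℝ, |v.1| ≤ r → ∀ M, 3 ≤ M → |Yf δ d M v| ≤ 1 →
    |sg θ δ d v - sl (Yf δ d M) v| * 2 ^ (M / 2) ≤ C

/-! ### leaves -/

/-- **Leaves stay in the stable set.**  From `SField`, `SSlope`, `SAl`, `SDt`.  Proof: fix `r < 1`.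
(1) The field `sg` is `C¹`, `2π`-periodic in `ϑ`, hence on `|z| ≤ r` bounded and uniformly Lipschitz
in `ϑ`; by Picard–Lindelöf (time dependent version, large balls are allowed since the field is
bounded) the equation `ϑ' = sg (z, ϑ)` has a solution through `v0` on `[-r, r]`; by uniqueness the
solutions for different `r` fit together to a solution on `(-1, 1)`.
(2) Let `|Y_M v0| ≤ 1`, `M ≥ 3` (this holds for infinitely many `M`).  The field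
`σ_M = θ(Y_M) sl(Y_M)` is `C¹` (`dt Y_M ≠ 0` where `|Y_M| < cc δ`), periodic, so there is a solution
`ϑ_M` of `ϑ' = σ_M (z, ϑ)` on `[-r, r]` through `v0`.  Along it `w(z) = Y_M(z, ϑ_M z)` satisfies
`w' = ∂_z Y_M · (1 - θ(w))` with continuous `∂_z Y_M`, and the constant `w(z_0)` is also a solution
(`θ = 1` there), so by uniqueness `w` is constant, `|w| ≤ 1`.
(3) So along `ϑ_M` `|ϑ_M' - sg (z, ϑ_M)| ≤ C 2^{-M/2}` (`SField`), and Gronwall gives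
`ϑ_M → ϑ` uniformly on `[-r, r]` as `M → ∞` (with `|Y_M v0| ≤ 1`).
(4) `|Y_M (z, ϑ_M z)| ≤ 1` implies `|Y_j| ≤ 1 ∨ |Y_{j+1}| ≤ 1` at `(z, ϑ_M z)` for `j < M` (`SAl`,
`κ := 1`); this is a closed condition, so it holds at `(z, ϑ z)`. -/
def SLeaf : Prop := ∀ (δ κ : ℝ) (d : ℕ → ℕ) (θ : ℝ → ℝ), δ ≠ 0 → 1 < κ → κ < cc δ →
  (∀ k, 1 ≤ d k) → Cut κ θ → ∀ v0 ∈ U, Alive d (ze δ v0) → ∃ ϑ : ℝ → ℝ, ϑ v0.1 = v0.2 ∧
    ∀ z : ℝ, |z| < 1 → HasDerivAt ϑ (sg θ δ d (z, ϑ z)) z ∧ Alive d (ze δ (z, ϑ z))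

end Pool.Agent.H812.Tm
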