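import Mathlib

/-!
# Spec 3: general facts: planar ODEs, gluing of line fields on a surface, foliation charts,
partition of a laminated set into curves, superposition operators, a tridiagonal system
-/

set_option autoImplicit false

open Filter Topology Set
open scoped ContDiff

namespace Pool.Agent.H812.Tm

/-- `X` is `C¹` along the set `S` at `p` -/
def C1At {F : Type*} [NormedAddCommGroup F] [NormedSpace ℝ F] (S : Set (ℝ × ℝ × ℝ))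
    (X : ℝ × ℝ × ℝ → F) (p : ℝ × ℝ × ℝ) : Prop :=
  ∃ g : ℝ × ℝ × ℝ → F, ContDiffAt ℝ 1 g p ∧ ∀ᶠ q in 𝓝[S] p, X q = g q

/-- **Scalar ODE with `C¹` right hand side**: `C¹` dependence on the initial value.
Proof: `f` is bounded and globally Lipschitz (compact support), so Picard–Lindelöf gives global
solutions `b(·,t)`, Lipschitz dependence by Gronwall.  For `t ≠ t'`,
`Δ(a) = b(a,t') - b(a,t)` satisfies `Δ' = m(a) Δ`, `m(a) = ∫₀¹ f_u(a, b(a,t) + s Δ(a)) ds`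
(continuous), so `Δ(a) = (t'-t) exp(∫₀ᵃ m)`; as `t' → t`, `m → f_u(a, b(a,t))` uniformly for bounded
`a`.  So `∂_t b = exp(∫₀ᵃ f_u(s, b(s,t)) ds) > 0`, which is continuous in `(a,t)`, and
`∂_a b = f(a, b)` is continuous too. -/
def GOde : Prop := ∀ f : ℝ × ℝ → ℝ, ContDiff ℝ 1 f → HasCompactSupport f →
  ∃ b : ℝ × ℝ → ℝ, ContDiff ℝ 1 b ∧ (∀ t, b (0, t) = t) ∧
    (∀ a t, HasDerivAt (fun s => b (s, t)) (f (a, b (a, t))) a) ∧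
    (∀ a t, 0 < fderiv ℝ b (a, t) (0, 1))

/-- **Gluing line fields.** On the surface `S = {F = 0}` (regular), let `E i` be nowhere vanishing
tangent fields on the open sets `Ω i`, which are parallel on the closed set `W ⊆ S ∩ ⋃ Ω i`.  Then
near `W` there is a `C¹` field of linear maps `Q p` with one dimensional tangent range, which
contains `E i p` for `p ∈ W`.
Proof: smooth partition of unity `ρ i` on `ℝ³` subordinate to `Ω i` with `Σ ρ i = 1` on `W`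
(`SmoothPartitionOfUnity.exists_isSubordinate`; the model is `𝓘(ℝ, ℝ × ℝ × ℝ)`), locally finite.
With the Euclidean scalar product `⟨a,b⟩ = a.1 b.1 + a.2.1 b.2.1 + a.2.2 b.2.2` let
`M p v = Σ ρ i p ⟨E i p, v⟩ / ⟨E i p, E i p⟩ • E i p`, a symmetric map with range in the tangent plane
`T_p = {v | DF_p v = 0}`, `τ = tr M = Σ ρ i`, `q = tr M²`; on `W`: `M² = M`, `τ = q = 1` (all
`E i p` are parallel).  Near `W` `2q - τ² > 0`; put `μ = (τ - √(2q - τ²))/2` and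
`Q p = M² - μ M`.  On `W`, `Q = M`, the projection onto the line.  `Q` is `C¹` along `S`.  On `T_p`
(dimension two) `M` has eigenvalues `μ` and `μ' = τ - μ ≠ μ` (Cayley–Hamilton on `T_p`:
`M² - τ M + (τ² - q)/2 = 0`), so `(M - μ)` restricted to `T_p` is singular, its image is one
dimensional, and `Q e = (M - μ)(M e)`.  `Q p ≠ 0` near `W` by continuity (along `S`).  The open set
`V` is obtained from `S ∩ V = {p ∈ S near W: ...}`. -/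
def GGlue : Prop := ∀ (F : ℝ × ℝ × ℝ → ℝ), ContDiff ℝ ∞ F → (∀ p, F p = 0 → fderiv ℝ F p ≠ 0) →
  ∀ (W : Set (ℝ × ℝ × ℝ)), IsClosed W → (∀ p ∈ W, F p = 0) →
  ∀ (Ω : ℕ → Set (ℝ × ℝ × ℝ)) (E : ℕ → ℝ × ℝ × ℝ → ℝ × ℝ × ℝ), (∀ i, IsOpen (Ω i)) →
    W ⊆ ⋃ i, Ω i →
    (∀ i, ∀ p ∈ Ω i, F p = 0 → C1At {q | F q = 0} (E i) p ∧ E i p ≠ 0 ∧ fderiv ℝ F p (E i p) = 0) →
    (∀ i j, ∀ p ∈ W, p ∈ Ω i → p ∈ Ω j → ∃ c : ℝ, c ≠ 0 ∧ E i p = c • E j p) →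
  ∃ (V : Set (ℝ × ℝ × ℝ)) (Q : ℝ × ℝ × ℝ → (ℝ × ℝ × ℝ →L[ℝ] ℝ × ℝ × ℝ)), IsOpen V ∧ W ⊆ V ∧
    (∀ p ∈ V, F p = 0 → C1At {q | F q = 0} Q p ∧ Q p ≠ 0 ∧ (∀ e, fderiv ℝ F p (Q p e) = 0) ∧
      ∀ e e', Q p e ≠ 0 → ∃ c : ℝ, Q p e' = c • Q p e) ∧
    (∀ i, ∀ p ∈ W, p ∈ Ω i → ∃ e, Q p e = E i p)

/-- **Flow box.** Proof: let `e₁ = X p0 ∈ ker DF`, `e₂ ∈ ker DF` independent of `e₁`, `e₃` with
`DF e₃ = 1`.  By the implicit function theorem `S` near `p0` is the graph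
`g(a,b) = p0 + a e₁ + b e₂ + h(a,b) e₃`, `h` smooth near `0`, `h 0 = 0`, `Dh 0 = 0`.  A tangent
vector is determined by its first two coordinates, so `X(g(a,b)) = α ∂_a g + β ∂_b g`, `α, β` of
class `C¹` near `0`, `α 0 = 1`, `β 0 = 0`.  Let `f = χ β/α` with a cutoff `χ` (`= 1` near `0`), and
`b(a;t)` from `GOde`.  For small `ρ`: `φ(s,t) = g(a(s), b(a(s); a(t)))`, `a(s) = ρ s/√(1+s²)`.
Injective: `a(s)` is the first coordinate, and `∂_t b > 0`.  (`GOde` may be assumed.) -/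
def GBox : Prop := ∀ (F : ℝ × ℝ × ℝ → ℝ), ContDiff ℝ ∞ F → ∀ p0, F p0 = 0 → fderiv ℝ F p0 ≠ 0 →
  ∀ X : ℝ × ℝ × ℝ → ℝ × ℝ × ℝ, C1At {q | F q = 0} X p0 → X p0 ≠ 0 →
    (∀ᶠ p in 𝓝[{q | F q = 0}] p0, fderiv ℝ F p (X p) = 0) → ∀ N ∈ 𝓝 p0,
  ∃ φ : ℝ × ℝ → ℝ × ℝ × ℝ, ContDiff ℝ 1 φ ∧ Function.Injective φ ∧
    (∀ z, Function.Injective (fderiv ℝ φ z)) ∧ (∀ z, F (φ z) = 0 ∧ φ z ∈ N) ∧
    p0 ∈ range φ ∧ ∀ z, ∃ c : ℝ, c ≠ 0 ∧ fderiv ℝ φ z (1, 0) = c • X (φ z)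

/-- **Uniqueness of leaves.** Proof: let `g` be the local `C¹` extension of `X`, Lipschitz near
`p0`.  `c(s) = ψ (s, w0.2)` satisfies `c' = k(s) g(c)`, `k` continuous and `≠ 0` near `w0.1`;
`γ' = λ(t) g(γ)` near `t0` in `I`, `λ` continuous.  Let `x` be the solution of `x' = g x`,
`x 0 = p0` on `(-η, η)`.  By uniqueness `c(s) = x(∫ k)`, `γ(t) = x(∫ λ)` near `w0.1`, `t0`; `s ↦ ∫ k`
is a local homeomorphism, so `γ(t) = c(s(t))` with `s(t)` near `w0.1`. -/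
def GUniq : Prop := ∀ (S : Set (ℝ × ℝ × ℝ)) (p0 : ℝ × ℝ × ℝ) (X : ℝ × ℝ × ℝ → ℝ × ℝ × ℝ),
  C1At S X p0 → X p0 ≠ 0 →
  ∀ (ψ : ℝ × ℝ → ℝ × ℝ × ℝ) (w0 : ℝ × ℝ), ContDiff ℝ 1 ψ → (∀ w, ψ w ∈ S) → ψ w0 = p0 →
    (∀ᶠ w in 𝓝 w0, ∃ c : ℝ, c ≠ 0 ∧ fderiv ℝ ψ w (1, 0) = c • X (ψ w)) →
  ∀ (γ γ' : ℝ → ℝ × ℝ × ℝ) (I : Set ℝ) (t0 : ℝ), I.OrdConnected → t0 ∈ I → γ t0 = p0 →
    (∀ t ∈ I, γ t ∈ S) → ContinuousOn γ' I → (∀ t ∈ I, HasDerivWithinAt γ (γ' t) I t) →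
    (∀ᶠ t in 𝓝[I] t0, ∃ l : ℝ, γ' t = l • X (γ t)) →
  ∃ ε > 0, ∀ s ∈ I, |s - t0| < ε → ∃ w' : ℝ × ℝ, ψ w' = γ s ∧ w'.2 = w0.2

/-- **Foliation charts** near `W` from the field of projections.  Proof (from `GBox`, `GUniq`): for
`p0 ∈ W` choose `e` with `Q p0 e ≠ 0` and let `φ_{p0}` be the flow box of `X = Q · e` in `V`;
`A = {φ_{p0}}`.  The horizontal derivative of a chart at `z` is a nonzero element of the range of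
`Q (φ z)`, hence parallel to `Q (φ z) e'` for any `e'` with `Q (φ z) e' ≠ 0`.  Overlaps: apply `GUniq`
to `γ = φ (·, z.2)`, `I = univ`, `ψ`, `X = Q · e'`, and injectivity of `ψ`. -/
def GFol : Prop := ∀ (F : ℝ × ℝ × ℝ → ℝ), ContDiff ℝ ∞ F → (∀ p, F p = 0 → fderiv ℝ F p ≠ 0) →
  ∀ (W V : Set (ℝ × ℝ × ℝ)), (∀ p ∈ W, F p = 0) → IsOpen V → W ⊆ V →
  ∀ Q : ℝ × ℝ × ℝ → (ℝ × ℝ × ℝ →L[ℝ] ℝ × ℝ × ℝ),
    (∀ p ∈ V, F p = 0 → C1At {q | F q = 0} Q p ∧ Q p ≠ 0 ∧ (∀ e, fderiv ℝ F p (Q p e) = 0) ∧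
      ∀ e e', Q p e ≠ 0 → ∃ c : ℝ, Q p e' = c • Q p e) →
  ∃ A : Set (ℝ × ℝ → ℝ × ℝ × ℝ),
    (∀ φ ∈ A, ContDiff ℝ 1 φ ∧ Function.Injective φ ∧
      (∀ z, Function.Injective (fderiv ℝ φ z)) ∧ ∀ z, F (φ z) = 0) ∧
    (∀ φ ∈ A, ∀ ψ ∈ A, ∀ z w : ℝ × ℝ, φ z = ψ w →
      ∃ ε > 0, ∀ z' w' : ℝ × ℝ, dist z' z < ε → z'.2 = z.2 → ψ w' = φ z' → w'.2 = w.2) ∧
    (W ⊆ ⋃ φ ∈ A, range φ) ∧
    ∀ (γ γ' : ℝ → ℝ × ℝ × ℝ) (I : Set ℝ), I.OrdConnected → ContinuousOn γ' I →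
      (∀ t ∈ I, γ t ∈ W ∧ HasDerivWithinAt γ (γ' t) I t ∧ ∃ e, γ' t = Q (γ t) e) →
      ∀ t ∈ I, ∀ φ ∈ A, ∀ z : ℝ × ℝ, φ z = γ t →
        ∃ ε > 0, ∀ s ∈ I, |s - t| < ε → ∃ z' : ℝ × ℝ, φ z' = γ s ∧ z'.2 = z.2

/-- **Partition into curves.**  For each `i` a family `G i` of arcs `(γ, a, b)` in `W` such that two
arcs of the same family are equal as sets or disjoint, and each point of `W ∩ K i` lies on one.
Proof: choose for each image `γ '' Icc a b`, `(γ,a,b) ∈ G i`, one representative.  For a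
representative let `T = Icc a b \ γ ⁻¹' (⋃ l < i, K l)`, which is relatively open in `Icc a b`; the
curves are the images of the order connected components of `T` (`Set.ordConnectedComponent`), which
are nontrivial intervals.  Curves of different `i` are disjoint if we intersect also with
`γ ⁻¹' K i`: better: for the curves of the family `i` use only those arcs which are contained in
`K i` (hypothesis `γ '' Icc a b ⊆ W ∩ K i`). -/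
def GPart : Prop := ∀ (W : Set (ℝ × ℝ × ℝ)) (K : ℕ → Set (ℝ × ℝ × ℝ)), (∀ i, IsClosed (K i)) →
  W ⊆ ⋃ i, K i →
  ∀ G : ℕ → Set ((ℝ → ℝ × ℝ × ℝ) × ℝ × ℝ),
    (∀ i, ∀ g ∈ G i, Continuous g.1 ∧ g.2.1 < g.2.2 ∧ InjOn g.1 (Icc g.2.1 g.2.2) ∧
      g.1 '' Icc g.2.1 g.2.2 ⊆ W ∩ K i) →
    (∀ i, ∀ g ∈ G i, ∀ h ∈ G i, g.1 '' Icc g.2.1 g.2.2 = h.1 '' Icc h.2.1 h.2.2 ∨
      Disjoint (g.1 '' Icc g.2.1 g.2.2) (h.1 '' Icc h.2.1 h.2.2)) →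
    (∀ i, ∀ p ∈ W ∩ K i, ∃ g ∈ G i, p ∈ g.1 '' Icc g.2.1 g.2.2) →
  ∃ 𝒞 : Set (Set (ℝ × ℝ × ℝ)), 𝒞.PairwiseDisjoint id ∧ ⋃₀ 𝒞 = W ∧
    ∀ C ∈ 𝒞, ∃ i, ∃ g ∈ G i, ∃ I : Set ℝ, I ⊆ Icc g.2.1 g.2.2 ∧ I.OrdConnected ∧ I.Nontrivial ∧
      g.1 '' I = C

/-- **Superposition operators** on spaces of bounded sequences are smooth.  Proof: by induction over
`n` one shows for all finite dimensional `E, G` and smooth `F` that the operator is `C^n`; its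
derivative at `u` is `h ↦ (i ↦ DF(u i)(h i))`, i.e. the superposition operator of
`DF : E → (E →L[ℝ] G)` followed by the continuous linear map
`(ℕ →ᵇ (E →L[ℝ] G)) → ((ℕ →ᵇ E) →L[ℝ] (ℕ →ᵇ G))`.  Differentiability: on bounded sets `DF` is
Lipschitz. -/
def GSup : Prop := ∀ (E G : Type) [NormedAddCommGroup E] [NormedSpace ℝ E] [FiniteDimensional ℝ E]
  [NormedAddCommGroup G] [NormedSpace ℝ G] [FiniteDimensional ℝ G] (F : E → G), ContDiff ℝ ∞ F →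
  ∃ S : BoundedContinuousFunction ℕ E → BoundedContinuousFunction ℕ G, ContDiff ℝ ∞ S ∧
    (∀ u i, S u i = F (u i)) ∧ ∀ u h i, (fderiv ℝ S u h) i = fderiv ℝ F (u i) (h i)

/-- **A tridiagonal system with exponential dichotomy.**  Proof: write `x_i = v_i ξ_i`,
`η_i = ξ_{i+1} - ξ_i`, `P_i` as given.  Using `Q_i v_i = P_i v_{i-1} + P_{i-1} v_{i+1}` the equation
`Q_i x_i = P_i x_{i-1} + P_{i-1} x_{i+1} + Q_i r_i` is equivalent to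
`m_i η_i = m_{i-1} η_{i-1} - r_i (v_{i-1}/P_{i-1} + v_{i+1}/P_i)`, `m_i = v_i v_{i+1}/P_i` (`m_0 = 0`).
So the solution is: `g_i = Σ_{1 ≤ l ≤ i} r_l (v_{l-1}/P_{l-1} + v_{l+1}/P_l)`,
`x_i = v_i Σ_{l ≥ i} P_l g_l/(v_l v_{l+1})`, `x_0 = 0`; `|g_i| ≤ C |v_{i+1}| R`,
`|x_i| ≤ C |v_i| Σ_{l ≥ i} R/|v_l| ≤ C' R`.  Uniqueness: for bounded `x` with `r = 0`, `x_0 = 0`:
`(x_i v_{i+1} - x_{i+1} v_i)/P_i` is constant `= 0`, so `x_i = c v_i`, and `|v_i| → ∞`. -/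
def GTri : Prop := ∀ (c C : ℝ), 0 < c → ∃ K : ℝ, 0 < K ∧ ∀ (P Q v : ℕ → ℝ), v 0 = 0 →
  (∀ i, 1 ≤ i → v i ≠ 0) → (∀ i, c ≤ |P i| ∧ |P i| ≤ C) → (∀ i, c ≤ |Q i|) →
  (∀ i, Q (i + 1) * v (i + 1) = P (i + 1) * v i + P i * v (i + 2)) →
  (∀ i, 1 ≤ i → ∑ l ∈ Finset.range (i + 1), |v l| ≤ C * |v i|) →
  (∀ i n, 1 ≤ i → ∑ l ∈ Finset.Ico i n, 1 / |v l| ≤ C / |v i|) →
  ∀ (r : ℕ → ℝ) (R : ℝ), (∀ i, |r i| ≤ R) →
    (∃ x : ℕ → ℝ, x 0 = 0 ∧ (∀ i, |x i| ≤ K * R) ∧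
      ∀ i, Q (i + 1) * x (i + 1) = P (i + 1) * x i + P i * x (i + 2) + Q (i + 1) * r (i + 1)) ∧
    ∀ x y : ℕ → ℝ, x 0 = 0 → y 0 = 0 → (∃ B, ∀ i, |x i| ≤ B) → (∃ B, ∀ i, |y i| ≤ B) →
      (∀ i, Q (i + 1) * x (i + 1) = P (i + 1) * x i + P i * x (i + 2) + Q (i + 1) * r (i + 1)) →
      (∀ i, Q (i + 1) * y (i + 1) = P (i + 1) * y i + P i * y (i + 2) + Q (i + 1) * r (i + 1)) →
      x = y

end Pool.Agent.H812.Tm
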