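import Mathlib
import Pool.Agent.H812.Tm.Spec2
import Pool.Agent.H812.Tm.Spec3

/-!
# Spec 4: leaves are smooth
-/

set_option autoImplicit false

open Real Filter Topology Set
open scoped ContDiff

namespace Pool.Agent.H812.Tm

open Pool.Agent.W811.Stu

/-- tangent vectors of the surface -/
def Tan (p u : P3) : Prop := gA p * u.z + gB p * u.y + gX p * u.x = 0

/-- **Fans.** For a point `q` of the surface and `D ≥ 1` put `t_D = (stepR^[D] q).z`.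
(1) lower bound: data `(0, b0)` of `fV q` (`b0_dat`, norm `1+δ²-z² ≥ cc² - κ²`); for `D = 1`
`(fV q).x = -gB`, `gB² = δ² + (1-x²)(1-z²) ≥ cc² - κ²`; for `D ≥ 2` after `D-1` steps (`growR` with
`α = 0`, `β² = cc² - κ²`) both norms are `≥ β`, and `LBx` applies.
(2) `(dRk D q (fH q)).z = t_{D+1} - y t_D` (induction; `D = 0`: `gX`), i.e. `gX (stepT D q)`.
(3) `gX • u = u.y • fV q + u.z • fH q` for tangent `u`, and linearity of `dRk`. -/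
def SQ : Prop := ∀ δ κ : ℝ, δ ≠ 0 → 0 ≤ κ → κ < cc δ → ∃ c0 : ℝ, 0 < c0 ∧ ∀ (q : P3) (D : ℕ),
  OnS δ q → 1 ≤ D → |q.z| ≤ κ → |(stepR^[D] q).z| ≤ κ →
  c0 ≤ |(dRk D q (fV q)).z| ∧ (dRk D q (fH q)).z = gX (stepT D q) ∧
  ∀ u : P3, Tan q u → u.y * (dRk D q (fV q)).z = gX q * (dRk D q u).z - u.z * (dRk D q (fH q)).z

/-- normal form of the relation between `a = q.z`, `y = q.y`, `b = (stepR^[D] q).z`, with compact
parameters: `y = c (X, π)`, `F (a, X, b, π) = 0` -/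
def NF (δ κ : ℝ) (𝒟 : Set ℕ) : Prop :=
  ∃ (n : ℕ) (c : ℝ × (Fin n → ℝ) → ℝ) (F : ℝ × ℝ × ℝ × (Fin n → ℝ) → ℝ) (K : ℝ),
    ContDiff ℝ ∞ c ∧ ContDiff ℝ ∞ F ∧ 0 < K ∧
    ∀ D ∈ 𝒟, ∀ (I : Set ℝ) (q : ℝ → P3), I.OrdConnected → I.Nonempty → ContP q I →
      (∀ t ∈ I, OnS δ (q t) ∧ |(q t).z| ≤ κ ∧ |(q t).y| ≤ κ ∧ |(stepR^[D] (q t)).z| ≤ κ) →
      ∃ (pm : Fin n → ℝ) (X : ℝ → ℝ), (∀ i, |pm i| ≤ K) ∧
        (∀ t ∈ I, |X t| ≤ K ∧ c (X t, pm) = (q t).y ∧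
          F ((q t).z, X t, (stepR^[D] (q t)).z, pm) = 0 ∧
          1 / K ≤ |fderiv ℝ F ((q t).z, X t, (stepR^[D] (q t)).z, pm) (0, 1, 0, 0)| ∧
          ∀ u : P3, Tan (q t) u → ∃ ν : ℝ, fderiv ℝ c (X t, pm) (1, 0) * ν = u.y ∧
            fderiv ℝ F ((q t).z, X t, (stepR^[D] (q t)).z, pm)
              (u.z, ν, (dRk D (q t) u).z, 0) = 0) ∧
        (∀ t ∈ I, ∀ t' ∈ I, |X t - X t'| ≤ K * (|(q t).z - (q t').z| + |(q t).y - (q t').y| +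
          |(stepR^[D] (q t)).z - (stepR^[D] (q t')).z|))

/-- **Normal form, a single digit.** `n = 1`, `π = ε = ±1` the sign of `gX (q t)` (constant, as
`gX² = δ² + (1-z²)(1-y²) ≥ cc² - κ² > 0`), `c (X, π) = X`,
`F = b - T_D(X) a - ε U_{D-1}(X) s(δ² + (1-a²)(1-X²))` where `s` is smooth on `ℝ` and equal to `√`
on `[(cc² - κ²)/2, ∞)` (`T_D, U_{D-1}` Chebyshev polynomials: for all points
`(stepR^[D] q).z = T_D(y) z + U_{D-1}(y) gX q`).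
The identity for tangent `u`: differentiate this formula and `gX² = δ² + (1-z²)(1-y²)` (for tangent
`u`, `2 gX (u.x - u.y z - y u.z) = -2 z u.z (1-y²) - 2 y u.y (1-z²)`), `ν = u.y`.
Lower bound: take `u = fV q`: `F_X gX + (dRk D q (fV q)).z = 0`, and `SQ` (may be assumed),
`|gX| ≤ C`. -/
def SNFa : Prop := ∀ δ κ : ℝ, δ ≠ 0 → 1 ≤ κ → κ < cc δ → ∀ D : ℕ, 1 ≤ D → NF δ κ {D}

/-- **Normal form, large digits.** Let `D ≥ D1`.  Then `|y| < 1`: if `|y| > 1` then `D ≤ K` by `SWin`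
(may be assumed); if `|y| = 1` then `|t_D| = |t_0 ± D gX|`, `|gX| = |δ|`.  Let `y = cos ϑ`,
`ϑ = arccos y ∈ (0, π)`, `ρ(ϑ) = sin ϑ/√(sin²ϑ + δ²)` (a smooth function on `ℝ`,
`|ρ| ≤ 1/cc δ`).  `ε` the sign of `gX`, `ψ_a = arccos (a ρ(ϑ))`, `ψ_b = arccos(b ρ(ϑ))`
(`|a ρ|, |b ρ| ≤ κ/cc < 1`).  Then `sin ψ_a = |gX| ρ/sin ϑ` and
`ρ b = ρ (a cos Dϑ + gX sin Dϑ/sin ϑ) = cos(Dϑ - ε ψ_a)`.  So `Dϑ - ε ψ_a = ε' ψ_b + 2π m` with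
`ε' = ±1`, `m ∈ ℤ`, constant along the curve (continuity, `ψ_b ∈ (0,π)`).  Put `ϑ0 = 2π m/D`,
`η = 1/D`, `X = D(ϑ - ϑ0) = ε ψ_a + ε' ψ_b ∈ [-2π, 2π]`; `π = (ϑ0, η, ε, ε')`,
`c(X,π) = cos(ϑ0 + η X)`,
`F = X - ε A(a ρ(ϑ0+ηX)) - ε' A(b ρ(ϑ0+ηX))`, `A` smooth on `ℝ`, `= arccos` on `[-κ/cc, κ/cc]`.
For `D` large `|F_X - 1| ≤ 1/2` (where `|a|, |b| ≤ κ`).  Lipschitz estimate: subtract the equations.
The identity for tangent `u`: `ν = -D u.y/sin ϑ`; differentiate the relation along a curve in the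
surface through `q` with velocity `u` (e.g. `(z + s u.z, y + s u.y, yz + ε √(δ²+(1-z²)(1-y²)))`). -/
def SNFb : Prop := ∀ δ κ : ℝ, δ ≠ 0 → 1 ≤ κ → κ < cc δ → ∃ D1 : ℕ, NF δ κ {D | D1 ≤ D}

/-- **Normal form, union** (parameter space `Fin (n1 + n2 + 1)`, the last parameter `s ∈ {0, 1}`
selects: `c = s c1 + (1-s) c2`, `F = s F1 + (1-s) F2`). -/
def SNFu : Prop := ∀ (δ κ : ℝ) (𝒟 𝒟' : Set ℕ), NF δ κ 𝒟 → NF δ κ 𝒟' → NF δ κ (𝒟 ∪ 𝒟')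

/-- **Smoothness from the Jacobi operator.**  A chain of curves `q i` in the surface; put
`f_0 = (q 0).z = t`, `f_{i+1} = (q i).y`; `f_i, f_{i+1}, f_{i+2}` are the values `z, y, t_D` for the
fan `q i`, `D i`.  At `z0` there is a solution `w` of the linearised system with `w 0 = 0` and
exponential growth.  Then `f_1` is smooth at `z0`.
Proof: by `SNFa, SNFb, SNFu` (induction) `NF δ κ {D | 1 ≤ D}`.  Get `π_i, X_i`,
`c(X_i, π_i) = f_{i+1}`, `F(f_i, X_i, f_{i+2}, π_i) = 0`.  On `ℝ × ℓ^∞` (bounded sequences) consider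
`𝓕(t, X)_i = F(a_i, X_i, c(X_{i+1}, π_{i+1}), π_i)`, `a_0 = t`, `a_i = c(X_{i-1}, π_{i-1})`: smooth by
`GSup`.  Its `X`-derivative at the base point is
`(L x)_i = F_a c'_{i-1} x_{i-1} + F_X x_i + F_b c'_{i+1} x_{i+1}` (first term absent for `i = 0`).
The identities in `NF` for `u = fV q` and `u = fH q` and `SQ` give
`c' F_b/F_X = -gX/Q`, `c' F_a/F_X = H/Q`, `Q = (dRk D q (fV q)).z`, `H = (dRk D q (fH q)).z`, `|H|` being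
`|gX (q (i+1) z0)|` (both squares are `δ² + (1-y²)(1-t_D²)`).
`GTri` with `v_i = w i`, `|P_i| = |gX (q i z0)|` and suitable signs
(`P_0 = gX (q 0)`, `P_{i+1} = -σ_i H_i`, `σ_i = P_i/gX(q i) = ±1`, `Q_{i+1} = σ_i Q`; the relation
`Q w_{i+1} = gX w_{i+2} - H w_i` is (3) of `SQ`) shows that
`Q y_i = gX y_{i+1} - H y_{i-1} + Q (c' r_i/F_X)` has a unique bounded solution (with index shifted by
one), and then `x_i = (r_i - F_a y_{i-1} - F_b y_{i+1})/F_X` is the unique solution of `L x = r`.  So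
`L` is a bounded bijection, and by the implicit (inverse) function theorem the solution set of
`𝓕 = 0` near `(z0, X(z0))` is the graph of a smooth function of `t`; `t ↦ X(t) ∈ ℓ^∞` is continuous
at `z0` by the Lipschitz estimates, hence coincides with it.  So `X_0` and
`f_1 = c(X_0, π_0)` are smooth at `z0`. -/
def SJac : Prop := ∀ (δ κ : ℝ), δ ≠ 0 → 1 < κ → κ < cc δ → ∀ (z0 r0 : ℝ), 0 < r0 →
  ∀ (q : ℕ → ℝ → P3) (D : ℕ → ℕ) (C : ℝ), (∀ i, 1 ≤ D i) →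
    (∀ i, ∀ t ∈ Icc (z0 - r0) (z0 + r0), OnS δ (q i t) ∧ |(q i t).z| ≤ κ ∧ |(q i t).y| ≤ κ ∧
      (q (i + 1) t).z = (q i t).y ∧ (q (i + 1) t).y = (stepR^[D i] (q i t)).z) →
    (∀ i, ContP (q i) (Icc (z0 - r0) (z0 + r0))) →
    (∀ t ∈ Icc (z0 - r0) (z0 + r0), (q 0 t).z = t) →
    (∀ i, ∀ t ∈ Icc (z0 - r0) (z0 + r0), ∀ t' ∈ Icc (z0 - r0) (z0 + r0),
      |(q i t).y - (q i t').y| ≤ C * |t - t'|) →
  ∀ (w : ℕ → ℝ), w 0 = 0 → (∀ i, 1 ≤ i → w i ≠ 0) →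
    (∀ i, ∃ u : P3, Tan (q i z0) u ∧ u.z = w i ∧ u.y = w (i + 1) ∧
      (dRk (D i) (q i z0) u).z = w (i + 2)) →
    (∀ i, 1 ≤ i → ∑ l ∈ Finset.range (i + 1), |w l| ≤ C * |w i|) →
    (∀ i n, 1 ≤ i → ∑ l ∈ Finset.Ico i n, 1 / |w l| ≤ C / |w i|) →
  ContDiffAt ℝ ∞ (fun t => (q 0 t).y) z0

/-- **Growth for good level functions**, all distances: `SRGY` for `M ≥ m + 4`; for smaller
distances go from `m` to `M` in at most three steps through good levels: if `|Y_{i+1}| ≤ κ` use `SRev`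
(with `k = d i`, `Tf_last`), otherwise `|Y_{i+2}| ≤ κ` by `SAl` and `SRGT` (`κ2 := κ`, from `T_{i+1,0}` to
`T_{i+1,d}`). -/
def SRG : Prop := ∀ δ κ : ℝ, δ ≠ 0 → 1 < κ → κ < cc δ → ∃ C : ℝ, 0 < C ∧
  ∀ d : ℕ → ℕ, (∀ k, 1 ≤ d k) → ∀ m M, 1 ≤ m → m ≤ M → ∀ v ∈ U, |Yf δ d m v| ≤ κ →
    |Yf δ d M v| ≤ κ → |dt (Yf δ d m) v| * 2 ^ ((M - m) / 2) ≤ C * |dt (Yf δ d M) v|

/-- **Derivatives along the leaves are bounded.**  For `j ≤ 3` by compactness (`sg` is continuous,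
everything is periodic in `ϑ`).  Let `f = Y_j`, `j ≥ 3`, `v` alive.
(a) `|Y_j v| ≤ 1`: `sg - sl Y_j = Σ_{l ≥ j} Hf l` at `v` (the telescoping identity in the docstring of
`SField` for `j` and `M ≥ j`, `|Y_M v| ≤ 1`, `M → ∞`), and
`|dt Y_j| |sl Y_{l+1} - sl Y_l| ≤ C |dt Y_j|/(|dt Y_l||dt Y_{l+1}|) ≤ C'/|dt Y_{l+1}| ≤ C'' 2^{-l/2}` when
both are good (`SPair, SRG, SLow`); when `|Y_l| > 1` the second summand of `Hf l`:
if `|Y_l| ≥ κ`, `|dt Y_j| ≤ C|dt T_{l,0}| ≤ C'|dt T_{l,k}|` (`SRG`, `SRGT`), so the sum over `k` is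
`≤ Σ C/|dt T_{l,k+1}| ≤ C' 2^{-l/2}` by `SRun`; if `1 < |Y_l| < κ`, at most `K` terms (`SWin`) and
`|dt Y_j| ≤ C |dt Y_{l+1}|`, `|dt T_{l,k}| ≥ |dt Y_l|/C` (`SRev`), `|dt Y_j| ≤ C|dt Y_l|` (`SRG`).
(b) `1 < |Y_j v| ≤ κ`: `|sg - sl Y_j| ≤ |sg - sl Y_{j+1}| + |sl Y_{j+1} - sl Y_j|`,
`|dt Y_j| ≤ C |dt Y_{j+1}|` (`SRev`).
(c) `|Y_j v| > κ`: with `D = dz + sg dt` (a derivation; the vector `(1, sg)` is mapped to a tangent vector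
`u` at `orb d (ze δ v) j` with `u.z = D Y_{j-1}`, `u.y = D Y_j`, `(dRk (d j) _ u).z = D Y_{j+1}`), `SQ` (3)
gives `|D Y_j| ≤ C (|D Y_{j-1}| + |D Y_{j+1}|)` (`gX² = δ²+(1-y²)(1-z²)` etc., `|y| ≤ C`), and
`|Y_{j±1} v| ≤ 1`.
(d) `T_{j,k}`, `κ2 ≤ |Y_j v|`, `1 ≤ k ≤ d j`, all `|T_{j,i} v| ≤ 1`, `i ≤ d j`:
`|sg - sl T_{j,k}| ≤ |sg - sl Y_{j+1}| + Σ_{k ≤ i < d j} |sl T_{j,i+1} - sl T_{j,i}|`, `SRGT`
(`|dt T_{j,k}| κ2^(i-k) ≤ C |dt T_{j,i}|`) and the lower bound `SLow`, `SPair`. -/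
def SLip : Prop := ∀ (δ κ κ2 r : ℝ) (d : ℕ → ℕ) (θ : ℝ → ℝ), δ ≠ 0 → 1 < κ → κ < cc δ →
  1 < κ2 → r < 1 → (∀ k, 1 ≤ d k) → Cut κ θ → ∃ C : ℝ, 0 < C ∧ ∀ v : ℝ × ℝ, |v.1| ≤ r →
    Alive d (ze δ v) →
    (∀ j, |dz (Yf δ d j) v + sg θ δ d v * dt (Yf δ d j) v| ≤ C) ∧
    (∀ j k, κ2 ≤ |Yf δ d j v| → k ≤ d j →
      |dz (Tf δ d j k) v + sg θ δ d v * dt (Tf δ d j k) v| ≤ C)

/-! ### chains of good functions -/

/-- states of the chain -/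
inductive Ch
  | Y (j : ℕ)
  | T (j k : ℕ)

/-- the fan of a state: `(z, y) = (y_{j-1}, y_j)` resp. `(t_{j,k}, t_{j,k+1})` -/
def Ch.pt (d : ℕ → ℕ) (p : P3) : Ch → P3
  | .Y j => orb d p j
  | .T j k => ⟨tf d j k p, tf d j (k + 1) p, (orb d p j).y⟩

/-- push forward of the tangent vector `u` -/
def Ch.tg (d : ℕ → ℕ) (p u : P3) : Ch → P3
  | .Y j => dorb d p u j
  | .T j k => ⟨(dRk k (orb d p j) (dorb d p u j)).z, (dRk (k + 1) (orb d p j) (dorb d p u j)).z,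
      (dorb d p u j).y⟩

/-- the newer function of a state -/
noncomputable def Ch.fn (δ : ℝ) (d : ℕ → ℕ) : Ch → (ℝ × ℝ → ℝ)
  | .Y j => Yf δ d j
  | .T j k => Tf δ d j (k + 1)

/-- the next state; `bad j` means that `|y_j|` is large -/
def Ch.nx (d : ℕ → ℕ) (bad : ℕ → Bool) : Ch → Ch
  | .Y j => if bad (j + 1) then .T (j + 1) 0 else .Y (j + 1)
  | .T j k => if k + 1 < d j then .T j (k + 1) else
      if bad (j + 2) then .T (j + 2) 0 else .Y (j + 2)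

/-- the number of steps in the fan -/
def Ch.dg (d : ℕ → ℕ) (bad : ℕ → Bool) : Ch → ℕ
  | .Y j => if bad (j + 1) then d j + 1 else d j
  | .T j k => if k + 1 < d j then 2 else
      if bad (j + 2) then d (j + 1) + 2 else d (j + 1) + 1

/-- the chain -/
def Ch.seq (d : ℕ → ℕ) (bad : ℕ → Bool) : ℕ → Ch
  | 0 => if bad 0 then .T 0 0 else .Y 0
  | i + 1 => Ch.nx d bad (Ch.seq d bad i)

/-- the pattern `bad` fits the point `v` -/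
def Fit (δ κ κ2 : ℝ) (d : ℕ → ℕ) (bad : ℕ → Bool) (v : ℝ × ℝ) : Prop :=
  (∀ j, bad j = false → |Yf δ d j v| ≤ κ) ∧
  (∀ j, bad j = true → κ2 ≤ |Yf δ d j v| ∧ ∀ k ≤ d j, |Tf δ d j k v| ≤ κ) ∧
  (∀ j, bad j = true → bad (j + 1) = false)

/-- **Chains consist of fans** (pure algebra, `d j ≥ 1`; all states `T j k` which occur have
`k < d j` and `bad j`): the values and tangent vectors of successive states fit.  For
`T j (d j - 1)`: `stepR (pt) = orb (j+1)`. -/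
def SCh : Prop := ∀ (δ : ℝ) (d : ℕ → ℕ), (∀ k, 1 ≤ d k) → ∀ (bad : ℕ → Bool) (p u : P3),
  OnS δ p → Tan p u → ∀ i, ∀ s s' : Ch, s = Ch.seq d bad i → s' = Ch.seq d bad (i + 1) →
    OnS δ (s.pt d p) ∧ Tan (s.pt d p) (s.tg d p u) ∧ 1 ≤ s.dg d bad ∧
    (s'.pt d p).z = (s.pt d p).y ∧ (s'.pt d p).y = (stepR^[s.dg d bad] (s.pt d p)).z ∧
    (s'.tg d p u).z = (s.tg d p u).y ∧
    (s'.tg d p u).y = (dRk (s.dg d bad) (s.pt d p) (s.tg d p u)).z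

/-- **Growth along the chain** (at a point where the pattern fits).  From `SRG, SRGT, SRev, SLow`
and `dt ≠ 0` for the finitely many functions of low level.  Let `W i = |dt (fn (seq i)) v|`.
(1) inside a run `W` grows by `SRGT`: `|dt T_{j,k}| κ2^(l-k) ≤ C |dt T_{j,l}|`, `0 ≤ k ≤ l ≤ d j`
(`T_{j,0} = Y_{j-1}`, `T_{j,d j} = Y_{j+1}`), (2) from good level to good level by `SRG`.  The levels
of the states tend to infinity.  Hence for target level `M` the sum of the `W`'s of runs below is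
bounded by geometric series. -/
def SChG : Prop := ∀ (δ κ κ2 : ℝ) (d : ℕ → ℕ) (bad : ℕ → Bool), δ ≠ 0 → 1 < κ → κ < cc δ →
  1 < κ2 → (∀ k, 1 ≤ d k) → ∀ v ∈ U, Fit δ κ κ2 d bad v → ∃ C : ℝ, 0 < C ∧
    (∀ i, dt ((Ch.seq d bad i).fn δ d) v ≠ 0) ∧
    (∀ i, ∑ l ∈ Finset.range (i + 1), |dt ((Ch.seq d bad l).fn δ d) v| ≤
      C * |dt ((Ch.seq d bad i).fn δ d) v|) ∧
    (∀ i n, ∑ l ∈ Finset.Ico i n, 1 / |dt ((Ch.seq d bad l).fn δ d) v| ≤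
      C / |dt ((Ch.seq d bad i).fn δ d) v|)

/-- **Leaves are smooth.**  From `SJac, SCh, SChG, SLip`, `SCoord`, `SDt`.  Let `z0 ∈ (-1,1)`,
`1 < κ2 < κ1 < κ`, `bad j ↔ κ1 < |Y_j (z0, ϑ z0)|`, `r < 1` with `|z0| < r`.  By `SLip` all functions
`t ↦ Y_j (t, ϑ t)` are Lipschitz on `[-r, r]` with the same constant, so for `|t - z0| ≤ r0` the
pattern fits (`Fit δ κ κ2 d bad (t, ϑ t)`: if `|Y_j| > 1` at the alive point `(t, ϑ t)`, then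
`|Y_{j±1}| ≤ 1` (`|z| < 1` if `j = 0`) and `|T_{j,k}| ≤ 1` for `k ≤ d j` by `THyp` with `κ := 1`).
Apply `SJac` to `q i t = (seq i).pt d (ze δ (t, ϑ t))`, `D i = (seq i).dg`,
`w 0 = 0`, `w (i+1) = dt ((seq i).fn) (z0, ϑ z0)`, `u = (seq i).tg` of the vector
`∂_ϑ ze (z0, ϑ z0)` (`SCoord`).  So `f_1 = y` or `x` (if `bad 0`) is a smooth function of `z` along the
leaf; then `x` resp. `y` is smooth too (`gX ≠ 0` resp. `gB ≠ 0`: `(x-yz)² = δ² + (1-y²)(1-z²) > 0`), so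
`cos ϑ`, `sin ϑ` are smooth, and `ϑ' = cos ϑ (sin ϑ)' - sin ϑ (cos ϑ)'`. -/
def SLeafC : Prop := ∀ (δ κ : ℝ) (d : ℕ → ℕ) (θ : ℝ → ℝ), δ ≠ 0 → 1 < κ → κ < cc δ →
  (∀ k, 1 ≤ d k) → Cut κ θ → ∀ ϑ : ℝ → ℝ,
    (∀ z : ℝ, |z| < 1 → HasDerivAt ϑ (sg θ δ d (z, ϑ z)) z ∧ Alive d (ze δ (z, ϑ z))) →
    ContDiffOn ℝ ∞ ϑ (Ioo (-1) 1)

end Pool.Agent.H812.Tm
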