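import Mathlib
import Pool.Agent.H812.Tm.Spec4
import Pool.Graph.R_seed8.W816.Stu.BddL

/-!
# Assembly 1: coordinates of the frozen statement, stage maps and their inverses, the surface
-/

set_option autoImplicit false

open Real Filter Topology Set
open scoped ContDiff

namespace Pool.Agent.H812.Tm

open Pool.Agent.W811.Stu

/-- the point of trace space with the coordinates `(x, y, z)` -/
def pt (q : ℝ × ℝ × ℝ) : P3 := ⟨q.2.2, q.2.1, q.1⟩
def tp (p : P3) : ℝ × ℝ × ℝ := (p.x, p.y, p.z)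

@[simp] lemma pt_tp (p : P3) : pt (tp p) = p := rfl
@[simp] lemma tp_pt (q : ℝ × ℝ × ℝ) : tp (pt q) = q := rfl

lemma tp_inj {p p' : P3} (h : tp p = tp p') : p = p' := by
  have := congrArg pt h
  simpa using this

/-- smooth maps of trace space -/
def Smo (φ : P3 → P3) : Prop := ContDiff ℝ ∞ fun q => tp (φ (pt q))

lemma Smo.comp {φ ψ : P3 → P3} (h1 : Smo φ) (h2 : Smo ψ) : Smo fun p => φ (ψ p) := by
  have : (fun q => tp (φ (ψ (pt q)))) = (fun q => tp (φ (pt q))) ∘ (fun q => tp (ψ (pt q))) := by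
    funext q; simp [Function.comp]
  unfold Smo
  rw [this]
  exact ContDiff.comp h1 h2

lemma Smo.id : Smo fun p => p := by
  unfold Smo; simp only [tp_pt]; exact contDiff_id

lemma Smo.stepR : Smo stepR := by
  unfold Smo
  have : (fun q => tp (Pool.Agent.W811.Stu.stepR (pt q))) =
      fun q : ℝ × ℝ × ℝ => (2 * q.1 * q.2.1 - q.2.2, q.2.1, q.1) := rfl
  rw [this]; fun_prop

lemma Smo.stepS : Smo stepS := by
  unfold Smo
  have : (fun q => tp (Pool.Agent.W811.Stu.stepS (pt q))) =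
      fun q : ℝ × ℝ × ℝ => (q.1, q.2.2, q.2.1) := rfl
  rw [this]; fun_prop

/-- inverse of `stepR` -/
def bR (p : P3) : P3 := ⟨2 * p.z * p.y - p.x, p.y, p.z⟩

lemma bR_stepR (p : P3) : bR (stepR p) = p := by
  unfold bR stepR; ext <;> simp

lemma stepR_bR (p : P3) : stepR (bR p) = p := by
  unfold bR stepR; ext <;> simp

lemma stepS_stepS (p : P3) : stepS (stepS p) = p := rfl

lemma Smo.bR : Smo bR := by
  unfold Smo
  have : (fun q => tp (Pool.Agent.H812.Tm.bR (pt q))) =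
      fun q : ℝ × ℝ × ℝ => (q.2.2, q.2.1, 2 * q.2.2 * q.2.1 - q.1) := rfl
  rw [this]; fun_prop

lemma Smo.iter {φ : P3 → P3} (h : Smo φ) (k : ℕ) : Smo (φ^[k]) := by
  induction k with
  | zero => exact Smo.id
  | succ k ih => rw [Function.iterate_succ']; exact h.comp ih

lemma Smo.stepT (b : ℕ) : Smo (stepT b) := Smo.stepS.comp (Smo.stepR.iter b)

lemma Smo.orb (d : ℕ → ℕ) (n : ℕ) : Smo fun p => orb d p n := by
  induction n with
  | zero => exact Smo.id
  | succ n ih => exact (Smo.stepT (d n)).comp ih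

/-- inverse of `stepT` -/
def bT (b : ℕ) (p : P3) : P3 := bR^[b] (stepS p)

lemma bR_iter (b : ℕ) (p : P3) : bR^[b] (stepR^[b] p) = p := by
  induction b generalizing p with
  | zero => rfl
  | succ b ih => rw [Function.iterate_succ_apply' stepR, Function.iterate_succ_apply bR, bR_stepR,
      ih]

lemma bR_iter' (b : ℕ) (p : P3) : stepR^[b] (bR^[b] p) = p := by
  induction b generalizing p with
  | zero => rfl
  | succ b ih => rw [Function.iterate_succ_apply' bR, Function.iterate_succ_apply stepR, stepR_bR,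
      ih]

lemma bT_stepT (b : ℕ) (p : P3) : bT b (stepT b p) = p := by
  unfold bT stepT; rw [stepS_stepS, bR_iter]

lemma stepT_bT (b : ℕ) (p : P3) : stepT b (bT b p) = p := by
  unfold bT stepT; rw [bR_iter', stepS_stepS]

/-- inverse of `orb d · n` -/
def borb (d : ℕ → ℕ) : ℕ → P3 → P3
  | 0, p => p
  | n + 1, p => borb d n (bT (d n) p)

lemma borb_orb (d : ℕ → ℕ) (n : ℕ) (p : P3) : borb d n (orb d p n) = p := by
  induction n with
  | zero => rfl
  | succ n ih =>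
    show borb d n (bT (d n) (stepT (d n) (orb d p n))) = p
    rw [bT_stepT, ih]

lemma orb_borb (d : ℕ → ℕ) (n : ℕ) (p : P3) : orb d (borb d n p) n = p := by
  induction n generalizing p with
  | zero => rfl
  | succ n ih =>
    show stepT (d n) (orb d (borb d n (bT (d n) p)) n) = p
    rw [ih, stepT_bT]

lemma Smo.borb (d : ℕ → ℕ) (n : ℕ) : Smo (borb d n) := by
  induction n with
  | zero => exact Smo.id
  | succ n ih =>
    have : Smo fun p => Pool.Agent.H812.Tm.borb d n (bT (d n) p) :=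
      Smo.comp ih ((Smo.bR.iter (d n)).comp Smo.stepS)
    exact this

/-- the stage map in coordinates -/
def fo (d : ℕ → ℕ) (n : ℕ) (q : ℝ × ℝ × ℝ) : ℝ × ℝ × ℝ := tp (orb d (pt q) n)
/-- its inverse -/
def go (d : ℕ → ℕ) (n : ℕ) (q : ℝ × ℝ × ℝ) : ℝ × ℝ × ℝ := tp (borb d n (pt q))

lemma fo_smooth (d : ℕ → ℕ) (n : ℕ) : ContDiff ℝ ∞ (fo d n) := Smo.orb d n
lemma go_smooth (d : ℕ → ℕ) (n : ℕ) : ContDiff ℝ ∞ (go d n) := Smo.borb d n

lemma go_fo (d : ℕ → ℕ) (n : ℕ) (q : ℝ × ℝ × ℝ) : go d n (fo d n q) = q := by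
  unfold go fo; rw [pt_tp, borb_orb, tp_pt]
lemma fo_go (d : ℕ → ℕ) (n : ℕ) (q : ℝ × ℝ × ℝ) : fo d n (go d n q) = q := by
  unfold go fo; rw [pt_tp, orb_borb, tp_pt]

lemma fo_add (d : ℕ → ℕ) (n m : ℕ) (q : ℝ × ℝ × ℝ) :
    fo d (n + m) q = fo (shd d n) m (fo d n q) := by
  unfold fo; rw [orb_add, pt_tp]; rfl

/-! ### the surface -/

/-- equation of the surface -/
def FS (δ : ℝ) (q : ℝ × ℝ × ℝ) : ℝ :=
  q.1 ^ 2 + q.2.1 ^ 2 + q.2.2 ^ 2 - 2 * q.1 * q.2.1 * q.2.2 - (1 + δ ^ 2)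

lemma FS_smooth (δ : ℝ) : ContDiff ℝ ∞ (FS δ) := by
  unfold FS; fun_prop

lemma FS_iff {δ : ℝ} {q : ℝ × ℝ × ℝ} : FS δ q = 0 ↔ OnS δ (pt q) := by
  unfold FS OnS pt
  constructor
  · intro h; simp only; linarith
  · intro h; simp only at h; linarith

lemma FS_tp {δ : ℝ} {p : P3} : FS δ (tp p) = 0 ↔ OnS δ p := by
  rw [FS_iff, pt_tp]

lemma FS_stepR (δ : ℝ) (p : P3) : FS δ (tp (stepR p)) = FS δ (tp p) := by
  unfold FS tp stepR; simp only; ring

lemma FS_stepS (δ : ℝ) (p : P3) : FS δ (tp (stepS p)) = FS δ (tp p) := by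
  unfold FS tp stepS; simp only; ring

lemma FS_iter (δ : ℝ) (k : ℕ) (p : P3) : FS δ (tp (stepR^[k] p)) = FS δ (tp p) := by
  induction k with
  | zero => rfl
  | succ k ih => rw [Function.iterate_succ_apply', FS_stepR, ih]

lemma FS_orb (δ : ℝ) (d : ℕ → ℕ) (n : ℕ) (p : P3) : FS δ (tp (orb d p n)) = FS δ (tp p) := by
  induction n with
  | zero => rfl
  | succ n ih =>
    show FS δ (tp (stepS (stepR^[d n] (orb d p n)))) = _
    rw [FS_stepS, FS_iter, ih]

lemma FS_fo (δ : ℝ) (d : ℕ → ℕ) (n : ℕ) (q : ℝ × ℝ × ℝ) : FS δ (fo d n q) = FS δ q := by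
  unfold fo; rw [FS_orb, tp_pt]

lemma FS_go (δ : ℝ) (d : ℕ → ℕ) (n : ℕ) (q : ℝ × ℝ × ℝ) : FS δ (go d n q) = FS δ q := by
  rw [← FS_fo δ d n (go d n q), fo_go]

lemma FS_fderiv (δ : ℝ) (q v : ℝ × ℝ × ℝ) : fderiv ℝ (FS δ) q v =
    2 * (q.1 - q.2.1 * q.2.2) * v.1 + 2 * (q.2.1 - q.1 * q.2.2) * v.2.1 +
      2 * (q.2.2 - q.1 * q.2.1) * v.2.2 := by
  have h1 : HasFDerivAt (fun q : ℝ × ℝ × ℝ => q.1) (ContinuousLinearMap.fst ℝ ℝ (ℝ × ℝ)) q :=
    hasFDerivAt_fst
  have h2 : HasFDerivAt (fun q : ℝ × ℝ × ℝ => q.2.1)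
      ((ContinuousLinearMap.fst ℝ ℝ ℝ).comp (ContinuousLinearMap.snd ℝ ℝ (ℝ × ℝ))) q :=
    hasFDerivAt_fst.comp q hasFDerivAt_snd
  have h3 : HasFDerivAt (fun q : ℝ × ℝ × ℝ => q.2.2)
      ((ContinuousLinearMap.snd ℝ ℝ ℝ).comp (ContinuousLinearMap.snd ℝ ℝ (ℝ × ℝ))) q :=
    hasFDerivAt_snd.comp q hasFDerivAt_snd
  have h := ((((h1.pow 2).add (h2.pow 2)).add (h3.pow 2)).sub
    (((h1.const_mul 2).mul h2).mul h3)).sub_const (1 + δ ^ 2)
  have h' : HasFDerivAt (FS δ) _ q := h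
  rw [h'.fderiv]
  simp
  ring

lemma FS_reg {δ : ℝ} (hδ : δ ≠ 0) (q : ℝ × ℝ × ℝ) (h : FS δ q = 0) : fderiv ℝ (FS δ) q ≠ 0 := by
  intro h0
  have e1 := FS_fderiv δ q (1, 0, 0)
  have e2 := FS_fderiv δ q (0, 1, 0)
  have e3 := FS_fderiv δ q (0, 0, 1)
  rw [h0] at e1 e2 e3
  simp at e1 e2 e3
  unfold FS at h
  obtain ⟨x, y, z⟩ := q
  simp only at *
  have hx : x = y * z := by linarith
  have hy : y = x * z := by linarith
  have hz : z = x * y := by linarith
  have hxy : x ^ 2 = y ^ 2 := by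
    have : x * y = y * x := by ring
    calc x ^ 2 = x * (y * z) := by rw [← hx]; ring
      _ = y * (x * z) := by ring
      _ = y ^ 2 := by rw [← hy]; ring
  have hxz : x ^ 2 = z ^ 2 := by
    calc x ^ 2 = x * (y * z) := by rw [← hx]; ring
      _ = z * (x * y) := by ring
      _ = z ^ 2 := by rw [← hz]; ring
  have hp : x ^ 2 = x * y * z := by
    calc x ^ 2 = x * (y * z) := by rw [← hx]; ring
      _ = x * y * z := by ring
  have h1 : x ^ 2 = 1 + δ ^ 2 := by nlinarith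
  have h2 : x ^ 2 = x ^ 2 * x ^ 2 := by
    calc x ^ 2 = (y * z) ^ 2 := by rw [← hx]
      _ = y ^ 2 * z ^ 2 := by ring
      _ = x ^ 2 * x ^ 2 := by rw [← hxy, ← hxz]
  have h3 : 0 < δ ^ 2 := by positivity
  nlinarith

/-! ### the recursion of the frozen statement -/

lemma iter_cheb (b : ℕ) (p : P3) :
    (stepR^[b] p).z = p.x * (Polynomial.Chebyshev.U ℝ ((b : ℤ) - 1)).eval p.y
        - p.z * (Polynomial.Chebyshev.U ℝ ((b : ℤ) - 2)).eval p.y ∧
    (stepR^[b] p).x = p.x * (Polynomial.Chebyshev.U ℝ (b : ℤ)).eval p.y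
        - p.z * (Polynomial.Chebyshev.U ℝ ((b : ℤ) - 1)).eval p.y := by
  induction b with
  | zero =>
    constructor
    · simp [Polynomial.Chebyshev.U_neg_two]
    · simp
  | succ b ih =>
    rw [Function.iterate_succ_apply']
    constructor
    · show (stepR^[b] p).x = _
      rw [ih.2]
      have e1 : ((b + 1 : ℕ) : ℤ) - 1 = b := by push_cast; ring
      have e2 : ((b + 1 : ℕ) : ℤ) - 2 = (b : ℤ) - 1 := by push_cast; ring
      rw [e1, e2]
    · show 2 * (stepR^[b] p).x * (stepR^[b] p).y - (stepR^[b] p).z = _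
      rw [ih.1, ih.2, iter_y]
      have e1 := Polynomial.Chebyshev.U_add_one ℝ (b : ℤ)
      have e2 : Polynomial.Chebyshev.U ℝ (b : ℤ) = 2 * Polynomial.X *
          Polynomial.Chebyshev.U ℝ ((b : ℤ) - 1) - Polynomial.Chebyshev.U ℝ ((b : ℤ) - 2) := by
        have := Polynomial.Chebyshev.U_add_one ℝ ((b : ℤ) - 1)
        rw [sub_add_cancel] at this
        rw [this]; congr 2; ring
      have e1' := congrArg (Polynomial.eval p.y) e1
      have e2' := congrArg (Polynomial.eval p.y) e2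
      simp only [Polynomial.eval_sub, Polynomial.eval_mul, Polynomial.eval_X,
        Polynomial.eval_ofNat] at e1' e2'
      push_cast
      rw [add_sub_cancel_right, e1', e2']
      ring

lemma step_eq (b : ℕ) (q : ℝ × ℝ × ℝ) : tp (stepT b (pt q)) =
    (q.1 * (Polynomial.Chebyshev.U ℝ (b : ℤ)).eval q.2.1
        - q.2.2 * (Polynomial.Chebyshev.U ℝ ((b : ℤ) - 1)).eval q.2.1,
      q.1 * (Polynomial.Chebyshev.U ℝ ((b : ℤ) - 1)).eval q.2.1
        - q.2.2 * (Polynomial.Chebyshev.U ℝ ((b : ℤ) - 2)).eval q.2.1,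
      q.2.1) := by
  have h := iter_cheb b (pt q)
  have h2 := iter_y b (pt q)
  show ((stepR^[b] (pt q)).x, (stepR^[b] (pt q)).z, (stepR^[b] (pt q)).y) = _
  rw [h.1, h.2, h2]
  rfl

end Pool.Agent.H812.Tm
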