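import Mathlib
import Pool.Agent.H812.Tm.Asm1
import Pool.Graph.R_seed8.W965.Stu.CF

/-!
# Assembly 2: the set of bounded orbits
-/

set_option autoImplicit false

open Real Filter Topology Set
open scoped ContDiff

namespace Pool.Agent.H812.Tm

open Pool.Agent.W811.Stu

/-- the set of bounded orbits -/
def WS (δ : ℝ) (d : ℕ → ℕ) : Set (ℝ × ℝ × ℝ) :=
  {q | FS δ q = 0 ∧ ∀ m, ¬ Op (orb d (pt q) m)}

lemma continuous_orb (d : ℕ → ℕ) (m : ℕ) : Continuous (fo d m) := (fo_smooth d m).continuous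

lemma isOpen_Op (d : ℕ → ℕ) (m : ℕ) : IsOpen {q : ℝ × ℝ × ℝ | Op (orb d (pt q) m)} := by
  have hx : Continuous fun q : ℝ × ℝ × ℝ => (orb d (pt q) m).x :=
    continuous_fst.comp (continuous_orb d m)
  have hy : Continuous fun q : ℝ × ℝ × ℝ => (orb d (pt q) m).y :=
    (continuous_fst.comp continuous_snd).comp (continuous_orb d m)
  have hz : Continuous fun q : ℝ × ℝ × ℝ => (orb d (pt q) m).z :=
    (continuous_snd.comp continuous_snd).comp (continuous_orb d m)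
  unfold Op
  simp only [ofPred_and]
  exact (isOpen_lt continuous_const hz.abs).inter
    ((isOpen_lt continuous_const hy.abs).inter (isOpen_lt hz.abs hx.abs))

lemma isClosed_WS (δ : ℝ) (d : ℕ → ℕ) : IsClosed (WS δ d) := by
  unfold WS
  rw [ofPred_and]
  refine IsClosed.inter (isClosed_eq (FS_smooth δ).continuous continuous_const) ?_
  rw [ofPred_forall]
  refine isClosed_iInter fun m => ?_
  exact (isOpen_Op d m).isClosed_compl

lemma alive_bdd {δ : ℝ} (hδ : δ ≠ 0) {d : ℕ → ℕ} (hd : ∀ k, 1 ≤ d k) {p : P3} (hp : OnS δ p)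
    (hz : |p.z| ≤ 1) (ha : Alive d p) : ∃ C : ℝ, ∀ j, |(orb d p j).y| ≤ C := by
  obtain ⟨C, hC1, hC⟩ := Pool.Agent.W816.Stu.bddL δ hδ
  refine ⟨C, fun j => ?_⟩
  rcases ha (j + 1) with h | h
  · exact (hC d hd p hp hz (j + 1) h j (by omega)).2.2.1
  · exact (hC d hd p hp hz (j + 2) h j (by omega)).2.2.1

lemma mem_WS_of_alive (hE : SEsc) {δ : ℝ} (hδ : δ ≠ 0) {d : ℕ → ℕ} (hd : ∀ k, 1 ≤ d k)
    {q : ℝ × ℝ × ℝ} (hq : FS δ q = 0) (n : ℕ) (hz : |(orb d (pt q) n).z| ≤ 1)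
    (ha : Alive (shd d n) (orb d (pt q) n)) : q ∈ WS δ d := by
  refine ⟨hq, fun m hm => ?_⟩
  have hq' := FS_iff.1 hq
  have hd' : ∀ k, 1 ≤ shd d n k := fun k => hd _
  obtain ⟨C, hC⟩ := alive_bdd hδ hd' (hq'.orb d n) hz ha
  have hun := (hE δ hδ d hd (pt q) hq').1 ⟨m, hm⟩
  obtain ⟨m', hm'⟩ := hun (max C (∑ i ∈ Finset.range n, |(orb d (pt q) i).y|))
  by_cases h : m' < n
  · have : |(orb d (pt q) m').y| ≤ ∑ i ∈ Finset.range n, |(orb d (pt q) i).y| :=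
      Finset.single_le_sum (f := fun i => |(orb d (pt q) i).y|) (fun i _ => abs_nonneg _)
        (Finset.mem_range.2 h)
    have h2 := (le_max_right C (∑ i ∈ Finset.range n, |(orb d (pt q) i).y|)).trans_lt hm'
    linarith
  · obtain ⟨k, rfl⟩ := Nat.exists_eq_add_of_le (Nat.le_of_not_lt h)
    have h1 := hC k
    have h2 := (le_max_left C (∑ i ∈ Finset.range n, |(orb d (pt q) i).y|)).trans_lt hm'
    rw [orb_add] at h2
    have h3 : |(orb (fun k => d (n + k)) (orb d (pt q) n) k).y| ≤ C := h1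
    linarith

lemma alive_of_mem_WS (hE : SEsc) {δ : ℝ} (hδ : δ ≠ 0) {d : ℕ → ℕ} (hd : ∀ k, 1 ≤ d k)
    {q : ℝ × ℝ × ℝ} (hq : q ∈ WS δ d) (n : ℕ) (hz : |(orb d (pt q) n).z| ≤ 1) :
    Alive (shd d n) (orb d (pt q) n) :=
  ((hE δ hδ d hd (pt q) (FS_iff.1 hq.1)).2 hq.2).2.1 n hz

lemma exists_strip (hE : SEsc) {δ : ℝ} (hδ : δ ≠ 0) {d : ℕ → ℕ} (hd : ∀ k, 1 ≤ d k)
    {q : ℝ × ℝ × ℝ} (hq : q ∈ WS δ d) : ∃ n, |(orb d (pt q) n).z| < 1 :=
  ((hE δ hδ d hd (pt q) (FS_iff.1 hq.1)).2 hq.2).1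

lemma orbit_eq {a : ℕ → ℤ} {d : ℕ → ℕ} (ha : ∀ n, a n = (d n : ℤ)) {q : ℕ → ℝ × ℝ × ℝ}
    {p : ℝ × ℝ × ℝ} (h0 : q 0 = p) (hs : ∀ n, q (n + 1) =
      ((q n).1 * (Polynomial.Chebyshev.U ℝ (a n)).eval (q n).2.1
          - (q n).2.2 * (Polynomial.Chebyshev.U ℝ (a n - 1)).eval (q n).2.1,
        (q n).1 * (Polynomial.Chebyshev.U ℝ (a n - 1)).eval (q n).2.1
          - (q n).2.2 * (Polynomial.Chebyshev.U ℝ (a n - 2)).eval (q n).2.1,
        (q n).2.1)) (n : ℕ) : q n = fo d n p := by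
  induction n with
  | zero => rw [h0]; rfl
  | succ n ih =>
    rw [hs n, ha n, ← step_eq, ih]
    rfl

lemma norm_tp_le {p : P3} {C : ℝ} (h1 : |p.z| ≤ C) (h2 : |p.y| ≤ C) (h3 : |p.x| ≤ C) :
    ‖tp p‖ ≤ C := by
  unfold tp
  rw [Prod.norm_def, Prod.norm_def]
  simp only [Real.norm_eq_abs]
  exact max_le h3 (max_le h2 h1)

lemma abs_y_le_norm (p : P3) : |p.y| ≤ ‖tp p‖ := by
  unfold tp
  rw [Prod.norm_def, Prod.norm_def]
  simp only [Real.norm_eq_abs]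
  exact le_trans (le_max_left _ _) (le_max_right _ _)

theorem frozen_set (hE : SEsc) {c α : ℝ} (hc : 0 < c) (hα : Irrational α) (h0 : 0 < α)
    (h1 : α < 1) :
    {p : ℝ × ℝ × ℝ |
            p.1 ^ 2 + p.2.1 ^ 2 + p.2.2 ^ 2 - 2 * p.1 * p.2.1 * p.2.2 = 1 + c ^ 2 / 4 ∧
            ∀ a : ℕ → ℤ, ∀ q : ℕ → ℝ × ℝ × ℝ,
              (∀ n, a n = ((⌊((fun x : ℝ => Int.fract x⁻¹)^[n] α)⁻¹⌋₊ : ℕ) : ℤ)) →
              q 0 = p →
              (∀ n, q (n + 1) =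
                ((q n).1 * (Polynomial.Chebyshev.U ℝ (a n)).eval (q n).2.1
                    - (q n).2.2 * (Polynomial.Chebyshev.U ℝ (a n - 1)).eval (q n).2.1,
                  (q n).1 * (Polynomial.Chebyshev.U ℝ (a n - 1)).eval (q n).2.1
                    - (q n).2.2 * (Polynomial.Chebyshev.U ℝ (a n - 2)).eval (q n).2.1,
                  (q n).2.1)) →
              ∃ C : ℝ, ∀ n, ‖q n‖ ≤ C} = WS (c / 2) (dig α) := by
  have hδ : c / 2 ≠ 0 := by positivity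
  have hd : ∀ k, 1 ≤ dig α k := fun k => Pool.Agent.W965.Stu.dig_pos hα h0 h1 k
  ext p
  constructor
  · rintro ⟨hp, hb⟩
    have hF : FS (c / 2) p = 0 := by
      unfold FS
      have : (c / 2) ^ 2 = c ^ 2 / 4 := by ring
      rw [this]; linarith
    refine ⟨hF, fun m hm => ?_⟩
    obtain ⟨C, hC⟩ := hb (fun n => (dig α n : ℤ)) (fun n => fo (dig α) n p) (fun n => rfl) rfl
      (fun n => by
        have := step_eq (dig α n) (fo (dig α) n p)
        rw [← this]; rfl)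
    obtain ⟨m', hm'⟩ := (hE (c / 2) hδ (dig α) hd (pt p) (FS_iff.1 hF)).1 ⟨m, hm⟩ C
    have h2 := abs_y_le_norm (orb (dig α) (pt p) m')
    have h3 := hC m'
    have h4 : ‖tp (orb (dig α) (pt p) m')‖ ≤ C := h3
    linarith
  · rintro ⟨hF, hm⟩
    refine ⟨?_, ?_⟩
    · unfold FS at hF
      have : (c / 2) ^ 2 = c ^ 2 / 4 := by ring
      rw [this] at hF; linarith
    · intro a q ha hq0 hs
      obtain ⟨C, hC⟩ := ((hE (c / 2) hδ (dig α) hd (pt p) (FS_iff.1 hF)).2 hm).2.2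
      refine ⟨C, fun n => ?_⟩
      rw [orbit_eq (d := dig α) ha hq0 hs n]
      exact norm_tp_le (hC n).1 (hC n).2.1 (hC n).2.2

end Pool.Agent.H812.Tm
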