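import Mathlib
import Pool.Agent.H812.Tm.Asm2

/-!
# Assembly 3: local inverse of the parametrisation, the line fields of all stages
-/

set_option autoImplicit false

open Real Filter Topology Set
open scoped ContDiff

namespace Pool.Agent.H812.Tm

open Pool.Agent.W811.Stu

lemma two_le_inf : (1 : WithTop ℕ∞) + 1 ≤ ∞ := by
  have : (2 : ℕ∞) ≤ ⊤ := le_top
  have h2 : ((2 : ℕ∞) : WithTop ℕ∞) ≤ ((⊤ : ℕ∞) : WithTop ℕ∞) := WithTop.coe_le_coe.2 this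
  calc (1:WithTop ℕ∞) + 1 = ((2 : ℕ∞) : WithTop ℕ∞) := by norm_num
    _ ≤ _ := h2

lemma isOpen_U : IsOpen U := by
  unfold U
  exact isOpen_lt continuous_fst.abs continuous_const

/-- the parametrisation in the coordinates of the frozen statement -/
noncomputable def zh (δ : ℝ) (v : ℝ × ℝ) : ℝ × ℝ × ℝ := tp (ze δ v)

lemma zh_smooth (hC : SCoord) (δ : ℝ) : ContDiffOn ℝ ∞ (zh δ) U := by
  have h := (hC δ).2.2.1
  have h2 : ContDiffOn ℝ ∞ (fun v => ((toL (ze δ v)).2.2, (toL (ze δ v)).2.1, (toL (ze δ v)).1)) U :=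
    (contDiff_snd.comp_contDiffOn (contDiff_snd.comp_contDiffOn h)).prodMk
      ((contDiff_fst.comp_contDiffOn (contDiff_snd.comp_contDiffOn h)).prodMk
        (contDiff_fst.comp_contDiffOn h))
  exact h2

lemma zh_smoothAt (hC : SCoord) (δ : ℝ) {v : ℝ × ℝ} (hv : v ∈ U) : ContDiffAt ℝ ∞ (zh δ) v :=
  (zh_smooth hC δ).contDiffAt (isOpen_U.mem_nhds hv)

lemma Bf_sq {δ z : ℝ} (hz : |z| < 1) : Bf δ z ^ 2 * (1 - z ^ 2) = 1 + δ ^ 2 - z ^ 2 := by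
  have h1 : 0 < 1 - z ^ 2 := by
    have := (sq_lt_one_iff_abs_lt_one z).2 hz; linarith
  unfold Bf
  rw [Real.sq_sqrt (div_nonneg (by nlinarith [sq_nonneg δ]) h1.le)]
  field_simp

lemma Bf_pos {δ z : ℝ} (hz : |z| < 1) : 0 < Bf δ z := by
  have h1 : 0 < 1 - z ^ 2 := by
    have := (sq_lt_one_iff_abs_lt_one z).2 hz; linarith
  unfold Bf
  apply Real.sqrt_pos.2
  apply div_pos _ h1
  nlinarith [sq_nonneg δ]

/-- `cos ϑ` -/
noncomputable def cq (δ : ℝ) (q : ℝ × ℝ × ℝ) : ℝ := q.2.1 / Bf δ q.2.2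
/-- `sin ϑ` -/
noncomputable def sq (δ : ℝ) (q : ℝ × ℝ × ℝ) : ℝ :=
  (q.1 - q.2.2 * q.2.1) / (Bf δ q.2.2 * √(1 - q.2.2 ^ 2))

/-- local inverse of the parametrisation -/
noncomputable def Lam (δ ϑ0 : ℝ) (q : ℝ × ℝ × ℝ) : ℝ × ℝ :=
  (q.2.2, ϑ0 + arcsin (sq δ q * cos ϑ0 - cq δ q * sin ϑ0))

lemma root_pos {z : ℝ} (hz : |z| < 1) : 0 < √(1 - z ^ 2) := by
  apply Real.sqrt_pos.2
  have := (sq_lt_one_iff_abs_lt_one z).2 hz; linarith

lemma cq_zh {δ : ℝ} {v : ℝ × ℝ} (hv : v ∈ U) : cq δ (zh δ v) = cos v.2 := by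
  have h : 0 < Bf δ v.1 := Bf_pos hv
  unfold cq zh tp ze
  simp only
  field_simp

lemma sq_zh {δ : ℝ} {v : ℝ × ℝ} (hv : v ∈ U) : sq δ (zh δ v) = sin v.2 := by
  have h : 0 < Bf δ v.1 := Bf_pos hv
  have h2 := root_pos hv
  unfold sq zh tp ze
  simp only
  field_simp
  ring

lemma cq_sq {δ : ℝ} {q : ℝ × ℝ × ℝ} (hz : |q.2.2| < 1) (hq : FS δ q = 0) :
    cq δ q ^ 2 + sq δ q ^ 2 = 1 := by
  have h := Bf_pos (δ := δ) hz
  have h2 := root_pos hz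
  have h3 := Bf_sq (δ := δ) hz
  have h4 : √(1 - q.2.2 ^ 2) ^ 2 = 1 - q.2.2 ^ 2 := by
    apply Real.sq_sqrt
    have := (sq_lt_one_iff_abs_lt_one _).2 hz; linarith
  unfold FS at hq
  unfold cq sq
  rw [div_pow, div_pow, mul_pow, h4]
  have h5 : 0 < 1 - q.2.2 ^ 2 := by rw [← h4]; positivity
  have h6 : 0 < Bf δ q.2.2 ^ 2 := by positivity
  field_simp
  nlinarith [hq, h3]

lemma Lam_zh {δ : ℝ} {v : ℝ × ℝ} (hv : v ∈ U) : Lam δ v.2 (zh δ v) = v := by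
  unfold Lam
  rw [cq_zh hv, sq_zh hv]
  have : sin v.2 * cos v.2 - cos v.2 * sin v.2 = 0 := by ring
  rw [this, arcsin_zero, add_zero]
  rfl

lemma zh_Lam {δ ϑ0 : ℝ} {q : ℝ × ℝ × ℝ} (hz : |q.2.2| < 1) (hq : FS δ q = 0)
    (hp : 0 < cq δ q * cos ϑ0 + sq δ q * sin ϑ0) : zh δ (Lam δ ϑ0 q) = q := by
  have h := Bf_pos (δ := δ) hz
  have h2 := root_pos hz
  have h1 := cq_sq hz hq
  have hcs := Real.sin_sq_add_cos_sq ϑ0
  set C := cq δ q with hC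
  set S := sq δ q with hS
  set s := S * cos ϑ0 - C * sin ϑ0 with hs
  set c := C * cos ϑ0 + S * sin ϑ0 with hc
  have hsc : s ^ 2 + c ^ 2 = 1 := by
    rw [hs, hc]
    have : (S * cos ϑ0 - C * sin ϑ0) ^ 2 + (C * cos ϑ0 + S * sin ϑ0) ^ 2 =
        (C ^ 2 + S ^ 2) * (sin ϑ0 ^ 2 + cos ϑ0 ^ 2) := by ring
    rw [this, h1, hcs, one_mul]
  have hs1 : -1 ≤ s := by nlinarith
  have hs2 : s ≤ 1 := by nlinarith
  have e1 : sin (arcsin s) = s := Real.sin_arcsin hs1 hs2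
  have e2 : cos (arcsin s) = c := by
    rw [Real.cos_arcsin]
    have : 1 - s ^ 2 = c ^ 2 := by linarith
    rw [this, Real.sqrt_sq hp.le]
  have e3 : cos (ϑ0 + arcsin s) = C := by
    rw [Real.cos_add, e1, e2, hs, hc]
    have : cos ϑ0 * (C * cos ϑ0 + S * sin ϑ0) - sin ϑ0 * (S * cos ϑ0 - C * sin ϑ0) =
        C * (sin ϑ0 ^ 2 + cos ϑ0 ^ 2) := by ring
    rw [this, hcs, mul_one]
  have e4 : sin (ϑ0 + arcsin s) = S := by
    rw [Real.sin_add, e1, e2, hs, hc]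
    have : sin ϑ0 * (C * cos ϑ0 + S * sin ϑ0) + cos ϑ0 * (S * cos ϑ0 - C * sin ϑ0) =
        S * (sin ϑ0 ^ 2 + cos ϑ0 ^ 2) := by ring
    rw [this, hcs, mul_one]
  have hL : Lam δ ϑ0 q = (q.2.2, ϑ0 + arcsin s) := rfl
  rw [hL]
  unfold zh tp ze
  simp only
  rw [e3, e4]
  have e5 : Bf δ q.2.2 * C = q.2.1 := by rw [hC]; unfold cq; field_simp
  have e6 : Bf δ q.2.2 * √(1 - q.2.2 ^ 2) * S = q.1 - q.2.2 * q.2.1 := by
    rw [hS]; unfold sq; field_simp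
  have e7 : Bf δ q.2.2 * (q.2.2 * C + √(1 - q.2.2 ^ 2) * S) = q.1 := by
    calc _ = q.2.2 * (Bf δ q.2.2 * C) + Bf δ q.2.2 * √(1 - q.2.2 ^ 2) * S := by ring
      _ = q.1 := by rw [e5, e6]; ring
  rw [e5, e7]

lemma Bf_smoothAt {δ z : ℝ} (hz : |z| < 1) : ContDiffAt ℝ ∞ (Bf δ) z := by
  have h1 : 0 < 1 - z ^ 2 := by
    have := (sq_lt_one_iff_abs_lt_one z).2 hz; linarith
  unfold Bf
  apply ContDiffAt.sqrt
  · apply ContDiffAt.div
    · fun_prop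
    · fun_prop
    · exact h1.ne'
  · apply ne_of_gt
    apply div_pos _ h1
    nlinarith [sq_nonneg δ]

lemma root_smoothAt {z : ℝ} (hz : |z| < 1) : ContDiffAt ℝ ∞ (fun z : ℝ => √(1 - z ^ 2)) z := by
  have h1 : 0 < 1 - z ^ 2 := by
    have := (sq_lt_one_iff_abs_lt_one z).2 hz; linarith
  apply ContDiffAt.sqrt
  · fun_prop
  · exact h1.ne'

lemma cq_smoothAt {δ : ℝ} {q : ℝ × ℝ × ℝ} (hz : |q.2.2| < 1) : ContDiffAt ℝ ∞ (cq δ) q := by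
  unfold cq
  apply ContDiffAt.div
  · fun_prop
  · exact ContDiffAt.comp (g := Bf δ) q (Bf_smoothAt hz) (contDiffAt_snd.comp q contDiffAt_snd)
  · exact (Bf_pos hz).ne'

lemma sq_smoothAt {δ : ℝ} {q : ℝ × ℝ × ℝ} (hz : |q.2.2| < 1) : ContDiffAt ℝ ∞ (sq δ) q := by
  unfold sq
  apply ContDiffAt.div
  · fun_prop
  · apply ContDiffAt.mul
    · exact ContDiffAt.comp (g := Bf δ) q (Bf_smoothAt hz)
        (contDiffAt_snd.comp q contDiffAt_snd)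
    · exact ContDiffAt.comp (g := fun z : ℝ => √(1 - z ^ 2)) q (root_smoothAt hz)
        (contDiffAt_snd.comp q contDiffAt_snd)
  · exact (mul_pos (Bf_pos hz) (root_pos hz)).ne'

lemma Lam_smoothAt {δ : ℝ} {v : ℝ × ℝ} (hv : v ∈ U) :
    ContDiffAt ℝ ∞ (Lam δ v.2) (zh δ v) := by
  have hz : |(zh δ v).2.2| < 1 := hv
  unfold Lam
  apply ContDiffAt.prodMk
  · fun_prop
  · apply ContDiffAt.add contDiffAt_const
    have h0 : sq δ (zh δ v) * cos v.2 - cq δ (zh δ v) * sin v.2 = 0 := by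
      rw [cq_zh hv, sq_zh hv]; ring
    have h1 : ContDiffAt ℝ ∞ (fun q => sq δ q * cos v.2 - cq δ q * sin v.2) (zh δ v) :=
      ((sq_smoothAt hz).mul contDiffAt_const).sub ((cq_smoothAt hz).mul contDiffAt_const)
    have h2 : ContDiffAt ℝ ∞ arcsin (sq δ (zh δ v) * cos v.2 - cq δ (zh δ v) * sin v.2) := by
      rw [h0]
      exact Real.contDiffAt_arcsin (by norm_num) (by norm_num)
    exact ContDiffAt.comp (g := arcsin) (zh δ v) h2 h1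

lemma eventually_zh_Lam {δ : ℝ} {v : ℝ × ℝ} (hv : v ∈ U) :
    ∀ᶠ q in 𝓝[{q | FS δ q = 0}] (zh δ v), Lam δ v.2 q ∈ U ∧ zh δ (Lam δ v.2 q) = q := by
  have hz : |(zh δ v).2.2| < 1 := hv
  have h1 : ∀ᶠ q in 𝓝 (zh δ v), |q.2.2| < 1 := by
    have hc : Continuous fun q : ℝ × ℝ × ℝ => |q.2.2| :=
      (continuous_snd.comp continuous_snd).abs
    exact hc.continuousAt.eventually_lt continuousAt_const hz
  have h2 : ∀ᶠ q in 𝓝 (zh δ v), 0 < cq δ q * cos v.2 + sq δ q * sin v.2 := by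
    have hc : ContinuousAt (fun q => cq δ q * cos v.2 + sq δ q * sin v.2) (zh δ v) :=
      ((cq_smoothAt hz).continuousAt.mul continuousAt_const).add
        ((sq_smoothAt hz).continuousAt.mul continuousAt_const)
    refine continuousAt_const.eventually_lt hc ?_
    rw [cq_zh hv, sq_zh hv]
    have := Real.sin_sq_add_cos_sq v.2
    nlinarith
  filter_upwards [mem_nhdsWithin_of_mem_nhds h1, mem_nhdsWithin_of_mem_nhds h2,
    self_mem_nhdsWithin] with q hq1 hq2 hq3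
  exact ⟨hq1, zh_Lam hq1 hq3 hq2⟩

/-! ### periodicity -/

lemma zh_inj {δ : ℝ} {v v' : ℝ × ℝ} (hv : v ∈ U) (hv' : v' ∈ U) (h : zh δ v = zh δ v') :
    ∃ k : ℤ, v = v' + (0, k * (2 * π)) := by
  have h1 : v.1 = v'.1 := congrArg (fun q : ℝ × ℝ × ℝ => q.2.2) h
  have h2 : cos v.2 = cos v'.2 := by rw [← cq_zh (δ := δ) hv, h, cq_zh hv']
  have h3 : sin v.2 = sin v'.2 := by rw [← sq_zh (δ := δ) hv, h, sq_zh hv']
  have h4 : (v.2 : Real.Angle) = v'.2 := Real.Angle.cos_sin_inj h2 h3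
  rw [Real.Angle.angle_eq_iff_two_pi_dvd_sub] at h4
  obtain ⟨k, hk⟩ := h4
  refine ⟨k, ?_⟩
  ext
  · simp [h1]
  · simp only [Prod.snd_add]; linarith

lemma per_int {F : Type*} (f : ℝ × ℝ → F) (h : ∀ z ϑ, f (z, ϑ + 2 * π) = f (z, ϑ)) (k : ℤ)
    (v : ℝ × ℝ) : f (v + (0, k * (2 * π))) = f v := by
  have hp : Function.Periodic (fun t => f (v.1, t)) (2 * π) := fun t => h v.1 t
  have := hp.int_mul k v.2
  have e : v + (0, (k : ℝ) * (2 * π)) = (v.1, v.2 + k * (2 * π)) := by ext <;> simp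
  rw [e]
  exact this

lemma zh_per (hC : SCoord) (δ : ℝ) (k : ℤ) (v : ℝ × ℝ) :
    zh δ (v + (0, k * (2 * π))) = zh δ v :=
  per_int (zh δ) (fun z ϑ => by unfold zh; rw [(hC δ).2.2.2.1]) k v

lemma fderiv_per {F : Type*} [NormedAddCommGroup F] [NormedSpace ℝ F] (f : ℝ × ℝ → F) (w : ℝ × ℝ)
    (h : ∀ v, f (v + w) = f v) (v : ℝ × ℝ) : fderiv ℝ f (v + w) = fderiv ℝ f v := by
  have : (fun v => f (v + w)) = f := funext h
  rw [← fderiv_comp_add_right (f := f) w, this]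

/-- the line field at a stage -/
noncomputable def Gh (θ : ℝ → ℝ) (δ : ℝ) (d : ℕ → ℕ) (q : ℝ × ℝ × ℝ) : ℝ × ℝ × ℝ :=
  open Classical in
  if h : ∃ v, v ∈ U ∧ zh δ v = q then fderiv ℝ (zh δ) h.choose (1, sg θ δ d h.choose) else 0

lemma Gh_zh (hC : SCoord) {θ : ℝ → ℝ} {δ : ℝ} {d : ℕ → ℕ}
    (hs : ∀ z ϑ, sg θ δ d (z, ϑ + 2 * π) = sg θ δ d (z, ϑ)) {v : ℝ × ℝ} (hv : v ∈ U) :
    Gh θ δ d (zh δ v) = fderiv ℝ (zh δ) v (1, sg θ δ d v) := by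
  have h : ∃ w, w ∈ U ∧ zh δ w = zh δ v := ⟨v, hv, rfl⟩
  unfold Gh
  rw [dif_pos h]
  obtain ⟨k, hk⟩ := zh_inj h.choose_spec.1 hv h.choose_spec.2
  rw [hk, fderiv_per (zh δ) _ (fun v => zh_per hC δ k v), per_int _ hs]

/-- the line field of stage `n` in the original coordinates -/
noncomputable def En (θ : ℝ → ℝ) (δ : ℝ) (d : ℕ → ℕ) (n : ℕ) (q : ℝ × ℝ × ℝ) : ℝ × ℝ × ℝ :=
  fderiv ℝ (go d n) (fo d n q) (Gh θ δ (shd d n) (fo d n q))

/-- the domain of the field of stage `n` -/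
def Om (d : ℕ → ℕ) (n : ℕ) : Set (ℝ × ℝ × ℝ) := {q | |(fo d n q).2.2| < 1}

lemma isOpen_Om (d : ℕ → ℕ) (n : ℕ) : IsOpen (Om d n) := by
  unfold Om
  have hz : Continuous fun q : ℝ × ℝ × ℝ => (fo d n q).2.2 :=
    (continuous_snd.comp continuous_snd).comp (continuous_orb d n)
  exact isOpen_lt hz.abs continuous_const

lemma exists_zh (hC : SCoord) {δ : ℝ} {q : ℝ × ℝ × ℝ} (hq : FS δ q = 0) (hz : |q.2.2| < 1) :
    ∃ v ∈ U, zh δ v = q := by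
  obtain ⟨ϑ, hϑ⟩ := (hC δ).2.1 (pt q) (FS_iff.1 hq) hz
  exact ⟨(q.2.2, ϑ), hz, by unfold zh; rw [show ze δ (q.2.2, ϑ) = pt q from hϑ]; rfl⟩

lemma zh_FS (hC : SCoord) {δ : ℝ} {v : ℝ × ℝ} (hv : v ∈ U) : FS δ (zh δ v) = 0 :=
  FS_tp.2 ((hC δ).1 v hv)

lemma fderiv_go_fo (d : ℕ → ℕ) (n : ℕ) (q w : ℝ × ℝ × ℝ) :
    fderiv ℝ (fo d n) q (fderiv ℝ (go d n) (fo d n q) w) = w := by
  have h1 : HasFDerivAt (go d n) (fderiv ℝ (go d n) (fo d n q)) (fo d n q) :=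
    ((go_smooth d n).differentiable (by norm_num)).differentiableAt.hasFDerivAt
  have h2 : HasFDerivAt (fo d n) (fderiv ℝ (fo d n) q) (go d n (fo d n q)) := by
    rw [go_fo]
    exact ((fo_smooth d n).differentiable (by norm_num)).differentiableAt.hasFDerivAt
  have h3 := h2.comp (fo d n q) h1
  have h4 : (fo d n ∘ go d n) = id := by
    funext x; exact fo_go d n x
  rw [h4] at h3
  have h5 := h3.unique (hasFDerivAt_id (fo d n q))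
  have := congrArg (fun L : (ℝ × ℝ × ℝ) →L[ℝ] (ℝ × ℝ × ℝ) => L w) h5
  simpa using this

lemma fderiv_fo_En (θ : ℝ → ℝ) (δ : ℝ) (d : ℕ → ℕ) (n : ℕ) (q : ℝ × ℝ × ℝ) :
    fderiv ℝ (fo d n) q (En θ δ d n q) = Gh θ δ (shd d n) (fo d n q) := by
  unfold En; rw [fderiv_go_fo]

lemma fderiv_zh_z (hC : SCoord) {δ : ℝ} {v : ℝ × ℝ} (hv : v ∈ U) (w : ℝ × ℝ) :
    (fderiv ℝ (zh δ) v w).2.2 = w.1 := by
  have h1 : HasFDerivAt (zh δ) (fderiv ℝ (zh δ) v) v :=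
    ((zh_smoothAt hC δ hv).differentiableAt (by norm_num)).hasFDerivAt
  have h2 := (hasFDerivAt_snd (𝕜 := ℝ) (E := ℝ) (F := ℝ) (p := (zh δ v).2)).comp v
    ((hasFDerivAt_snd (𝕜 := ℝ) (E := ℝ) (F := ℝ × ℝ) (p := zh δ v)).comp v h1)
  have h3 : HasFDerivAt (fun v : ℝ × ℝ => v.1) _ v := h2
  have h4 := h3.unique hasFDerivAt_fst
  have := congrArg (fun L : (ℝ × ℝ) →L[ℝ] ℝ => L w) h4
  simpa using this

lemma fderiv_FS_zh (hC : SCoord) {δ : ℝ} {v : ℝ × ℝ} (hv : v ∈ U) (w : ℝ × ℝ) :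
    fderiv ℝ (FS δ) (zh δ v) (fderiv ℝ (zh δ) v w) = 0 := by
  have h1 : HasFDerivAt (zh δ) (fderiv ℝ (zh δ) v) v :=
    ((zh_smoothAt hC δ hv).differentiableAt (by norm_num)).hasFDerivAt
  have h2 : HasFDerivAt (FS δ) (fderiv ℝ (FS δ) (zh δ v)) (zh δ v) :=
    ((FS_smooth δ).differentiable (by norm_num)).differentiableAt.hasFDerivAt
  have h3 := h2.comp v h1
  have h4 : (FS δ ∘ zh δ) =ᶠ[𝓝 v] fun _ => (0 : ℝ) := by
    filter_upwards [isOpen_U.mem_nhds hv] with u hu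
    exact zh_FS hC hu
  have h5 := h3.congr_of_eventuallyEq h4.symm
  have h6 := h5.unique (hasFDerivAt_const (0 : ℝ) v)
  have := congrArg (fun L : (ℝ × ℝ) →L[ℝ] ℝ => L w) h6
  simpa using this

lemma fderiv_FS_fo (δ : ℝ) (d : ℕ → ℕ) (n : ℕ) (q w : ℝ × ℝ × ℝ) :
    fderiv ℝ (FS δ) (fo d n q) (fderiv ℝ (fo d n) q w) = fderiv ℝ (FS δ) q w := by
  have h1 : HasFDerivAt (fo d n) (fderiv ℝ (fo d n) q) q :=
    ((fo_smooth d n).differentiable (by norm_num)).differentiableAt.hasFDerivAt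
  have h2 : HasFDerivAt (FS δ) (fderiv ℝ (FS δ) (fo d n q)) (fo d n q) :=
    ((FS_smooth δ).differentiable (by norm_num)).differentiableAt.hasFDerivAt
  have h3 := h2.comp q h1
  have h4 : (FS δ ∘ fo d n) = FS δ := by
    funext x; exact FS_fo δ d n x
  rw [h4] at h3
  have h5 : HasFDerivAt (FS δ) (fderiv ℝ (FS δ) q) q :=
    ((FS_smooth δ).differentiable (by norm_num)).differentiableAt.hasFDerivAt
  have h6 := h3.unique h5
  have := congrArg (fun L : (ℝ × ℝ × ℝ) →L[ℝ] ℝ => L w) h6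
  simpa using this

/-- hypotheses on the slope fields of all stages -/
def HSg (θ : ℝ → ℝ) (δ : ℝ) (d : ℕ → ℕ) : Prop :=
  ∀ n, ContDiffOn ℝ 1 (sg θ δ (shd d n)) U ∧
    ∀ z ϑ, sg θ δ (shd d n) (z, ϑ + 2 * π) = sg θ δ (shd d n) (z, ϑ)

lemma En_c1 (hC : SCoord) {θ : ℝ → ℝ} {δ : ℝ} {d : ℕ → ℕ} (hs : HSg θ δ d) (n : ℕ)
    {p : ℝ × ℝ × ℝ} (hp : p ∈ Om d n) (hF : FS δ p = 0) :
    C1At {q | FS δ q = 0} (En θ δ d n) p := by
  obtain ⟨v, hv, hvp⟩ := exists_zh (δ := δ) hC (q := fo d n p) (by rw [FS_fo, hF]) hp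
  have hL := Lam_smoothAt (δ := δ) hv
  have hLp : Lam δ v.2 (fo d n p) = v := by rw [← hvp]; exact Lam_zh hv
  refine ⟨fun q => fderiv ℝ (go d n) (fo d n q) (fderiv ℝ (zh δ) (Lam δ v.2 (fo d n q))
    (1, sg θ δ (shd d n) (Lam δ v.2 (fo d n q)))), ?_, ?_⟩
  · have h1 : ContDiffAt ℝ 1 (fun q => Lam δ v.2 (fo d n q)) p := by
      have : ContDiffAt ℝ ∞ (Lam δ v.2) (fo d n p) := by rw [← hvp]; exact hL
      exact (this.comp p (fo_smooth d n).contDiffAt).of_le (by norm_num)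
    have h2 : ContDiffAt ℝ 1 (fun q => fderiv ℝ (go d n) (fo d n q)) p := by
      have : ContDiff ℝ 1 (fderiv ℝ (go d n)) :=
        (go_smooth d n).fderiv_right (m := 1) two_le_inf
      exact this.contDiffAt.comp p ((fo_smooth d n).contDiffAt.of_le (by norm_num))
    have h3 : ContDiffAt ℝ 1 (fun q => fderiv ℝ (zh δ) (Lam δ v.2 (fo d n q))) p := by
      have : ContDiffAt ℝ 1 (fderiv ℝ (zh δ)) (Lam δ v.2 (fo d n p)) := by
        rw [hLp]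
        exact (zh_smoothAt hC δ hv).fderiv_right (m := 1) two_le_inf
      exact ContDiffAt.comp (g := fderiv ℝ (zh δ)) p this h1
    have h4 : ContDiffAt ℝ 1 (fun q => sg θ δ (shd d n) (Lam δ v.2 (fo d n q))) p := by
      have : ContDiffAt ℝ 1 (sg θ δ (shd d n)) (Lam δ v.2 (fo d n p)) := by
        rw [hLp]
        exact (hs n).1.contDiffAt (isOpen_U.mem_nhds hv)
      exact ContDiffAt.comp (g := sg θ δ (shd d n)) p this h1
    exact h2.clm_apply (h3.clm_apply (contDiffAt_const.prodMk h4))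
  · have h := eventually_zh_Lam (δ := δ) hv
    have ht : Tendsto (fo d n) (𝓝[{q | FS δ q = 0}] p) (𝓝[{q | FS δ q = 0}] (zh δ v)) := by
      apply tendsto_nhdsWithin_of_tendsto_nhds_of_eventually_within
      · rw [hvp]
        exact ((continuous_orb d n).continuousAt).mono_left nhdsWithin_le_nhds
      · filter_upwards [self_mem_nhdsWithin] with q hq
        show FS δ (fo d n q) = 0
        rw [FS_fo]; exact hq
    filter_upwards [ht.eventually h] with q hq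
    unfold En
    congr 1
    conv_lhs => rw [← hq.2]
    exact Gh_zh hC (hs n).2 hq.1

lemma Gh_ne (hC : SCoord) {θ : ℝ → ℝ} {δ : ℝ} {d : ℕ → ℕ}
    (hs : ∀ z ϑ, sg θ δ d (z, ϑ + 2 * π) = sg θ δ d (z, ϑ)) {q : ℝ × ℝ × ℝ} (hq : FS δ q = 0)
    (hz : |q.2.2| < 1) : Gh θ δ d q ≠ 0 := by
  obtain ⟨v, hv, rfl⟩ := exists_zh (δ := δ) hC hq hz
  rw [Gh_zh hC hs hv]
  intro h
  have h2 := fderiv_zh_z hC (δ := δ) hv (1, sg θ δ d v)
  rw [h] at h2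
  simp at h2

lemma En_ne (hC : SCoord) {θ : ℝ → ℝ} {δ : ℝ} {d : ℕ → ℕ} (hs : HSg θ δ d) (n : ℕ)
    {p : ℝ × ℝ × ℝ} (hp : p ∈ Om d n) (hF : FS δ p = 0) : En θ δ d n p ≠ 0 := by
  intro h
  have h1 := fderiv_fo_En θ δ d n p
  rw [h, map_zero] at h1
  exact Gh_ne hC (hs n).2 (by rw [FS_fo, hF]) hp h1.symm

lemma En_tan (hC : SCoord) {θ : ℝ → ℝ} {δ : ℝ} {d : ℕ → ℕ} (hs : HSg θ δ d) (n : ℕ)
    {p : ℝ × ℝ × ℝ} (hp : p ∈ Om d n) (hF : FS δ p = 0) :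
    fderiv ℝ (FS δ) p (En θ δ d n p) = 0 := by
  rw [← fderiv_FS_fo δ d n p, fderiv_fo_En]
  obtain ⟨v, hv, hvp⟩ := exists_zh (δ := δ) hC (q := fo d n p) (by rw [FS_fo, hF]) hp
  rw [← hvp, Gh_zh hC (hs n).2 hv]
  exact fderiv_FS_zh hC hv _

end Pool.Agent.H812.Tm
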