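import Mathlib
import Pool.Agent.H812.Tm.Asm3

/-!
# Assembly 4: the line fields of different stages are parallel on the stable set
-/

set_option autoImplicit false

open Real Filter Topology Set
open scoped ContDiff

namespace Pool.Agent.H812.Tm

open Pool.Agent.W811.Stu

lemma shd_shd (d : ℕ → ℕ) (i l : ℕ) : shd (shd d i) l = shd d (i + l) := by
  funext k; unfold shd; rw [add_assoc]

lemma eventually_Lam_zh {δ : ℝ} {v : ℝ × ℝ} (hv : v ∈ U) :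
    ∀ᶠ u in 𝓝 v, Lam δ v.2 (zh δ u) = u := by
  have h1 : ∀ᶠ u : ℝ × ℝ in 𝓝 v, |u.2 - v.2| < π / 2 := by
    have hc : Continuous fun u : ℝ × ℝ => |u.2 - v.2| := (continuous_snd.sub continuous_const).abs
    refine hc.continuousAt.eventually_lt continuousAt_const ?_
    simp [Real.pi_pos]
  filter_upwards [h1, isOpen_U.mem_nhds hv] with u hu1 hu2
  unfold Lam
  rw [cq_zh hu2, sq_zh hu2]
  have e : sin u.2 * cos v.2 - cos u.2 * sin v.2 = sin (u.2 - v.2) := by rw [Real.sin_sub]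
  rw [abs_lt] at hu1
  rw [e, Real.arcsin_sin (by linarith) (by linarith)]
  ext
  · rfl
  · simp

lemma fderiv_zh_inj (hC : SCoord) {δ : ℝ} {v : ℝ × ℝ} (hv : v ∈ U) :
    Function.Injective (fderiv ℝ (zh δ) v) := by
  have h1 : HasFDerivAt (zh δ) (fderiv ℝ (zh δ) v) v :=
    ((zh_smoothAt hC δ hv).differentiableAt (by norm_num)).hasFDerivAt
  have h2 : HasFDerivAt (Lam δ v.2) (fderiv ℝ (Lam δ v.2) (zh δ v)) (zh δ v) :=
    ((Lam_smoothAt hv).differentiableAt (by norm_num)).hasFDerivAt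
  have h3 := h2.comp v h1
  have h4 : (Lam δ v.2 ∘ zh δ) =ᶠ[𝓝 v] id := eventually_Lam_zh hv
  have h5 := (h3.congr_of_eventuallyEq h4.symm).unique (hasFDerivAt_id v)
  intro w w' hw
  have e1 := congrArg (fun L : (ℝ × ℝ) →L[ℝ] (ℝ × ℝ) => L w) h5
  have e2 := congrArg (fun L : (ℝ × ℝ) →L[ℝ] (ℝ × ℝ) => L w') h5
  simp only [ContinuousLinearMap.coe_comp, Function.comp_apply, ContinuousLinearMap.coe_id',
    id_eq] at e1 e2
  rw [← e1, ← e2, hw]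

lemma range_zh (hC : SCoord) {δ : ℝ} (hδ : δ ≠ 0) {v : ℝ × ℝ} (hv : v ∈ U) {u : ℝ × ℝ × ℝ}
    (hu : fderiv ℝ (FS δ) (zh δ v) u = 0) : ∃ w, fderiv ℝ (zh δ) v w = u := by
  have hF := zh_FS hC (δ := δ) hv
  have hne := FS_reg hδ _ hF
  set A : (ℝ × ℝ) →ₗ[ℝ] (ℝ × ℝ × ℝ) := (fderiv ℝ (zh δ) v : (ℝ × ℝ) →ₗ[ℝ] (ℝ × ℝ × ℝ)) with hA
  set B : (ℝ × ℝ × ℝ) →ₗ[ℝ] ℝ := (fderiv ℝ (FS δ) (zh δ v) : (ℝ × ℝ × ℝ) →ₗ[ℝ] ℝ) with hB
  have h1 : LinearMap.range A ≤ LinearMap.ker B := by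
    rintro _ ⟨w, rfl⟩
    exact fderiv_FS_zh hC hv w
  have h2 : Module.finrank ℝ (LinearMap.range A) = 2 := by
    rw [LinearMap.finrank_range_of_inj (fderiv_zh_inj hC hv)]
    simp
  have hB0 : B ≠ 0 := by
    intro h
    apply hne
    refine ContinuousLinearMap.ext fun x => ?_
    exact congrArg (fun L : (ℝ × ℝ × ℝ) →ₗ[ℝ] ℝ => L x) h
  have h3 : Module.finrank ℝ (LinearMap.ker B) = 2 := by
    have hs : Function.Surjective B := LinearMap.surjective hB0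
    have := LinearMap.finrank_range_add_finrank_ker B
    rw [LinearMap.range_eq_top.2 hs, finrank_top] at this
    simp at this
    omega
  have h4 : LinearMap.range A = LinearMap.ker B :=
    Submodule.eq_of_le_of_finrank_eq h1 (by rw [h2, h3])
  have h5 : u ∈ LinearMap.ker B := hu
  rw [← h4] at h5
  exact h5

lemma fderiv_go_fo' (d : ℕ → ℕ) (n : ℕ) (q w : ℝ × ℝ × ℝ) :
    fderiv ℝ (go d n) (fo d n q) (fderiv ℝ (fo d n) q w) = w := by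
  have h1 : HasFDerivAt (go d n) (fderiv ℝ (go d n) (fo d n q)) (fo d n q) :=
    ((go_smooth d n).differentiable (by norm_num)).differentiableAt.hasFDerivAt
  have h2 : HasFDerivAt (fo d n) (fderiv ℝ (fo d n) q) q :=
    ((fo_smooth d n).differentiable (by norm_num)).differentiableAt.hasFDerivAt
  have h3 := h1.comp q h2
  have h4 : (go d n ∘ fo d n) = id := by
    funext x; exact go_fo d n x
  rw [h4] at h3
  have h5 := h3.unique (hasFDerivAt_id q)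
  have := congrArg (fun L : (ℝ × ℝ × ℝ) →L[ℝ] (ℝ × ℝ × ℝ) => L w) h5
  simpa using this

/-- the level function on trace space -/
def Yp (d : ℕ → ℕ) (M : ℕ) (q : ℝ × ℝ × ℝ) : ℝ := (fo d M q).2.1

lemma Yp_smooth (d : ℕ → ℕ) (M : ℕ) : ContDiff ℝ ∞ (Yp d M) :=
  contDiff_fst.comp (contDiff_snd.comp (fo_smooth d M))

lemma Yp_hasF (d : ℕ → ℕ) (M : ℕ) (q : ℝ × ℝ × ℝ) :
    HasFDerivAt (Yp d M) (fderiv ℝ (Yp d M) q) q :=
  ((Yp_smooth d M).differentiable (by norm_num)).differentiableAt.hasFDerivAt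

lemma fderiv_Yf (hC : SCoord) (δ : ℝ) (d : ℕ → ℕ) (M : ℕ) {v : ℝ × ℝ} (hv : v ∈ U) (w : ℝ × ℝ) :
    fderiv ℝ (Yf δ d M) v w = fderiv ℝ (Yp d M) (zh δ v) (fderiv ℝ (zh δ) v w) := by
  have h1 : HasFDerivAt (zh δ) (fderiv ℝ (zh δ) v) v :=
    ((zh_smoothAt hC δ hv).differentiableAt (by norm_num)).hasFDerivAt
  have h3 := (Yp_hasF d M (zh δ v)).comp v h1
  have h4 : HasFDerivAt (Yf δ d M) _ v := h3
  rw [h4.fderiv]; rfl

lemma fderiv_Yp_add (d : ℕ → ℕ) (l M : ℕ) (q w : ℝ × ℝ × ℝ) :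
    fderiv ℝ (Yp d (l + M)) q w = fderiv ℝ (Yp (shd d l) M) (fo d l q) (fderiv ℝ (fo d l) q w) := by
  have h1 : HasFDerivAt (fo d l) (fderiv ℝ (fo d l) q) q :=
    ((fo_smooth d l).differentiable (by norm_num)).differentiableAt.hasFDerivAt
  have h3 := (Yp_hasF (shd d l) M (fo d l q)).comp q h1
  have h4 : (Yp (shd d l) M ∘ fo d l) = Yp d (l + M) := by
    funext x; unfold Yp; rw [fo_add]; rfl
  rw [h4] at h3
  rw [h3.fderiv]; rfl

lemma fderiv_split (f : ℝ × ℝ → ℝ) (v : ℝ × ℝ) (a b : ℝ) :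
    fderiv ℝ f v (a, b) = a * dz f v + b * dt f v := by
  have : ((a, b) : ℝ × ℝ) = a • (1, 0) + b • (0, 1) := by ext <;> simp
  rw [this, map_add, map_smul, map_smul]; rfl

/-- the fields of stage `0` and of stage `l` are parallel on the stable set -/
lemma core_parallel (hC : SCoord) (hLow : SLow) (hLip : SLip) {θ : ℝ → ℝ} {δ κ : ℝ}
    (hδ : δ ≠ 0) (hκ1 : 1 < κ) (hκ : κ < cc δ) (hθ : Cut κ θ) {e : ℕ → ℕ} (he : ∀ k, 1 ≤ e k)
    {l : ℕ} (hs0 : ∀ z ϑ, sg θ δ e (z, ϑ + 2 * π) = sg θ δ e (z, ϑ))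
    (hs1 : ∀ z ϑ, sg θ δ (shd e l) (z, ϑ + 2 * π) = sg θ δ (shd e l) (z, ϑ))
    {q : ℝ × ℝ × ℝ} (hq : FS δ q = 0) (hz : |q.2.2| < 1) (ha : Alive e (pt q))
    (hz1 : |(fo e l q).2.2| < 1) (ha1 : Alive (shd e l) (pt (fo e l q))) :
    ∃ c : ℝ, c ≠ 0 ∧ fderiv ℝ (fo e l) q (Gh θ δ e q) = c • Gh θ δ (shd e l) (fo e l q) := by
  obtain ⟨v0, hv0, rfl⟩ := exists_zh (δ := δ) hC hq hz
  obtain ⟨v1, hv1, hv1e⟩ := exists_zh (δ := δ) hC (by rw [FS_fo, hq]) hz1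
  have he1 : ∀ k, 1 ≤ shd e l k := fun k => he _
  set A := fderiv ℝ (fo e l) (zh δ v0) (Gh θ δ e (zh δ v0)) with hA
  have hG0 := Gh_zh hC hs0 hv0
  have hG1 := Gh_zh hC hs1 hv1
  have hAt : fderiv ℝ (FS δ) (zh δ v1) A = 0 := by
    rw [hv1e, hA, fderiv_FS_fo, hG0]
    exact fderiv_FS_zh hC hv0 _
  obtain ⟨w, hw⟩ := range_zh hC hδ hv1 hAt
  have hA0 : A ≠ 0 := by
    intro h
    have h1 := fderiv_go_fo' e l (zh δ v0) (Gh θ δ e (zh δ v0))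
    rw [← hA, h, map_zero] at h1
    exact Gh_ne hC hs0 hq hz h1.symm
  obtain ⟨C0, hC0, hL0⟩ := hLip δ κ κ |v0.1| e θ hδ hκ1 hκ hκ1 hv0 he hθ
  obtain ⟨C1, hC1, hL1⟩ := hLip δ κ κ |v1.1| (shd e l) θ hδ hκ1 hκ hκ1 hv1 he1 hθ
  have hal0 : Alive e (ze δ v0) := ha
  have hal1 : Alive (shd e l) (ze δ v1) := by
    have : ze δ v1 = pt (fo e l (zh δ v0)) := by rw [← hv1e]; rfl
    rw [this]; exact ha1
  have hY0 := (hL0 v0 le_rfl hal0).1
  have hY1 := (hL1 v1 le_rfl hal1).1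
  set b := w.2 - w.1 * sg θ δ (shd e l) v1 with hb
  have key : ∀ M, |b| * |dt (Yf δ (shd e l) M) v1| ≤ C0 + |w.1| * C1 := by
    intro M
    have e1 : fderiv ℝ (Yf δ e (l + M)) v0 (1, sg θ δ e v0) =
        fderiv ℝ (Yf δ (shd e l) M) v1 w := by
      rw [fderiv_Yf hC δ e (l + M) hv0, fderiv_Yp_add, ← hG0, ← hA, ← hw,
        fderiv_Yf hC δ (shd e l) M hv1, hv1e]
    have e2 : fderiv ℝ (Yf δ (shd e l) M) v1 w = w.1 * (dz (Yf δ (shd e l) M) v1 +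
        sg θ δ (shd e l) v1 * dt (Yf δ (shd e l) M) v1) + b * dt (Yf δ (shd e l) M) v1 := by
      have : w = (w.1, w.2) := rfl
      rw [this, fderiv_split, hb]; ring
    have e3 : fderiv ℝ (Yf δ e (l + M)) v0 (1, sg θ δ e v0) = dz (Yf δ e (l + M)) v0 +
        sg θ δ e v0 * dt (Yf δ e (l + M)) v0 := by
      rw [fderiv_split]; ring
    have h0 := hY0 (l + M)
    have h1 := hY1 M
    rw [← e3, e1, e2] at h0
    rw [← abs_mul]
    have h2 : b * dt (Yf δ (shd e l) M) v1 = (w.1 * (dz (Yf δ (shd e l) M) v1 +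
        sg θ δ (shd e l) v1 * dt (Yf δ (shd e l) M) v1) + b * dt (Yf δ (shd e l) M) v1) -
        w.1 * (dz (Yf δ (shd e l) M) v1 +
        sg θ δ (shd e l) v1 * dt (Yf δ (shd e l) M) v1) := by ring
    rw [h2]
    refine (abs_sub _ _).trans ?_
    rw [abs_mul w.1]
    have := mul_le_mul_of_nonneg_left h1 (abs_nonneg w.1)
    linarith
  have hb0 : b = 0 := by
    by_contra hbne
    have hbp : 0 < |b| := abs_pos.2 hbne
    obtain ⟨c0, hc0, hlow⟩ := hLow δ 1 hδ (by norm_num) (one_lt_cc hδ)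
    obtain ⟨N, hN⟩ := pow_unbounded_of_one_lt ((C0 + |w.1| * C1) / (|b| * c0))
      (by norm_num : (1:ℝ) < 2)
    have hM : ∃ M, 2 * N + 2 ≤ M ∧ |Yf δ (shd e l) M v1| ≤ 1 := by
      rcases hal1 (2 * N + 2) with h | h
      · exact ⟨2 * N + 2, le_rfl, h⟩
      · exact ⟨2 * N + 3, by omega, h⟩
    obtain ⟨M, hM1, hM2⟩ := hM
    have h1 := hlow (shd e l) he1 M (by omega) v1 hv1 hM2
    have h2 := key M
    have h3 : (2:ℝ) ^ N ≤ 2 ^ (M / 2) := pow_le_pow_right₀ (by norm_num) (by omega)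
    have h4 : (C0 + |w.1| * C1) < |b| * c0 * 2 ^ N := by
      rw [div_lt_iff₀ (by positivity)] at hN
      linarith
    have h5 : |b| * (c0 * 2 ^ (M / 2)) ≤ |b| * |dt (Yf δ (shd e l) M) v1| :=
      mul_le_mul_of_nonneg_left h1 hbp.le
    have h6 : |b| * c0 * 2 ^ N ≤ |b| * c0 * 2 ^ (M / 2) :=
      mul_le_mul_of_nonneg_left h3 (by positivity)
    nlinarith
  have hwe : w = w.1 • (1, sg θ δ (shd e l) v1) := by
    ext
    · simp
    · simp only [Prod.smul_snd, smul_eq_mul]; linarith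
  have hAe : A = w.1 • Gh θ δ (shd e l) (fo e l (zh δ v0)) := by
    rw [← hv1e, hG1, ← map_smul, ← hwe, hw]
  refine ⟨w.1, ?_, hAe⟩
  intro h0
  rw [h0, zero_smul] at hAe
  exact hA0 hAe

lemma En_parallel_le (hC : SCoord) (hE : SEsc) (hLow : SLow) (hLip : SLip) {θ : ℝ → ℝ} {δ κ : ℝ}
    (hδ : δ ≠ 0) (hκ1 : 1 < κ) (hκ : κ < cc δ) (hθ : Cut κ θ) {d : ℕ → ℕ} (hd : ∀ k, 1 ≤ d k)
    (hs : HSg θ δ d) (i l : ℕ) {p : ℝ × ℝ × ℝ} (hp : p ∈ WS δ d) (hi : p ∈ Om d i)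
    (hj : p ∈ Om d (i + l)) : ∃ c : ℝ, c ≠ 0 ∧ En θ δ d i p = c • En θ δ d (i + l) p := by
  have hF : FS δ (fo d i p) = 0 := by rw [FS_fo]; exact hp.1
  have ha : Alive (shd d i) (pt (fo d i p)) := alive_of_mem_WS hE hδ hd hp i (le_of_lt hi)
  have hj' : |(fo (shd d i) l (fo d i p)).2.2| < 1 := by rw [← fo_add]; exact hj
  have ha1 : Alive (shd (shd d i) l) (pt (fo (shd d i) l (fo d i p))) := by
    rw [← fo_add, shd_shd]
    exact alive_of_mem_WS hE hδ hd hp (i + l) (le_of_lt hj)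
  have hs0 := (hs i).2
  have hs1 := (hs (i + l)).2
  rw [← shd_shd] at hs1
  obtain ⟨c, hc, h⟩ := core_parallel hC hLow hLip hδ hκ1 hκ hθ (e := shd d i) (fun k => hd _)
    (l := l) hs0 hs1 hF hi ha hj' ha1
  refine ⟨c, hc, ?_⟩
  have e1 : fderiv ℝ (fo d (i + l)) p (En θ δ d i p) =
      c • Gh θ δ (shd d (i + l)) (fo d (i + l) p) := by
    have h1 : HasFDerivAt (fo d i) (fderiv ℝ (fo d i) p) p :=
      ((fo_smooth d i).differentiable (by norm_num)).differentiableAt.hasFDerivAt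
    have h2 : HasFDerivAt (fo (shd d i) l) (fderiv ℝ (fo (shd d i) l) (fo d i p)) (fo d i p) :=
      ((fo_smooth (shd d i) l).differentiable (by norm_num)).differentiableAt.hasFDerivAt
    have h3 := h2.comp p h1
    have h4 : (fo (shd d i) l ∘ fo d i) = fo d (i + l) := by
      funext x; rw [fo_add]; rfl
    rw [h4] at h3
    rw [h3.fderiv]
    simp only [ContinuousLinearMap.coe_comp, Function.comp_apply]
    rw [fderiv_fo_En, h, shd_shd, ← fo_add]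
  rw [← fderiv_go_fo' d (i + l) p (En θ δ d i p), e1, map_smul]
  rfl

lemma En_parallel (hC : SCoord) (hE : SEsc) (hLow : SLow) (hLip : SLip) {θ : ℝ → ℝ} {δ κ : ℝ}
    (hδ : δ ≠ 0) (hκ1 : 1 < κ) (hκ : κ < cc δ) (hθ : Cut κ θ) {d : ℕ → ℕ} (hd : ∀ k, 1 ≤ d k)
    (hs : HSg θ δ d) (i j : ℕ) {p : ℝ × ℝ × ℝ} (hp : p ∈ WS δ d) (hi : p ∈ Om d i)
    (hj : p ∈ Om d j) : ∃ c : ℝ, c ≠ 0 ∧ En θ δ d i p = c • En θ δ d j p := by
  rcases le_total i j with h | h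
  · obtain ⟨l, rfl⟩ := Nat.exists_eq_add_of_le h
    exact En_parallel_le hC hE hLow hLip hδ hκ1 hκ hθ hd hs i l hp hi hj
  · obtain ⟨l, rfl⟩ := Nat.exists_eq_add_of_le h
    obtain ⟨c, hc, h⟩ := En_parallel_le hC hE hLow hLip hδ hκ1 hκ hθ hd hs j l hp hj hi
    refine ⟨c⁻¹, inv_ne_zero hc, ?_⟩
    rw [h, smul_smul, inv_mul_cancel₀ hc, one_smul]

end Pool.Agent.H812.Tm
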