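import Mathlib
import Pool.Agent.H812.Tm.Asm4

/-!
# Assembly 5: arcs in the stable set
-/

set_option autoImplicit false

open Real Filter Topology Set
open scoped ContDiff NNReal

namespace Pool.Agent.H812.Tm

open Pool.Agent.W811.Stu

/-! ### a diffeomorphism from the line to `(-1, 1)` -/

noncomputable def zet (t : ℝ) : ℝ := t / √(1 + t ^ 2)

lemma zet_den_pos (t : ℝ) : 0 < √(1 + t ^ 2) := Real.sqrt_pos.2 (by positivity)

lemma zet_den_sq (t : ℝ) : √(1 + t ^ 2) ^ 2 = 1 + t ^ 2 := Real.sq_sqrt (by positivity)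

lemma zet_smooth : ContDiff ℝ ∞ zet := by
  unfold zet
  apply ContDiff.div contDiff_id
  · apply ContDiff.sqrt
    · fun_prop
    · intro t; positivity
  · intro t; exact (zet_den_pos t).ne'

lemma zet_lt (t : ℝ) : |zet t| < 1 := by
  have h1 := zet_den_pos t
  have h2 := zet_den_sq t
  unfold zet
  rw [abs_div, abs_of_pos h1, div_lt_one h1]
  apply abs_lt_of_sq_lt_sq _ h1.le
  rw [h2]; linarith

lemma zet_hasDeriv (t : ℝ) : HasDerivAt zet (1 / √(1 + t ^ 2) ^ 3) t := by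
  have h1 := zet_den_pos t
  have h2 := zet_den_sq t
  have h3 : HasDerivAt (fun t : ℝ => 1 + t ^ 2) (2 * t) t := by
    have := (hasDerivAt_pow 2 t).const_add 1
    simpa using this
  have h4 := h3.sqrt (by positivity)
  have h5 := (hasDerivAt_id t).div h4 h1.ne'
  have h6 : HasDerivAt zet _ t := h5
  have e : 1 / √(1 + t ^ 2) ^ 3 =
      (1 * √(1 + t ^ 2) - id t * (2 * t / (2 * √(1 + t ^ 2)))) / √(1 + t ^ 2) ^ 2 := by
    simp only [id]
    field_simp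
    rw [h2]; ring
  rw [e]
  exact h6

lemma zet_deriv_pos (t : ℝ) : 0 < 1 / √(1 + t ^ 2) ^ 3 := by
  have := zet_den_pos t
  positivity

lemma zet_strictMono : StrictMono zet := by
  apply strictMono_of_deriv_pos
  intro t
  rw [(zet_hasDeriv t).deriv]
  exact zet_deriv_pos t

/-- inverse of `zet` -/
noncomputable def izt (s : ℝ) : ℝ := s / √(1 - s ^ 2)

lemma zet_izt {s : ℝ} (hs : |s| < 1) : zet (izt s) = s := by
  have h0 : 0 < 1 - s ^ 2 := by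
    have := (sq_lt_one_iff_abs_lt_one s).2 hs; linarith
  have h1 : 0 < √(1 - s ^ 2) := Real.sqrt_pos.2 h0
  have h2 : √(1 - s ^ 2) ^ 2 = 1 - s ^ 2 := Real.sq_sqrt h0.le
  unfold zet izt
  have h3 : 1 + (s / √(1 - s ^ 2)) ^ 2 = (1 / √(1 - s ^ 2)) ^ 2 := by
    rw [div_pow, div_pow, h2]; field_simp; ring
  rw [h3, Real.sqrt_sq (by positivity)]
  field_simp

/-! ### uniqueness of solutions -/

lemma ode_unique {f : ℝ × ℝ → ℝ} (hf : ContDiffOn ℝ 1 f U) {ϑ ψ : ℝ → ℝ}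
    (h1 : ∀ z, |z| < 1 → HasDerivAt ϑ (f (z, ϑ z)) z)
    (h2 : ∀ z, |z| < 1 → HasDerivAt ψ (f (z, ψ z)) z) {z0 : ℝ} (hz0 : |z0| < 1)
    (h0 : ϑ z0 = ψ z0) {z : ℝ} (hz : |z| < 1) : ϑ z = ψ z := by
  obtain ⟨r, hr1, hr2⟩ := exists_between (max_lt hz0 hz)
  have hrz0 : |z0| < r := lt_of_le_of_lt (le_max_left _ _) hr1
  have hrz : |z| < r := lt_of_le_of_lt (le_max_right _ _) hr1
  have hin : ∀ t ∈ Icc (-r) r, |t| < 1 := by
    intro t ht
    rw [abs_lt]; constructor <;> [linarith [ht.1]; linarith [ht.2]]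
  have hc1 : ContinuousOn ϑ (Icc (-r) r) := fun t ht =>
    (h1 t (hin t ht)).continuousAt.continuousWithinAt
  have hc2 : ContinuousOn ψ (Icc (-r) r) := fun t ht =>
    (h2 t (hin t ht)).continuousAt.continuousWithinAt
  obtain ⟨R1, hR1⟩ := isCompact_Icc.exists_bound_of_continuousOn hc1
  obtain ⟨R2, hR2⟩ := isCompact_Icc.exists_bound_of_continuousOn hc2
  set R := max R1 R2 with hR
  set Kset : Set (ℝ × ℝ) := Icc (-r) r ×ˢ Icc (-R) R with hKs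
  have hKc : IsCompact Kset := isCompact_Icc.prod isCompact_Icc
  have hKU : Kset ⊆ U := fun v hv => hin v.1 hv.1
  have hfd : ContinuousOn (fderiv ℝ f) U := hf.continuousOn_fderiv_of_isOpen isOpen_U (by norm_num)
  obtain ⟨C, hC⟩ := hKc.exists_bound_of_continuousOn (hfd.mono hKU)
  have hlip : LipschitzOnWith (Real.toNNReal C) f Kset := by
    apply Convex.lipschitzOnWith_of_nnnorm_fderiv_le (𝕜 := ℝ)
    · intro x hx
      exact (hf.contDiffAt (isOpen_U.mem_nhds (hKU hx))).differentiableAt (by norm_num)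
    · intro x hx
      have := hC x hx
      rw [← NNReal.coe_le_coe, coe_nnnorm]
      exact this.trans (Real.le_coe_toNNReal C)
    · exact (convex_Icc _ _).prod (convex_Icc _ _)
  have heq := ODE_solution_unique_of_mem_Ioo (v := fun t x => f (t, x))
    (s := fun _ => Icc (-R) R) (K := Real.toNNReal C) (f := ϑ) (g := ψ) (a := -r) (b := r)
    (t₀ := z0) ?_ ?_ ?_ ?_ h0
  · exact heq ⟨(abs_lt.1 hrz).1, (abs_lt.1 hrz).2⟩
  · intro t ht
    rw [lipschitzOnWith_iff_dist_le_mul]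
    intro x hx y hy
    have h := hlip.dist_le_mul (t, x) ⟨⟨ht.1.le, ht.2.le⟩, hx⟩ (t, y) ⟨⟨ht.1.le, ht.2.le⟩, hy⟩
    have e : dist ((t, x) : ℝ × ℝ) (t, y) = dist x y := by
      rw [Prod.dist_eq]; simp
    rw [e] at h
    exact h
  · exact ⟨(abs_lt.1 hrz0).1, (abs_lt.1 hrz0).2⟩
  · intro t ht
    have ht' : t ∈ Icc (-r) r := ⟨ht.1.le, ht.2.le⟩
    refine ⟨h1 t (hin t ht'), ?_⟩
    have := hR1 t ht'
    rw [Real.norm_eq_abs, abs_le] at this
    exact ⟨by linarith [le_max_left R1 R2], by linarith [le_max_left R1 R2]⟩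
  · intro t ht
    have ht' : t ∈ Icc (-r) r := ⟨ht.1.le, ht.2.le⟩
    refine ⟨h2 t (hin t ht'), ?_⟩
    have := hR2 t ht'
    rw [Real.norm_eq_abs, abs_le] at this
    exact ⟨by linarith [le_max_right R1 R2], by linarith [le_max_right R1 R2]⟩

/-! ### arcs -/

/-- leaves -/
def Leaf (θ : ℝ → ℝ) (δ : ℝ) (d : ℕ → ℕ) (ϑ : ℝ → ℝ) : Prop :=
  ∀ z : ℝ, |z| < 1 → HasDerivAt ϑ (sg θ δ d (z, ϑ z)) z ∧ Alive d (ze δ (z, ϑ z))

/-- the arc of a leaf of stage `n` -/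
noncomputable def gam (δ : ℝ) (d : ℕ → ℕ) (n : ℕ) (ϑ : ℝ → ℝ) (t : ℝ) : ℝ × ℝ × ℝ :=
  go d n (zh δ (zet t, ϑ (zet t)))

lemma fo_gam (δ : ℝ) (d : ℕ → ℕ) (n : ℕ) (ϑ : ℝ → ℝ) (t : ℝ) :
    fo d n (gam δ d n ϑ t) = zh δ (zet t, ϑ (zet t)) := fo_go d n _

lemma gam_smooth (hC : SCoord) {δ : ℝ} {d : ℕ → ℕ} {n : ℕ} {ϑ : ℝ → ℝ}
    (h : ContDiffOn ℝ ∞ ϑ (Ioo (-1) 1)) : ContDiff ℝ ∞ (gam δ d n ϑ) := by
  have h1 : ContDiff ℝ ∞ fun t => ϑ (zet t) := by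
    rw [← contDiffOn_univ]
    exact h.comp zet_smooth.contDiffOn (fun t _ => abs_lt.1 (zet_lt t))
  have h2 : ContDiff ℝ ∞ fun t => (zet t, ϑ (zet t)) := zet_smooth.prodMk h1
  have h3 : ContDiff ℝ ∞ fun t => zh δ (zet t, ϑ (zet t)) := by
    rw [← contDiffOn_univ]
    exact (zh_smooth hC δ).comp h2.contDiffOn (fun t _ => zet_lt t)
  exact (go_smooth d n).comp h3

lemma gam_mem (hC : SCoord) (hE : SEsc) {θ : ℝ → ℝ} {δ : ℝ} (hδ : δ ≠ 0) {d : ℕ → ℕ}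
    (hd : ∀ k, 1 ≤ d k) {n : ℕ} {ϑ : ℝ → ℝ} (h : Leaf θ δ (shd d n) ϑ) (t : ℝ) :
    gam δ d n ϑ t ∈ WS δ d := by
  have hz := zet_lt t
  have hU : (zet t, ϑ (zet t)) ∈ U := hz
  refine mem_WS_of_alive hE hδ hd (q := gam δ d n ϑ t) ?_ n ?_ ?_
  · unfold gam; rw [FS_go, zh_FS hC hU]
  · have : (orb d (pt (gam δ d n ϑ t)) n).z = (fo d n (gam δ d n ϑ t)).2.2 := rfl
    rw [this, fo_gam]
    exact hz.le
  · have : orb d (pt (gam δ d n ϑ t)) n = pt (fo d n (gam δ d n ϑ t)) := rfl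
    rw [this, fo_gam]
    exact (h (zet t) hz).2

lemma gam_hasDeriv (hC : SCoord) {θ : ℝ → ℝ} {δ : ℝ} {d : ℕ → ℕ}
    (hs : HSg θ δ d) {n : ℕ} {ϑ : ℝ → ℝ} (h : Leaf θ δ (shd d n) ϑ) (t : ℝ) :
    HasDerivAt (gam δ d n ϑ) ((1 / √(1 + t ^ 2) ^ 3) • En θ δ d n (gam δ d n ϑ t)) t := by
  have hz := zet_lt t
  have hU : (zet t, ϑ (zet t)) ∈ U := hz
  have h1 := zet_hasDeriv t
  have h2 := (h (zet t) hz).1
  have h3 : HasDerivAt (fun t => ϑ (zet t))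
      (sg θ δ (shd d n) (zet t, ϑ (zet t)) * (1 / √(1 + t ^ 2) ^ 3)) t := h2.comp t h1
  have h4 := h1.prodMk h3
  have h5 : HasFDerivAt (zh δ) (fderiv ℝ (zh δ) (zet t, ϑ (zet t))) (zet t, ϑ (zet t)) :=
    ((zh_smoothAt hC δ hU).differentiableAt (by norm_num)).hasFDerivAt
  have h6 : HasFDerivAt (go d n) (fderiv ℝ (go d n) (zh δ (zet t, ϑ (zet t))))
      (zh δ (zet t, ϑ (zet t))) :=
    ((go_smooth d n).differentiable (by norm_num)).differentiableAt.hasFDerivAt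
  have h7 := (h6.comp _ h5).comp_hasDerivAt t h4
  have h8 : HasDerivAt (gam δ d n ϑ) _ t := h7
  have e : (1 / √(1 + t ^ 2) ^ 3) • En θ δ d n (gam δ d n ϑ t) =
      ((fderiv ℝ (go d n) (zh δ (zet t, ϑ (zet t)))).comp
        (fderiv ℝ (zh δ) (zet t, ϑ (zet t)))) (1 / √(1 + t ^ 2) ^ 3,
          sg θ δ (shd d n) (zet t, ϑ (zet t)) * (1 / √(1 + t ^ 2) ^ 3)) := by
    unfold En
    rw [fo_gam, Gh_zh hC (hs n).2 hU]
    have e1 : ((1 / √(1 + t ^ 2) ^ 3,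
        sg θ δ (shd d n) (zet t, ϑ (zet t)) * (1 / √(1 + t ^ 2) ^ 3)) : ℝ × ℝ) =
        (1 / √(1 + t ^ 2) ^ 3) • (1, sg θ δ (shd d n) (zet t, ϑ (zet t))) := by
      ext
      · simp
      · simp only [Prod.smul_snd, smul_eq_mul]; ring
    rw [e1, map_smul]
    rfl
  rw [e]
  exact h8

lemma gam_inj (δ : ℝ) (d : ℕ → ℕ) (n : ℕ) (ϑ : ℝ → ℝ) : Function.Injective (gam δ d n ϑ) := by
  intro t t' h
  have h1 := congrArg (fo d n) h
  rw [fo_gam, fo_gam] at h1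
  have h2 : zet t = zet t' := congrArg (fun q : ℝ × ℝ × ℝ => q.2.2) h1
  exact zet_strictMono.injective h2

/-- two leaves of the same stage which meet have the same arc -/
lemma gam_eq (hC : SCoord) {θ : ℝ → ℝ} {δ : ℝ} {d : ℕ → ℕ} (hs : HSg θ δ d) {n : ℕ}
    {ϑ ψ : ℝ → ℝ} (h : Leaf θ δ (shd d n) ϑ) (h' : Leaf θ δ (shd d n) ψ) {t t' : ℝ}
    (he : gam δ d n ϑ t = gam δ d n ψ t') : gam δ d n ϑ = gam δ d n ψ := by
  have h1 := congrArg (fo d n) he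
  rw [fo_gam, fo_gam] at h1
  have hz := zet_lt t
  have hz' := zet_lt t'
  obtain ⟨k, hk⟩ := zh_inj (v := (zet t, ϑ (zet t))) (v' := (zet t', ψ (zet t'))) hz hz' h1
  have hk1 : zet t = zet t' := by
    have := congrArg Prod.fst hk; simpa using this
  have hk2 : ϑ (zet t) = ψ (zet t) + k * (2 * π) := by
    have := congrArg Prod.snd hk
    simp only [Prod.snd_add] at this
    rw [this, hk1]
  have hper := per_int (sg θ δ (shd d n)) (hs n).2 k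
  have hψ : ∀ z, |z| < 1 → HasDerivAt (fun z => ψ z + k * (2 * π))
      (sg θ δ (shd d n) (z, ψ z + k * (2 * π))) z := by
    intro z hz
    have e : ((z, ψ z + k * (2 * π)) : ℝ × ℝ) = (z, ψ z) + (0, k * (2 * π)) := by ext <;> simp
    rw [e, hper]
    exact (h' z hz).1.add_const _
  funext s
  have e := ode_unique (hs n).1 (fun z hz => (h z hz).1) hψ hz hk2 (zet_lt s)
  unfold gam
  congr 1
  have e2 : ((zet s, ϑ (zet s)) : ℝ × ℝ) = (zet s, ψ (zet s)) + (0, k * (2 * π)) := by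
    ext
    · simp
    · simp only [Prod.snd_add]; exact e
  rw [e2, zh_per hC]

end Pool.Agent.H812.Tm
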