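import Mathlib
import Pool.Agent.H812.Tm.Asm5

/-!
# Assembly 6: the frozen statement from the independent parts
-/

set_option autoImplicit false

open Real Filter Topology Set
open scoped ContDiff NNReal

namespace Pool.Agent.H812.Tm

open Pool.Agent.W811.Stu

lemma exists_cut {κ : ℝ} (hκ : 1 < κ) : ∃ θ, Cut κ θ := by
  let b : ContDiffBump (0 : ℝ) := ⟨1, κ, by norm_num, hκ⟩
  refine ⟨b, ?_⟩
  refine ⟨b.contDiff, ?_, ?_, fun x => b.nonneg, fun x => b.le_one⟩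
  · intro x hx
    apply b.one_of_mem_closedBall
    rw [mem_closedBall_zero_iff]
    exact hx
  · intro x hx
    apply b.zero_of_le_dist
    rw [dist_zero_right]
    exact hx

/-- radii of the exhaustion -/
noncomputable def rk (k : ℕ) : ℝ := 1 - 1 / ((k : ℝ) + 2)

lemma rk_pos (k : ℕ) : 0 < rk k := by
  unfold rk
  have : 1 / ((k : ℝ) + 2) < 1 := by
    rw [div_lt_one (by positivity)]
    have : (0:ℝ) ≤ k := Nat.cast_nonneg k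
    linarith
  linarith

lemma rk_lt (k : ℕ) : rk k < 1 := by
  unfold rk
  have : 0 < 1 / ((k : ℝ) + 2) := by positivity
  linarith

lemma exists_rk {x : ℝ} (hx : x < 1) : ∃ k, x ≤ rk k := by
  obtain ⟨k, hk⟩ := exists_nat_gt (1 / (1 - x))
  refine ⟨k, ?_⟩
  unfold rk
  have h1 : 0 < 1 - x := by linarith
  have h2 : 1 / ((k : ℝ) + 2) ≤ 1 - x := by
    rw [div_le_iff₀ (by positivity)]
    rw [div_lt_iff₀ h1] at hk
    nlinarith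
  linarith

/-- end points of the parameter intervals -/
noncomputable def tau (k : ℕ) : ℝ := izt (rk k)

lemma zet_tau (k : ℕ) : zet (tau k) = rk k :=
  zet_izt (by rw [abs_of_pos (rk_pos k)]; exact rk_lt k)

lemma zet_neg (t : ℝ) : zet (-t) = -zet t := by
  unfold zet; rw [neg_sq, neg_div]

lemma tau_pos (k : ℕ) : 0 < tau k := by
  have h : zet 0 < zet (tau k) := by
    rw [zet_tau]
    have : zet 0 = 0 := by unfold zet; simp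
    rw [this]; exact rk_pos k
  exact zet_strictMono.lt_iff_lt.1 h

lemma mem_tau {k : ℕ} {t : ℝ} : t ∈ Icc (-tau k) (tau k) ↔ |zet t| ≤ rk k := by
  rw [abs_le, ← zet_tau k, ← zet_neg, zet_strictMono.le_iff_le, zet_strictMono.le_iff_le]
  rfl

/-- the closed sets of the exhaustion -/
def Kc (d : ℕ → ℕ) (i : ℕ) : Set (ℝ × ℝ × ℝ) :=
  {q | |(fo d (Nat.unpair i).1 q).2.2| ≤ rk (Nat.unpair i).2}

lemma isClosed_Kc (d : ℕ → ℕ) (i : ℕ) : IsClosed (Kc d i) := by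
  unfold Kc
  have hz : Continuous fun q : ℝ × ℝ × ℝ => (fo d (Nat.unpair i).1 q).2.2 :=
    (continuous_snd.comp continuous_snd).comp (continuous_orb d _)
  exact isClosed_le hz.abs continuous_const

/-- the families of arcs -/
def Ga (θ : ℝ → ℝ) (δ : ℝ) (d : ℕ → ℕ) (i : ℕ) : Set ((ℝ → ℝ × ℝ × ℝ) × ℝ × ℝ) :=
  {g | ∃ ϑ, Leaf θ δ (shd d (Nat.unpair i).1) ϑ ∧
    g = (gam δ d (Nat.unpair i).1 ϑ, -tau (Nat.unpair i).2, tau (Nat.unpair i).2)}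

/-- the main theorem, from the parts -/
theorem main_of (hC : SCoord) (hLow : SLow) (hE : SEsc) (hLip : SLip) (hField : SField)
    (hLeaf : SLeaf) (hLeafC : SLeafC) (hGlue : GGlue) (hFol : GFol) (hPart : GPart)
    {δ : ℝ} (hδ : δ ≠ 0) {d : ℕ → ℕ} (hd : ∀ k, 1 ≤ d k) :
    ∃ 𝒞 : Set (Set (ℝ × ℝ × ℝ)), ∃ A : Set (ℝ × ℝ → ℝ × ℝ × ℝ),
        𝒞.PairwiseDisjoint id ∧
        ⋃₀ 𝒞 = WS δ d ∧
        (∀ φ ∈ A, ContDiff ℝ 1 φ ∧ Function.Injective φ ∧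
            (∀ z, Function.Injective (fderiv ℝ φ z)) ∧ ∀ z, FS δ (φ z) = 0) ∧
        (∀ φ ∈ A, ∀ ψ ∈ A, ∀ z w : ℝ × ℝ, φ z = ψ w →
            ∃ ε > 0, ∀ z' w' : ℝ × ℝ, dist z' z < ε → z'.2 = z.2 → ψ w' = φ z' → w'.2 = w.2) ∧
        (⋃₀ 𝒞 ⊆ ⋃ φ ∈ A, Set.range φ) ∧
        (∀ C ∈ 𝒞, ∃ γ : ℝ → ℝ × ℝ × ℝ, ∃ I : Set ℝ,
            I.OrdConnected ∧ I.Nontrivial ∧ ContDiff ℝ ∞ γ ∧ (∀ t, deriv γ t ≠ 0) ∧
            Set.InjOn γ I ∧ γ '' I = C ∧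
            ∀ t ∈ I, ∀ φ ∈ A, ∀ z : ℝ × ℝ, φ z = γ t →
              ∃ ε > 0, ∀ s ∈ I, |s - t| < ε → ∃ z' : ℝ × ℝ, φ z' = γ s ∧ z'.2 = z.2) := by
  set κ := (1 + cc δ) / 2 with hκd
  have hcc := one_lt_cc hδ
  have hκ1 : 1 < κ := by rw [hκd]; linarith
  have hκ : κ < cc δ := by rw [hκd]; linarith
  obtain ⟨θ, hθ⟩ := exists_cut hκ1
  have hs : HSg θ δ d := fun n =>
    ⟨(hField δ κ (shd d n) θ hδ hκ1 hκ (fun k => hd _) hθ).1,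
      (hField δ κ (shd d n) θ hδ hκ1 hκ (fun k => hd _) hθ).2.1⟩
  have hreg := fun p (h : FS δ p = 0) => FS_reg hδ p h
  have hWF : ∀ p ∈ WS δ d, FS δ p = 0 := fun p hp => hp.1
  have hcov : WS δ d ⊆ ⋃ i, Om d i := by
    intro p hp
    obtain ⟨n, hn⟩ := exists_strip hE hδ hd hp
    exact mem_iUnion.2 ⟨n, hn⟩
  obtain ⟨V, Q, hVo, hWV, hQ, hQE⟩ := hGlue (FS δ) (FS_smooth δ) hreg (WS δ d) (isClosed_WS δ d)
    hWF (Om d) (En θ δ d) (isOpen_Om d) hcov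
    (fun i p hp hF => ⟨En_c1 hC hs i hp hF, En_ne hC hs i hp hF, En_tan hC hs i hp hF⟩)
    (fun i j p hp hi hj => En_parallel hC hE hLow hLip hδ hκ1 hκ hθ hd hs i j hp hi hj)
  obtain ⟨A, hA1, hA2, hA3, hA4⟩ := hFol (FS δ) (FS_smooth δ) hreg (WS δ d) V hWF hVo hWV Q hQ
  have hLs : ∀ i ϑ, Leaf θ δ (shd d i) ϑ → ContDiffOn ℝ ∞ ϑ (Ioo (-1) 1) := fun i ϑ h =>
    hLeafC δ κ (shd d i) θ hδ hκ1 hκ (fun k => hd _) hθ ϑ h
  have hcovK : WS δ d ⊆ ⋃ i, Kc d i := by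
    intro p hp
    obtain ⟨n, hn⟩ := exists_strip hE hδ hd hp
    obtain ⟨k, hk⟩ := exists_rk hn
    refine mem_iUnion.2 ⟨Nat.pair n k, ?_⟩
    unfold Kc
    simp only [Nat.unpair_pair]
    exact hk
  have q1 : ∀ i, ∀ g ∈ Ga θ δ d i, Continuous g.1 ∧ g.2.1 < g.2.2 ∧
      InjOn g.1 (Icc g.2.1 g.2.2) ∧ g.1 '' Icc g.2.1 g.2.2 ⊆ WS δ d ∩ Kc d i := by
    rintro i g ⟨ϑ, hϑ, rfl⟩
    refine ⟨(gam_smooth hC (hLs _ ϑ hϑ)).continuous, ?_, (gam_inj δ d _ ϑ).injOn, ?_⟩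
    · simp only
      have := tau_pos (Nat.unpair i).2
      linarith
    · rintro _ ⟨t, ht, rfl⟩
      refine ⟨gam_mem hC hE hδ hd hϑ t, ?_⟩
      unfold Kc
      rw [mem_ofPred_eq, fo_gam]
      exact mem_tau.1 ht
  have q2 : ∀ i, ∀ g ∈ Ga θ δ d i, ∀ h ∈ Ga θ δ d i,
      g.1 '' Icc g.2.1 g.2.2 = h.1 '' Icc h.2.1 h.2.2 ∨
      Disjoint (g.1 '' Icc g.2.1 g.2.2) (h.1 '' Icc h.2.1 h.2.2) := by
    rintro i g ⟨ϑ, hϑ, rfl⟩ h ⟨ψ, hψ, rfl⟩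
    by_cases hd' : Disjoint (gam δ d (Nat.unpair i).1 ϑ '' Icc (-tau (Nat.unpair i).2)
      (tau (Nat.unpair i).2)) (gam δ d (Nat.unpair i).1 ψ '' Icc (-tau (Nat.unpair i).2)
      (tau (Nat.unpair i).2))
    · right; exact hd'
    · left
      rw [not_disjoint_iff] at hd'
      obtain ⟨p, ⟨t, ht, h1⟩, ⟨t', ht', h2⟩⟩ := hd'
      simp only
      rw [gam_eq hC hs hϑ hψ (h1.trans h2.symm)]
  have q3 : ∀ i, ∀ p ∈ WS δ d ∩ Kc d i, ∃ g ∈ Ga θ δ d i, p ∈ g.1 '' Icc g.2.1 g.2.2 := by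
    rintro i p ⟨hp, hpK⟩
    set n := (Nat.unpair i).1 with hn
    set k := (Nat.unpair i).2 with hk
    have hz : |(fo d n p).2.2| ≤ rk k := hpK
    have hz1 : |(fo d n p).2.2| < 1 := lt_of_le_of_lt hz (rk_lt k)
    obtain ⟨v, hv, hvp⟩ := exists_zh (δ := δ) hC (by rw [FS_fo]; exact hp.1) hz1
    have ha : Alive (shd d n) (ze δ v) := by
      have := alive_of_mem_WS hE hδ hd hp n hz1.le
      have e : ze δ v = orb d (pt p) n := tp_inj hvp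
      rw [e]; exact this
    obtain ⟨ϑ, hϑ0, hϑ⟩ := hLeaf δ κ (shd d n) θ hδ hκ1 hκ (fun k => hd _) hθ v hv ha
    refine ⟨(gam δ d n ϑ, -tau k, tau k), ⟨ϑ, hϑ, rfl⟩, ?_⟩
    have hv1 : (fo d n p).2.2 = v.1 := by rw [← hvp]; rfl
    refine ⟨izt v.1, ?_, ?_⟩
    · simp only
      rw [mem_tau, zet_izt hv, ← hv1]; exact hz
    · unfold gam
      simp only
      rw [zet_izt hv, hϑ0, hvp, go_fo]
  obtain ⟨𝒞, hc1, hc2, hc3⟩ := hPart (WS δ d) (Kc d) (isClosed_Kc d) hcovK (Ga θ δ d) q1 q2 q3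
  refine ⟨𝒞, A, hc1, hc2, hA1, hA2, by rw [hc2]; exact hA3, ?_⟩
  intro C hCm
  obtain ⟨i, g, ⟨ϑ, hϑ, rfl⟩, I, hI1, hI2, hI3, hI4⟩ := hc3 C hCm
  set n := (Nat.unpair i).1 with hn
  have hsm := gam_smooth hC (δ := δ) (d := d) (n := n) (hLs n ϑ hϑ)
  have hder := gam_hasDeriv hC hs hϑ
  have hmem := gam_mem hC hE hδ hd hϑ
  have hOm : ∀ t, gam δ d n ϑ t ∈ Om d n := by
    intro t
    show |(fo d n (gam δ d n ϑ t)).2.2| < 1
    rw [fo_gam]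
    exact zet_lt t
  refine ⟨gam δ d n ϑ, I, hI2, hI3, hsm, ?_, (gam_inj δ d n ϑ).injOn, hI4, ?_⟩
  · intro t
    rw [(hder t).deriv]
    exact smul_ne_zero (zet_deriv_pos t).ne' (En_ne hC hs n (hOm t) (hmem t).1)
  · refine hA4 (gam δ d n ϑ) (deriv (gam δ d n ϑ)) I hI2 ?_ ?_
    · exact (hsm.continuous_deriv (by norm_num)).continuousOn
    · intro t ht
      refine ⟨hmem t, ?_, ?_⟩
      · rw [(hder t).deriv]
        exact (hder t).hasDerivWithinAt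
      · obtain ⟨e, he⟩ := hQE n (gam δ d n ϑ t) (hmem t) (hOm t)
        refine ⟨(1 / √(1 + t ^ 2) ^ 3) • e, ?_⟩
        rw [(hder t).deriv, map_smul, he]

end Pool.Agent.H812.Tm
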