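import Mathlib
import Pool.Agent.H812.Tm.Asm6

/-!
# Assembly 7: the frozen statement from the independent parts
-/

set_option autoImplicit false

open scoped ContDiff

namespace Pool.Agent.H812.Tm

open Pool.Agent.W811.Stu

lemma FS_half {c : ℝ} {q : ℝ × ℝ × ℝ} : FS (c / 2) q = 0 ↔
    q.1 ^ 2 + q.2.1 ^ 2 + q.2.2 ^ 2 - 2 * q.1 * q.2.1 * q.2.2 = 1 + c ^ 2 / 4 := by
  unfold FS
  have : (c / 2) ^ 2 = c ^ 2 / 4 := by ring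
  rw [this]
  constructor <;> intro h <;> linarith

theorem frozen_of (hC : SCoord) (hLow : SLow) (hE : SEsc) (hLip : SLip) (hField : SField)
    (hLeaf : SLeaf) (hLeafC : SLeafC) (hGlue : GGlue) (hFol : GFol) (hPart : GPart) :
    ∃ δ : ℝ, 0 < δ ∧ ∀ c : ℝ, 0 < c → c < δ → ∀ α : ℝ, Irrational α → 0 < α → α < 1 →
      ∃ 𝒞 : Set (Set (ℝ × ℝ × ℝ)), ∃ A : Set (ℝ × ℝ → ℝ × ℝ × ℝ),
        𝒞.PairwiseDisjoint id ∧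
        ⋃₀ 𝒞 = {p : ℝ × ℝ × ℝ |
            p.1 ^ 2 + p.2.1 ^ 2 + p.2.2 ^ 2 - 2 * p.1 * p.2.1 * p.2.2 = 1 + c ^ 2 / 4 ∧
            ∀ a : ℕ → ℤ, ∀ q : ℕ → ℝ × ℝ × ℝ,
              (∀ n, a n = ((⌊((fun x : ℝ => Int.fract x⁻¹)^[n] α)⁻¹⌋₊ : ℕ) : ℤ)) →
              q 0 = p →
              (∀ n, q (n + 1) =
                ((q n).1 * (Polynomial.Chebyshev.U ℝ (a n)).eval (q n).2.1
                    - (q n).2.2 * (Polynomial.Chebyshev.U ℝ (a n - 1)).eval (q n).2.1,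
                  (q n).1 * (Polynomial.Chebyshev.U ℝ (a n - 1)).eval (q n).2.1
                    - (q n).2.2 * (Polynomial.Chebyshev.U ℝ (a n - 2)).eval (q n).2.1,
                  (q n).2.1)) →
              ∃ C : ℝ, ∀ n, ‖q n‖ ≤ C} ∧
        (∀ φ ∈ A, ContDiff ℝ 1 φ ∧ Function.Injective φ ∧
            (∀ z, Function.Injective (fderiv ℝ φ z)) ∧
            ∀ z, (φ z).1 ^ 2 + (φ z).2.1 ^ 2 + (φ z).2.2 ^ 2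
                - 2 * (φ z).1 * (φ z).2.1 * (φ z).2.2 = 1 + c ^ 2 / 4) ∧
        (∀ φ ∈ A, ∀ ψ ∈ A, ∀ z w : ℝ × ℝ, φ z = ψ w →
            ∃ ε > 0, ∀ z' w' : ℝ × ℝ, dist z' z < ε → z'.2 = z.2 → ψ w' = φ z' → w'.2 = w.2) ∧
        (⋃₀ 𝒞 ⊆ ⋃ φ ∈ A, Set.range φ) ∧
        (∀ C ∈ 𝒞, ∃ γ : ℝ → ℝ × ℝ × ℝ, ∃ I : Set ℝ,
            I.OrdConnected ∧ I.Nontrivial ∧ ContDiff ℝ ∞ γ ∧ (∀ t, deriv γ t ≠ 0) ∧
            Set.InjOn γ I ∧ γ '' I = C ∧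
            ∀ t ∈ I, ∀ φ ∈ A, ∀ z : ℝ × ℝ, φ z = γ t →
              ∃ ε > 0, ∀ s ∈ I, |s - t| < ε → ∃ z' : ℝ × ℝ, φ z' = γ s ∧ z'.2 = z.2) := by
  refine ⟨1, one_pos, fun c hc _ α hα h0 h1 => ?_⟩
  have hd : ∀ k, 1 ≤ dig α k := fun k => Pool.Agent.W965.Stu.dig_pos hα h0 h1 k
  rw [frozen_set hE hc hα h0 h1]
  obtain ⟨𝒞, A, k1, k2, k3, k4, k5, k6⟩ := main_of hC hLow hE hLip hField hLeaf hLeafC hGlue hFol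
    hPart (δ := c / 2) (by positivity) hd
  exact ⟨𝒞, A, k1, k2, fun φ hφ => ⟨(k3 φ hφ).1, (k3 φ hφ).2.1, (k3 φ hφ).2.2.1,
    fun z => FS_half.1 ((k3 φ hφ).2.2.2 z)⟩, k4, k5, k6⟩

end Pool.Agent.H812.Tm
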