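import Mathlib
import Pool.Agent.H812.Tm.Asm7
import Pool.Agent.H282.Tm.Coord
import Pool.Agent.H106.TmLowRev
import Pool.Agent.H415.TmSSlope
import Pool.Agent.H200.TM.SBr
import Pool.Agent.H216.TmRun
import Pool.Agent.H389.TmSRGY
import Pool.Agent.H597.TmAlWin
import Pool.Agent.H284.TmSEsc
import Pool.Agent.H286.TmLAGA1
import Pool.Agent.H97.TmSLagA2
import Pool.Agent.H97.TmSLagB1
import Pool.Agent.H97.TmSLagB2
import Pool.Agent.H97.TmSLag
import Pool.Agent.H603.TmSSlT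
import Pool.Agent.H154.TmSTerm
import Pool.Agent.H803.TmSPair
import Pool.Agent.H295.TmSRGT
import Pool.Agent.H549.TmSLip
import Pool.Agent.H294.Tm.NFb
import Pool.Agent.H249.TmSField
import Pool.Agent.H551.TmLEAF
import Pool.Agent.H619.TmSRG
import Pool.Agent.H353.TmSQ
import Pool.Agent.H484.TmNFa
import Pool.Agent.H860.TmNFu
import Pool.Agent.H302.TmSJac
import Pool.Agent.H225.TmSCh
import Pool.Agent.H658.TmChG
import Pool.Agent.H253.TmLeafC
import Pool.Agent.H809.Sub.TmGOde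
import Pool.Agent.H809.Sub.TmGBox
import Pool.Agent.H127.TmGUniq
import Pool.Agent.H289.TmGlue
import Pool.Agent.H935.TmGFol
import Pool.Agent.H332.Tm.Part
import Pool.Agent.H947.TmSup
import Pool.Agent.H870.Tm.TmGTri

/-!
# Final assembly of the parts
-/

set_option autoImplicit false

namespace Pool.Agent.H812.Tm

theorem pCoord : SCoord := Pool.Agent.H282.Tm.tSCoord
theorem pDt : SDt := Pool.Agent.H282.Tm.tSDt
theorem pLow : SLow := Pool.Agent.H106.Tm.tLow pCoord pDt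
theorem pRev : SRev := Pool.Agent.H106.Tm.tRev pCoord pDt
theorem pSlope : SSlope := Pool.Agent.H415.TmSSlope.tSSlope pCoord pDt
theorem pBr : SBr := Pool.Agent.H200.TM.tSBr pCoord
theorem pRun : SRun := Pool.Agent.H216.Tm.tRun pDt pCoord
theorem pAl : SAl := Pool.Agent.H597.Tm.tSAl
theorem pWin : SWin := Pool.Agent.H597.Tm.tSWin
theorem pRGY : SRGY := Pool.Agent.H389.TmRGY.tSRGY pAl pWin pDt pCoord
theorem pEsc : SEsc := Pool.Agent.H284.TmEsc.tSEsc
theorem pLag : SLag := Pool.Agent.H97.Tm.tSLag Pool.Agent.H286.Tm.tLagA1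
  Pool.Agent.H97.Tm.tSLagA2 Pool.Agent.H97.Tm.tSLagB1 Pool.Agent.H97.Tm.tSLagB2 pDt
theorem pQ : SQ := Pool.Agent.H353.TmSQ.tSQ
theorem pFol : GFol := Pool.Agent.H935.TmGFol.tGFol
  (Pool.Agent.H809.TmGBox.tGBox Pool.Agent.H809.TmGOde.tGOde) Pool.Agent.H127.Tm.tGUniq

theorem pRGT : SRGT := Pool.Agent.H295.TmSRGT.tSRGT pWin pDt pCoord
theorem pRG : SRG := Pool.Agent.H619.Tm.tSRG pRGY pRev pAl pRGT
theorem pNFb : SNFb := Pool.Agent.H294.Tm.tSNFb pWin
theorem pJac : SJac := Pool.Agent.H302.TmSJac.tSJac (Pool.Agent.H484.TmNFa.tNFa pQ) pNFb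
    Pool.Agent.H860.TmNFu.tNFu pQ Pool.Agent.H947.Tm.tSup Pool.Agent.H870.Tm.tGTri
theorem pChG : SChG := Pool.Agent.H658.TmChG.tChG pRG pRGT pRev pLow pQ pDt pCoord

theorem pPair : SPair := Pool.Agent.H803.Tm.tSPair
theorem pSlT : SSlT := Pool.Agent.H603.TmSlT.tSSlT pPair pLag pSlope pLow pRun pBr pAl pWin pDt
    pCoord
theorem pTerm : STerm := Pool.Agent.H154.TmSTerm.tSTerm pPair pSlT pLag pSlope pLow pRun pRev pBr
    pAl pWin pDt
theorem pField : SField := Pool.Agent.H249.TmSField.tSField pTerm pAl pDt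
theorem pLeaf : SLeaf := Pool.Agent.H551.TmLEAF.tLEAF pField pSlope pAl pDt pCoord
theorem pLip : SLip := Pool.Agent.H549.Tm.tSLip pField pPair pLag pSlope pLow pRun pRev pBr pWin
    pDt pCoord pRG pRGT pQ
theorem pLeafC : SLeafC := Pool.Agent.H253.TmLeafC.tSLeafC pJac Pool.Agent.H225.TmSCh.tSCh pChG
    pLip pCoord pDt
theorem pGlue : GGlue := Pool.Agent.H289.TmGlue.tGGlue
theorem pPart : GPart := Pool.Agent.H332.Tm.tGPart

end Pool.Agent.H812.Tm
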